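/-
MP_e49dc9_ag, THEOREM U, module TU/TrD: transcendence degrees of quotients.

STATEMENT 1: F a field, A an F-algebra, P < Q primes, trdeg_F (A/P) finite: then
trdeg_F (A/Q) < trdeg_F (A/P). PROOF. trdeg (A/Q) <= trdeg (A/P) (trdeg_le_of_surjective along
A/P -> A/Q), so it is finite, = r, attained by a family u_1, .., u_r in A/Q algebraically independent
over F (exists_isTranscendenceBasis or the supremum); lift to v_i in A/P, and let 0 <> t in Q/P.
Then v_1, .., v_r, t are algebraically independent: they are r + 1 elements of the domain A/P;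
a nonzero relation Phi(v, t) = 0; divide Phi by the highest power of the last variable dividing
it (t is a nonzerodivisor: A/P is a domain), so Phi(v, 0) <> 0 as a polynomial in r variables;
reduce modulo Q: Phi(u, 0) = 0: contradiction. Formally: use algebraicIndependent_option /
transcendental criterion: v is algebraically independent (map to u), and t is transcendental over
Algebra.adjoin F (range v): if sum_j p_j t^j = 0 with p_j in adjoin F (range v), choose the relation
of least degree, so p_0 <> 0 (A/P domain); but p_0 in Q/P and adjoin F (range v) -> A/Q is injective.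
STATEMENT 2: X (x)_k K / Q for a prime Q, K / k finitely generated: trdeg over X is finite
(it is at most trdeg k K: the images of 1 (x) f, f in K, generate; or: essentially of finite
type).
STATEMENT 3: trdeg of (K (x) K) / dI over K is 0 (the quotient is K: every element is in the
image of the left factor).
-/
import Pool.Agent.H24.TU.Def

open scoped TensorProduct

namespace Pool.Agent.H24.TU

universe u

/-- a surjective homomorphism of domains which is not injective drops the degree -/
private theorem trd_surj {F B C : Type u} [Field F] [CommRing B] [CommRing C] [IsDomain B]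
    [IsDomain C] [Algebra F B] [Algebra F C] (f : B →ₐ[F] C) (hf : Function.Surjective f)
    {t : B} (ht : t ≠ 0) (hft : f t = 0) (hfin : Algebra.trdeg F B < Cardinal.aleph0) :
    Algebra.trdeg F C < Algebra.trdeg F B := by
  by_contra hlt
  rw [not_lt] at hlt
  obtain ⟨s, hs⟩ := exists_isTranscendenceBasis F C
  choose v hv using fun i : s => hf (i : C)
  have hfv : (f ∘ v) = fun i : s => (i : C) := funext hv
  have hind : AlgebraicIndependent F (f ∘ v) := by
    rw [hfv]
    exact hs.1
  have hvi : AlgebraicIndependent F v := hind.of_comp f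
  have hvb : IsTranscendenceBasis F v := by
    refine hvi.isTranscendenceBasis_of_trdeg_le hfin ?_
    rw [hs.cardinalMk_eq_trdeg]
    exact hlt
  have halg : Algebra.IsAlgebraic (Algebra.adjoin F (Set.range v)) B := hvb.isAlgebraic
  obtain ⟨q, hq0, hq⟩ := (halg.isAlgebraic t).exists_nonzero_coeff_and_aeval_eq_zero
    (mem_nonZeroDivisors_of_ne_zero ht)
  have h1 : f (algebraMap (Algebra.adjoin F (Set.range v)) B (q.coeff 0)) = 0 := by
    have h2 : Polynomial.aeval t q = algebraMap (Algebra.adjoin F (Set.range v)) B (q.coeff 0) +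
        t * Polynomial.aeval t q.divX := by
      conv_lhs => rw [← Polynomial.divX_mul_X_add q]
      rw [map_add, map_mul, Polynomial.aeval_X, Polynomial.aeval_C]
      ring
    rw [hq] at h2
    have h3 := congrArg f h2
    rw [map_zero, map_add, map_mul, hft, zero_mul, add_zero] at h3
    exact h3.symm
  have h4 : ((q.coeff 0 : Algebra.adjoin F (Set.range v)) : B) = 0 := by
    obtain ⟨φ, hφ⟩ : ((q.coeff 0 : Algebra.adjoin F (Set.range v)) : B) ∈
        (MvPolynomial.aeval v : MvPolynomial s F →ₐ[F] B).range := by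
      rw [← Algebra.adjoin_range_eq_range_aeval]
      exact (q.coeff 0).2
    have h5 : MvPolynomial.aeval (f ∘ v) φ = 0 := by
      rw [← h1]
      show _ = f ((q.coeff 0 : Algebra.adjoin F (Set.range v)) : B)
      rw [← hφ]
      exact (MvPolynomial.comp_aeval_apply v f φ).symm
    rw [← hφ, (injective_iff_map_eq_zero _).1 hind φ h5]
    exact map_zero _
  exact hq0 (Subtype.ext h4)

theorem trdeg_quot_lt {F A : Type u} [Field F] [CommRing A] [Algebra F A] {P Q : Ideal A}
    (hP : P.IsPrime) (hQ : Q.IsPrime) (h : P < Q)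
    (hfin : Algebra.trdeg F (A ⧸ P) < Cardinal.aleph0) :
    Algebra.trdeg F (A ⧸ Q) < Algebra.trdeg F (A ⧸ P) := by
  obtain ⟨t, htQ, htP⟩ := SetLike.exists_of_lt h
  refine trd_surj (Ideal.Quotient.factorₐ F h.le) ?_ (t := Ideal.Quotient.mk P t) ?_ ?_ hfin
  · exact Ideal.Quotient.factor_surjective h.le
  · rwa [Ne, Ideal.Quotient.eq_zero_iff_mem]
  · show Ideal.Quotient.mk Q t = 0
    rwa [Ideal.Quotient.eq_zero_iff_mem]

theorem trdeg_quot_fin {k X K : Type u} [Field k] [Field X] [Field K] [Algebra k X] [Algebra k K]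
    [Algebra.EssFiniteType k K] {Q : Ideal (X ⊗[k] K)} (hQ : Q.IsPrime) :
    Algebra.trdeg X ((X ⊗[k] K) ⧸ Q) < Cardinal.aleph0 := by
  have h1 : Algebra.EssFiniteType X (X ⊗[k] K) := inferInstance
  have h2 : Algebra.EssFiniteType (X ⊗[k] K) ((X ⊗[k] K) ⧸ Q) := inferInstance
  have h3 : Algebra.EssFiniteType X ((X ⊗[k] K) ⧸ Q) :=
    Algebra.EssFiniteType.comp X (X ⊗[k] K) ((X ⊗[k] K) ⧸ Q)
  have h4 : Algebra.EssFiniteType ((X ⊗[k] K) ⧸ Q) (FractionRing ((X ⊗[k] K) ⧸ Q)) :=
    Algebra.EssFiniteType.of_isLocalization _ (nonZeroDivisors ((X ⊗[k] K) ⧸ Q))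
  have h5 : Algebra.EssFiniteType X (FractionRing ((X ⊗[k] K) ⧸ Q)) :=
    Algebra.EssFiniteType.comp X ((X ⊗[k] K) ⧸ Q) (FractionRing ((X ⊗[k] K) ⧸ Q))
  refine (trdeg_le_of_injective
    (IsScalarTower.toAlgHom X ((X ⊗[k] K) ⧸ Q) (FractionRing ((X ⊗[k] K) ⧸ Q)))
    (IsFractionRing.injective ((X ⊗[k] K) ⧸ Q) (FractionRing ((X ⊗[k] K) ⧸ Q)))).trans_lt ?_
  exact trdeg_lt_aleph0 X (FractionRing ((X ⊗[k] K) ⧸ Q))

theorem trdeg_dI {k K : Type u} [Field k] [Field K] [Algebra k K] :
    Algebra.trdeg K ((K ⊗[k] K) ⧸ dI k K) = 0 := by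
  have h1 : Algebra.IsAlgebraic K ((K ⊗[k] K) ⧸ dI k K) := by
    refine ⟨fun y => ?_⟩
    obtain ⟨g, rfl⟩ := Ideal.Quotient.mk_surjective y
    have h2 : Ideal.Quotient.mk (dI k K) g =
        algebraMap K ((K ⊗[k] K) ⧸ dI k K) (pt (AlgHom.id k K) (AlgHom.id k K) g) := by
      show _ = Ideal.Quotient.mk (dI k K)
        ((pt (AlgHom.id k K) (AlgHom.id k K) g) ⊗ₜ[k] (1 : K))
      rw [Ideal.Quotient.eq]
      show _ ∈ ptI (AlgHom.id k K) (AlgHom.id k K)
      rw [mem_ptI, map_sub, pt_tmul]
      simp only [AlgHom.coe_id, id_eq, mul_one, sub_self]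
    rw [h2]
    exact isAlgebraic_algebraMap _
  exact trdeg_eq_zero

/-- A prime inside P (strictly) has trdeg at least 2 if trdeg at P is 1. -/
theorem two_le_trdeg {k K : Type u} [Field k] [Field K] [Algebra k K]
    [Algebra.EssFiniteType k K] {P Q : Ideal (K ⊗[k] K)} (hP : P.IsPrime) (hQ : Q.IsPrime)
    (h : Q < P) (h1 : Algebra.trdeg K ((K ⊗[k] K) ⧸ P) = 1) :
    2 ≤ Algebra.trdeg K ((K ⊗[k] K) ⧸ Q) := by
  have hf := trdeg_quot_fin hQ
  have h2 := trdeg_quot_lt hQ hP h hf
  rw [h1] at h2
  obtain ⟨n, hn⟩ := Cardinal.lt_aleph0.1 hf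
  rw [hn] at h2 ⊢
  have h3 : 1 < n := by exact_mod_cast h2
  exact_mod_cast h3

end Pool.Agent.H24.TU
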