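import Mathlib

/-!
MP_e49dc9_ag, THEOREM U, module TU/Filt: the filtration argument (pure algebra).

O a commutative X-algebra, M_n X-subspaces with M_m M_n in M_(m+n), u in M_1 a unit of O, W a
subset of M_1, J the ideal generated by W. If M_c + J = O then M_(N+c) + J^N = O for all N.
PROOF. Induction on N, N = 0: J^0 = O (take m = 0). Step: given y. By induction (applied to
u^(-1) y) there is m in M_(N+c) with r := y - u m in J^N, and u m in M_(N+1+c). J^N is the span of
the products w_1 .. w_N, w_i in W, so r is a finite sum of terms p z with p a product of N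
elements of W and z in O. For such a term: by hc applied to u^(-1) z there is m' in M_c with
z - u m' in J, so p z - p u m' in J^(N+1), and p u m' in M_(N + 1 + c) (p in M_N). For N = 0: p = 1,
z arbitrary: then use u m' in M_(1+c) directly (M_0 need not contain 1). So for the step from
N = 0 argue directly; in general the products p of N >= 1 elements lie in M_N. Use
Submodule.span_induction / Ideal.span_pow_eq... (Ideal.span W)^N = Ideal.span (products), or prove
the statement [for all N, for all r in J^N there is m in M_(N+1+c) with r - m in J^(N+1)] by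
Submodule.pow_induction_on_left' or Ideal.mul_induction.
-/

namespace Pool.Agent.H24.TU

private theorem filt_step {X O : Type*} [Field X] [CommRing O] [Algebra X O]
    (M : ℕ → Submodule X O)
    (hmul : ∀ {m n : ℕ} {a b : O}, a ∈ M m → b ∈ M n → a * b ∈ M (m + n))
    (W : Set O) (hW : ∀ w ∈ W, w ∈ M 1) (u : O) (hu : u ∈ M 1) (huu : IsUnit u) (c : ℕ)
    (hc : ∀ y : O, ∃ m ∈ M c, y - m ∈ Ideal.span W) (N : ℕ) :
    ∀ r ∈ (Ideal.span W) ^ N, ∃ m ∈ M (N + c + 1), r - m ∈ (Ideal.span W) ^ (N + 1) := by
  induction N with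
  | zero =>
    intro r _
    obtain ⟨v, hv⟩ := huu.exists_left_inv
    obtain ⟨m, hm, hr⟩ := hc (v * r)
    refine ⟨u * m, ?_, ?_⟩
    · have h := hmul hu hm
      rwa [show 0 + c + 1 = 1 + c by omega]
    · rw [zero_add, pow_one]
      have h1 : r - u * m = u * (v * r - m) := by
        linear_combination (-r) * hv
      rw [h1]
      exact Ideal.mul_mem_left _ _ hr
  | succ N ih =>
    intro r hr
    rw [pow_succ'] at hr
    have key : ∀ a ∈ Ideal.span W, ∀ b ∈ (Ideal.span W) ^ N,
        ∃ m ∈ M (N + 1 + c + 1), a * b - m ∈ (Ideal.span W) ^ (N + 1 + 1) := by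
      intro a ha
      induction ha using Submodule.span_induction with
      | mem w hw =>
        intro b hb
        obtain ⟨m, hm, hbm⟩ := ih b hb
        refine ⟨w * m, ?_, ?_⟩
        · have h := hmul (hW w hw) hm
          rwa [show N + 1 + c + 1 = 1 + (N + c + 1) by omega]
        · rw [← mul_sub, pow_succ' _ (N + 1)]
          exact Ideal.mul_mem_mul (Ideal.subset_span hw) hbm
      | zero =>
        intro b _
        exact ⟨0, Submodule.zero_mem _, by simp⟩
      | add x y _ _ hx hy =>
        intro b hb
        obtain ⟨m1, hm1, h1⟩ := hx b hb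
        obtain ⟨m2, hm2, h2⟩ := hy b hb
        refine ⟨m1 + m2, Submodule.add_mem _ hm1 hm2, ?_⟩
        have h3 : (x + y) * b - (m1 + m2) = (x * b - m1) + (y * b - m2) := by ring
        rw [h3]
        exact Ideal.add_mem _ h1 h2
      | smul t x _ hx =>
        intro b hb
        obtain ⟨m1, hm1, h1⟩ := hx (t * b) (Ideal.mul_mem_left _ _ hb)
        refine ⟨m1, hm1, ?_⟩
        have h3 : t • x * b - m1 = x * (t * b) - m1 := by
          rw [smul_eq_mul]
          ring
        rw [h3]
        exact h1
    induction hr using Submodule.mul_induction_on' with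
    | mem_mul_mem a ha b hb => exact key a ha b hb
    | add x _ y _ hx hy =>
      obtain ⟨m1, hm1, h1⟩ := hx
      obtain ⟨m2, hm2, h2⟩ := hy
      refine ⟨m1 + m2, Submodule.add_mem _ hm1 hm2, ?_⟩
      have h3 : (x + y) - (m1 + m2) = (x - m1) + (y - m2) := by ring
      rw [h3]
      exact Ideal.add_mem _ h1 h2

/-- The filtration lemma. -/
theorem filt {X O : Type*} [Field X] [CommRing O] [Algebra X O] (M : ℕ → Submodule X O)
    (hmul : ∀ {m n : ℕ} {a b : O}, a ∈ M m → b ∈ M n → a * b ∈ M (m + n))
    (W : Set O) (hW : ∀ w ∈ W, w ∈ M 1) (u : O) (hu : u ∈ M 1) (huu : IsUnit u) (c : ℕ)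
    (hc : ∀ y : O, ∃ m ∈ M c, y - m ∈ Ideal.span W) (N : ℕ) (y : O) :
    ∃ m ∈ M (N + c), y - m ∈ (Ideal.span W) ^ N := by
  induction N generalizing y with
  | zero => exact ⟨0, Submodule.zero_mem _, by simp⟩
  | succ N ih =>
    obtain ⟨v, hv⟩ := huu.exists_left_inv
    obtain ⟨m, hm, hr⟩ := ih (v * y)
    have h1 : y - u * m ∈ (Ideal.span W) ^ N := by
      have h2 : y - u * m = u * (v * y - m) := by
        linear_combination (-y) * hv
      rw [h2]
      exact Ideal.mul_mem_left _ _ hr
    obtain ⟨m', hm', hr'⟩ := filt_step M hmul W hW u hu huu c hc N _ h1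
    refine ⟨u * m + m', Submodule.add_mem _ ?_ ?_, ?_⟩
    · have h := hmul hu hm
      rwa [show N + 1 + c = 1 + (N + c) by omega]
    · rwa [show N + 1 + c = N + c + 1 by omega]
    · rw [← sub_sub]
      exact hr'

end Pool.Agent.H24.TU
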