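/-
MP_e49dc9_ag, THEOREM U, module TU/OrdB: basic facts about OrdGE, SmGE and M_n.

Proofs: inductions on m (OrdGE Q (m+1) g iff g in Q and OrdGE Q m (dK X delta g) for all delta).
OrdGE_mul_left: for a any element: OrdGE Q m g -> OrdGE Q m (a g): dK delta (a g) = a dK delta g +
g dK delta a; use OrdGE_mono (m+1 -> m) and OrdGE_add. OrdGE_mul: OrdGE Q m f and OrdGE Q n g
give OrdGE Q (m+n) (f g): induction on m + n; if m = 0 or n = 0 use OrdGE_mul_left; otherwise
f g in Q and dK delta (f g) = f dK delta g + g dK delta f, orders m + (n-1) and (m-1) + n.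
ordGE_comap: by dK_chg. M_n: (S.L n).baseChange X is spanned by the 1 (x) f, f in L n
(Submodule.baseChange_eq_span); all statements about M_n by span induction. finrank_M: the
inclusion L_n -> K gives X (x) L_n -> X (x) K injective (X / k is flat), with image M_n;
finrank X (X (x) L_n) = finrank k L_n. denom: for one element t = sum a_i (x) f_i, f_i = b_i / s_i
(S.frac), multiply the s_i; L_n s in L_(n+m) for s in L_m; induction on tensors (for a sum:
t1 s1, t2 s2 in M: (t1 + t2) s1 s2). For finite sets: induction on the set.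
-/
import Pool.Agent.H24.TU.Def

open scoped TensorProduct

namespace Pool.Agent.H24.TU

universe u

variable {k X K : Type u} [Field k] [Field X] [Field K] [Algebra k X] [Algebra k K]

theorem OrdGE_mono {Q : Ideal (X ⊗[k] K)} {m n : ℕ} (hmn : m ≤ n) {g : X ⊗[k] K}
    (h : OrdGE Q n g) : OrdGE Q m g := by
  induction m generalizing n g with
  | zero => trivial
  | succ m ih =>
    obtain ⟨n', rfl⟩ : ∃ n', n = n' + 1 := ⟨n - 1, by omega⟩
    exact ⟨h.1, fun δ => ih (by omega) (h.2 δ)⟩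

theorem OrdGE_le {Q Q' : Ideal (X ⊗[k] K)} (hQ : Q ≤ Q') {m : ℕ} {g : X ⊗[k] K}
    (h : OrdGE Q m g) : OrdGE Q' m g := by
  induction m generalizing g with
  | zero => trivial
  | succ m ih => exact ⟨hQ h.1, fun δ => ih (h.2 δ)⟩

theorem OrdGE_add {Q : Ideal (X ⊗[k] K)} {m : ℕ} {f g : X ⊗[k] K}
    (hf : OrdGE Q m f) (hg : OrdGE Q m g) : OrdGE Q m (f + g) := by
  induction m generalizing f g with
  | zero => trivial
  | succ m ih =>
    refine ⟨Q.add_mem hf.1 hg.1, fun δ => ?_⟩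
    rw [map_add]
    exact ih (hf.2 δ) (hg.2 δ)

theorem OrdGE_zero {Q : Ideal (X ⊗[k] K)} (m : ℕ) : OrdGE Q m (0 : X ⊗[k] K) := by
  induction m with
  | zero => trivial
  | succ m ih =>
    refine ⟨Q.zero_mem, fun δ => ?_⟩
    rw [map_zero]
    exact ih

theorem OrdGE_mul_left {Q : Ideal (X ⊗[k] K)} {m : ℕ} {g : X ⊗[k] K} (a : X ⊗[k] K)
    (hg : OrdGE Q m g) : OrdGE Q m (a * g) := by
  induction m generalizing a g with
  | zero => trivial
  | succ m ih =>
    refine ⟨Q.mul_mem_left a hg.1, fun δ => ?_⟩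
    rw [Derivation.leibniz, smul_eq_mul, smul_eq_mul]
    refine OrdGE_add (ih a (hg.2 δ)) ?_
    rw [mul_comm]
    exact ih _ (OrdGE_mono (Nat.le_succ m) hg)

theorem OrdGE_mul {Q : Ideal (X ⊗[k] K)} {m n : ℕ} {f g : X ⊗[k] K}
    (hf : OrdGE Q m f) (hg : OrdGE Q n g) : OrdGE Q (m + n) (f * g) := by
  obtain ⟨N, hN⟩ : ∃ N, N = m + n := ⟨_, rfl⟩
  induction N generalizing m n f g with
  | zero =>
    rw [← hN]
    trivial
  | succ N ih =>
    rcases Nat.eq_zero_or_pos m with hm | hm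
    · subst hm
      rw [zero_add]
      exact OrdGE_mul_left f hg
    · rcases Nat.eq_zero_or_pos n with hn | hn
      · subst hn
        rw [add_zero, mul_comm]
        exact OrdGE_mul_left g hf
      · obtain ⟨m', rfl⟩ : ∃ m', m = m' + 1 := ⟨m - 1, by omega⟩
        obtain ⟨n', rfl⟩ : ∃ n', n = n' + 1 := ⟨n - 1, by omega⟩
        have e : m' + 1 + (n' + 1) = (m' + n' + 1) + 1 := by ring
        rw [e]
        refine ⟨Q.mul_mem_left _ hg.1, fun δ => ?_⟩
        rw [Derivation.leibniz, smul_eq_mul, smul_eq_mul]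
        refine OrdGE_add ?_ ?_
        · have h1 : OrdGE Q (m' + 1 + n') (f * dK X δ g) := ih hf (hg.2 δ) (by omega)
          have e1 : m' + 1 + n' = m' + n' + 1 := by ring
          rwa [e1] at h1
        · have h1 : OrdGE Q (m' + (n' + 1)) (dK X δ f * g) := ih (hf.2 δ) hg (by omega)
          have e1 : m' + (n' + 1) = m' + n' + 1 := by ring
          rw [e1, mul_comm] at h1
          exact h1

/-- The ideal of the elements of order at least m. -/
def ordIdeal (Q : Ideal (X ⊗[k] K)) (m : ℕ) : Ideal (X ⊗[k] K) where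
  carrier := {g | OrdGE Q m g}
  add_mem' := fun hf hg => OrdGE_add hf hg
  zero_mem' := OrdGE_zero m
  smul_mem' := fun a _ hg => OrdGE_mul_left a hg

theorem ordGE_comap {X' : Type u} [Field X'] [Algebra k X'] (φ : X →ₐ[k] X')
    (Q : Ideal (X' ⊗[k] K)) (m : ℕ) (g : X ⊗[k] K) :
    OrdGE (Q.comap (chg K φ)) m g ↔ OrdGE Q m (chg K φ g) := by
  induction m generalizing g with
  | zero => exact Iff.rfl
  | succ m ih =>
    constructor
    · intro h
      refine ⟨h.1, fun δ => ?_⟩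
      rw [dK_chg]
      exact (ih _).1 (h.2 δ)
    · intro h
      refine ⟨h.1, fun δ => ?_⟩
      rw [ih, ← dK_chg]
      exact h.2 δ

/-- If J is generated by elements of order at least m then J^N has order at least m N. -/
theorem ordGE_span_pow {Q : Ideal (X ⊗[k] K)} {m : ℕ} {W : Set (X ⊗[k] K)}
    (hW : ∀ w ∈ W, OrdGE Q m w) (N : ℕ) {g : X ⊗[k] K} (hg : g ∈ (Ideal.span W) ^ N) :
    OrdGE Q (m * N) g := by
  have h1 : Ideal.span W ≤ ordIdeal Q m := Ideal.span_le.2 fun w hw => hW w hw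
  have h2 : ∀ N : ℕ, (Ideal.span W) ^ N ≤ ordIdeal Q (m * N) := by
    intro N
    induction N with
    | zero =>
      intro x _
      change OrdGE Q (m * 0) x
      rw [mul_zero]
      trivial
    | succ N ih =>
      rw [pow_succ, Ideal.mul_le]
      intro r hr s hs
      have h3 : OrdGE Q (m * N + m) (r * s) := OrdGE_mul (ih hr) (h1 hs)
      change OrdGE Q (m * (N + 1)) (r * s)
      rw [mul_add, mul_one]
      exact h3
  exact h2 N hg

/-- For Q prime: if s g has order at least m and s is not in Q then g has order at least m. -/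
theorem ordGE_of_mul {Q : Ideal (X ⊗[k] K)} (hQ : Q.IsPrime) {m : ℕ} {s g : X ⊗[k] K}
    (hs : s ∉ Q) (h : OrdGE Q m (s * g)) : OrdGE Q m g := by
  induction m generalizing g with
  | zero => trivial
  | succ m ih =>
    have hg : OrdGE Q m g := ih (OrdGE_mono (Nat.le_succ m) h)
    refine ⟨(hQ.mem_or_mem h.1).resolve_left hs, fun δ => ih ?_⟩
    have h1 := h.2 δ
    rw [Derivation.leibniz, smul_eq_mul, smul_eq_mul] at h1
    have h2 : OrdGE Q m ((-dK X δ s) * g) := OrdGE_mul_left _ hg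
    have h3 := OrdGE_add h1 h2
    have e : s * dK X δ g + g * dK X δ s + -dK X δ s * g = s * dK X δ g := by ring
    rwa [e] at h3

private theorem M_eq_span (S : GSys k K) (n : ℕ) : S.M X n =
    Submodule.span X ((fun f : K => (1 : X) ⊗ₜ[k] f) '' (S.L n : Set K)) := by
  unfold GSys.M
  rw [Submodule.baseChange_eq_span]
  rfl

private theorem M_eq_range (S : GSys k K) (n : ℕ) : S.M X n =
    LinearMap.range ((S.L n).subtype.baseChange X) := rfl

private theorem ordb_inj (S : GSys k K) (n : ℕ) :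
    Function.Injective ((S.L n).subtype.baseChange X) :=
  Module.Flat.lTensor_preserves_injective_linearMap (M := X) (S.L n).subtype
    (Submodule.subtype_injective _)

private theorem ordb_dX_smul (θ : Derivation k X X) (c : X) (x : X ⊗[k] K) :
    dX K θ (c • x) = c • dX K θ x + θ c • x := by
  induction x using TensorProduct.induction_on with
  | zero => simp
  | add a b ha hb =>
    rw [smul_add, map_add, ha, hb, map_add, smul_add, smul_add]
    abel
  | tmul y f =>
    rw [TensorProduct.smul_tmul', dX_tmul, dX_tmul, TensorProduct.smul_tmul',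
      TensorProduct.smul_tmul', smul_eq_mul, smul_eq_mul, smul_eq_mul, Derivation.leibniz,
      smul_eq_mul, smul_eq_mul, TensorProduct.add_tmul, mul_comm (θ c) y]

theorem M_tmul (S : GSys k K) {n : ℕ} (x : X) {f : K} (hf : f ∈ S.L n) :
    x ⊗ₜ[k] f ∈ S.M X n := by
  exact Submodule.tmul_mem_baseChange_of_mem x hf

theorem M_mul (S : GSys k K) {m n : ℕ} {a b : X ⊗[k] K} (ha : a ∈ S.M X m)
    (hb : b ∈ S.M X n) : a * b ∈ S.M X (m + n) := by
  rw [M_eq_span] at ha hb
  have h1 : ∀ f ∈ S.L m, ∀ b ∈ Submodule.span X ((fun f : K => (1 : X) ⊗ₜ[k] f) '' (S.L n : Set K)),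
      ((1 : X) ⊗ₜ[k] f) * b ∈ S.M X (m + n) := by
    intro f hf b hb
    induction hb using Submodule.span_induction with
    | mem b hb =>
      obtain ⟨g, hg, rfl⟩ := hb
      change ((1 : X) ⊗ₜ[k] f) * ((1 : X) ⊗ₜ[k] g) ∈ _
      rw [Algebra.TensorProduct.tmul_mul_tmul, mul_one]
      exact M_tmul S 1 (S.mul_mem hf hg)
    | zero =>
      rw [mul_zero]
      exact zero_mem _
    | add x y _ _ hx hy =>
      rw [mul_add]
      exact add_mem hx hy
    | smul c x _ hx =>
      rw [mul_smul_comm]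
      exact Submodule.smul_mem _ _ hx
  induction ha using Submodule.span_induction with
  | mem a ha =>
    obtain ⟨f, hf, rfl⟩ := ha
    exact h1 f hf b hb
  | zero =>
    rw [zero_mul]
    exact zero_mem _
  | add x y _ _ hx hy =>
    rw [add_mul]
    exact add_mem hx hy
  | smul c x _ hx =>
    rw [smul_mul_assoc]
    exact Submodule.smul_mem _ _ hx

theorem M_dX (S : GSys k K) {n : ℕ} {a : X ⊗[k] K} (ha : a ∈ S.M X n)
    (θ : Derivation k X X) : dX K θ a ∈ S.M X n := by
  rw [M_eq_span] at ha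
  induction ha using Submodule.span_induction with
  | mem a ha =>
    obtain ⟨f, hf, rfl⟩ := ha
    change dX K θ ((1 : X) ⊗ₜ[k] f) ∈ _
    rw [dX_tmul]
    exact M_tmul S _ hf
  | zero =>
    rw [map_zero]
    exact zero_mem _
  | add x y _ _ hx hy =>
    rw [map_add]
    exact add_mem hx hy
  | smul c x hx0 hx =>
    rw [ordb_dX_smul]
    refine add_mem (Submodule.smul_mem _ _ hx) (Submodule.smul_mem _ _ ?_)
    rw [M_eq_span]
    exact hx0

theorem M_finite (S : GSys k K) (n : ℕ) : Module.Finite X (S.M X n) := by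
  have := S.fin n
  rw [M_eq_range]
  infer_instance

theorem finrank_M (S : GSys k K) (n : ℕ) :
    Module.finrank X (S.M X n) = Module.finrank k (S.L n) := by
  have := S.fin n
  rw [M_eq_range, LinearMap.finrank_range_of_inj (ordb_inj S n)]
  exact Module.finrank_baseChange

theorem denom (S : GSys k K) (T : Finset (X ⊗[k] K)) :
    ∃ c, ∃ s ∈ S.L c, s ≠ 0 ∧ ∀ t ∈ T, ((1 : X) ⊗ₜ[k] s) * t ∈ S.M X c := by
  have hadd : ∀ (c₁ c₂ : ℕ) (s₁ s₂ : K) (t : X ⊗[k] K), s₂ ∈ S.L c₂ →
      ((1 : X) ⊗ₜ[k] s₁) * t ∈ S.M X c₁ → ((1 : X) ⊗ₜ[k] (s₁ * s₂)) * t ∈ S.M X (c₁ + c₂) := by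
    intro c₁ c₂ s₁ s₂ t h2 h1
    have h3 := M_mul S h1 (M_tmul S (1 : X) h2)
    have e : ((1 : X) ⊗ₜ[k] (s₁ * s₂)) * t = ((1 : X) ⊗ₜ[k] s₁) * t * ((1 : X) ⊗ₜ[k] s₂) := by
      have e1 : (1 : X) ⊗ₜ[k] (s₁ * s₂) = ((1 : X) ⊗ₜ[k] s₁) * ((1 : X) ⊗ₜ[k] s₂) := by
        rw [Algebra.TensorProduct.tmul_mul_tmul, mul_one]
      rw [e1]
      ring
    rw [e]
    exact h3
  have hone : ∀ t : X ⊗[k] K, ∃ c, ∃ s ∈ S.L c, s ≠ 0 ∧ ((1 : X) ⊗ₜ[k] s) * t ∈ S.M X c := by
    intro t
    induction t using TensorProduct.induction_on with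
    | zero =>
      refine ⟨0, 1, S.one_mem, one_ne_zero, ?_⟩
      rw [mul_zero]
      exact zero_mem _
    | tmul x f =>
      obtain ⟨n, a, ha, s, hs, hs0, hfs⟩ := S.frac f
      refine ⟨n, s, hs, hs0, ?_⟩
      rw [Algebra.TensorProduct.tmul_mul_tmul, one_mul, mul_comm, hfs]
      exact M_tmul S x ha
    | add a b ha hb =>
      obtain ⟨c₁, s₁, h1, h10, h1t⟩ := ha
      obtain ⟨c₂, s₂, h2, h20, h2t⟩ := hb
      refine ⟨c₁ + c₂, s₁ * s₂, S.mul_mem h1 h2, mul_ne_zero h10 h20, ?_⟩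
      rw [mul_add]
      refine add_mem (hadd _ _ _ _ _ h2 h1t) ?_
      rw [mul_comm s₁ s₂, add_comm c₁ c₂]
      exact hadd _ _ _ _ _ h1 h2t
  classical
  induction T using Finset.induction_on with
  | empty => exact ⟨0, 1, S.one_mem, one_ne_zero, fun t ht => absurd ht (Finset.notMem_empty t)⟩
  | insert t T _ ih =>
    obtain ⟨c₁, s₁, h1, h10, h1t⟩ := hone t
    obtain ⟨c₂, s₂, h2, h20, h2t⟩ := ih
    refine ⟨c₁ + c₂, s₁ * s₂, S.mul_mem h1 h2, mul_ne_zero h10 h20, ?_⟩
    intro u hu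
    rcases Finset.mem_insert.1 hu with rfl | hu
    · exact hadd _ _ _ _ _ h2 h1t
    · rw [mul_comm s₁ s₂, add_comm c₁ c₂]
      exact hadd _ _ _ _ _ h1 (h2t u hu)

end Pool.Agent.H24.TU
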