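/-
MP_e49dc9_ag, THEOREM U, module TU/TayRing: the Taylor map is a K-algebra homomorphism.

coord_comm: C.d i (C.d j f) = C.d j (C.d i f): the commutator is a derivation (Derivation has a
Lie bracket, or define it by hand) killing the transcendence basis C.c, so it is 0
(derivation_eq_zero, TU/DerEx).
Dp_add: D^(a+b) = D^a D^b, D^(a + e_i) g = D^a (dK (C.d i) g): the dK K (C.d i) commute
(dK of commuting derivations, check on tensors).
coeff_dK: coeff a (tay (dK (C.d i) g)) = (a_i + 1) coeff (a + e_i) (tay g).
tay_mul: UNIQUENESS ARGUMENT. Fix f, g. Call H in K[[t]]-valued... elementary version: prove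
  coeff a (tay (f g)) = sum over antidiagonal a of coeff b (tay f) * coeff c (tay g)
by induction on the degree of a for all f, g at once. Degree 0: ev is a ring homomorphism. For
a = a' + e_i with i such that a_i > 0: by coeff_dK, a_i coeff a (tay (f g)) =
coeff a' (tay (dK d_i (f g))) = coeff a' (tay (f dK g)) + coeff a' (tay (g dK f)) =
(induction) coeff a' (tay f * tay (dK g)) + coeff a' (tay g * tay (dK f)), and tay (dK d_i g) is
the formal partial derivative of tay g (coeff_dK), so the sum is the coefficient at a' of the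
partial derivative of tay f * tay g (Leibniz rule for formal partial derivatives of
MvPowerSeries; if it is not available prove the coefficient identity
a_i * sum_(b + c = a) F_b G_c = sum_(b+c=a) (b_i + c_i) F_b G_c directly, shifting the index).
char K = 0 lets one divide by a_i.
tay_smul: tay is K-linear for the coefficients (left factor).
tay_var: tay (1 (x) c_i - c_i (x) 1) = X_i: D^0 gives ev = 0; D^(e_i) gives 1; all other
derivatives vanish (d_j c_i = 0 or 1, a constant: derivations kill constants).
-/
import Pool.Agent.H24.TU.TayDef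
import Pool.Agent.H24.TU.DerEx

open scoped TensorProduct
open Finset.HasAntidiagonal (antidiagonal mem_antidiagonal)

namespace Pool.Agent.H24.TU

universe u

variable {k K : Type u} [Field k] [CharZero k] [Field K] [Algebra k K]

theorem coord_comm (C : Coord k K) (i j : Fin 3) (f : K) :
    C.d i (C.d j f) = C.d j (C.d i f) := by
  have h : ⁅C.d i, C.d j⁆ = (0 : Derivation k K K) := by
    refine derivation_eq_zero C.basis _ fun l => ?_
    rw [Derivation.commutator_apply, C.dual, C.dual]
    split_ifs <;> simp
  have h1 := congrArg (fun D : Derivation k K K => D f) h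
  simp only [Derivation.commutator_apply, Derivation.coe_zero, Pi.zero_apply] at h1
  exact sub_eq_zero.1 h1

private theorem dK_comm (C : Coord k K) (i j : Fin 3) (g : K ⊗[k] K) :
    dK K (C.d i) (dK K (C.d j) g) = dK K (C.d j) (dK K (C.d i) g) := by
  induction g using TensorProduct.induction_on with
  | zero => simp
  | add a b ha hb => simp only [map_add, ha, hb]
  | tmul x f => simp only [dK_tmul, coord_comm C i j f]

private noncomputable def En (C : Coord k K) (i : Fin 3) : Module.End K (K ⊗[k] K) :=
  (dK K (C.d i)).toLinearMap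

private theorem En_comm (C : Coord k K) (i j : Fin 3) : Commute (En C i) (En C j) := by
  apply LinearMap.ext
  intro g
  exact dK_comm C i j g

private theorem Dp_eq (C : Coord k K) (a : Fin 3 →₀ ℕ) :
    Dp C a = En C 0 ^ (a 0) * (En C 1 ^ (a 1) * En C 2 ^ (a 2)) := rfl

theorem Dp_dK (C : Coord k K) (a : Fin 3 →₀ ℕ) (i : Fin 3) (g : K ⊗[k] K) :
    Dp C (a + Finsupp.single i 1) g = Dp C a (dK K (C.d i) g) := by
  have key : Dp C (a + Finsupp.single i 1) = Dp C a * En C i := by
    rw [Dp_eq, Dp_eq]
    fin_cases i
    · have h1 : Commute (En C 0) (En C 1 ^ (a 1) * En C 2 ^ (a 2)) :=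
        ((En_comm C 0 1).pow_right _).mul_right ((En_comm C 0 2).pow_right _)
      simp only [Finsupp.add_apply, Fin.zero_eta, Finsupp.single_eq_same, pow_succ, Fin.isValue,
        ne_eq, one_ne_zero, not_false_eq_true, Finsupp.single_eq_of_ne, add_zero, Fin.reduceEq]
      have h2 := h1.eq
      simp only [mul_assoc] at h2 ⊢
      rw [← h2]
    · have h1 : Commute (En C 1) (En C 2 ^ (a 2)) := (En_comm C 1 2).pow_right _
      simp only [Finsupp.add_apply, Fin.mk_one, Finsupp.single_eq_same, pow_succ, Fin.isValue,
        ne_eq, one_ne_zero, not_false_eq_true, Finsupp.single_eq_of_ne, add_zero, Fin.reduceEq,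
        zero_ne_one]
      rw [mul_assoc (En C 1 ^ (a 1)), h1.eq]
      simp only [mul_assoc]
    · simp only [Finsupp.add_apply, Fin.reduceFinMk, Finsupp.single_eq_same, pow_succ, Fin.isValue,
        ne_eq, one_ne_zero, not_false_eq_true, Finsupp.single_eq_of_ne, add_zero, Fin.reduceEq]
      simp only [mul_assoc]
  rw [key]
  rfl

private theorem fac3_add (a : Fin 3 →₀ ℕ) (i : Fin 3) :
    fac3 (a + Finsupp.single i 1) = (a i + 1) * fac3 a := by
  unfold fac3
  fin_cases i
  · simp [Nat.factorial_succ]
    ring
  · simp [Nat.factorial_succ]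
    ring
  · simp [Nat.factorial_succ]
    ring

theorem coeff_dK (C : Coord k K) (a : Fin 3 →₀ ℕ) (i : Fin 3) (g : K ⊗[k] K) :
    MvPowerSeries.coeff a (tay C (dK K (C.d i) g)) =
      ((a i : K) + 1) * MvPowerSeries.coeff (a + Finsupp.single i 1) (tay C g) := by
  have : CharZero K := charZero_of_injective_algebraMap (algebraMap k K).injective
  rw [coeff_tay, coeff_tay, Dp_dK, fac3_add]
  have h1 : ((a i : K) + 1) ≠ 0 := by exact_mod_cast Nat.succ_ne_zero (a i)
  push_cast
  rw [mul_inv, ← mul_assoc, ← mul_assoc, mul_inv_cancel₀ h1, one_mul]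

theorem tay_add (C : Coord k K) (f g : K ⊗[k] K) : tay C (f + g) = tay C f + tay C g := by
  ext a
  rw [map_add, coeff_tay, coeff_tay, coeff_tay, map_add, map_add, mul_add]

private theorem ev_smul (x : K) (g : K ⊗[k] K) : ev k K (x • g) = x * ev k K g := by
  induction g using TensorProduct.induction_on with
  | zero => simp
  | add a b ha hb => rw [smul_add, map_add, ha, hb, map_add, mul_add]
  | tmul y f => rw [TensorProduct.smul_tmul', ev_tmul, ev_tmul, smul_eq_mul, mul_assoc]

theorem tay_smul (C : Coord k K) (x : K) (g : K ⊗[k] K) : tay C (x • g) = x • tay C g := by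
  ext a
  rw [map_smul, coeff_tay, coeff_tay, map_smul, ev_smul, smul_eq_mul]
  ring

private theorem shift (a : Fin 3 →₀ ℕ) (i : Fin 3) (F : (Fin 3 →₀ ℕ) × (Fin 3 →₀ ℕ) → K) :
    ∑ p ∈ antidiagonal a, ((p.1 i : K) + 1) * F (p.1 + Finsupp.single i 1, p.2) =
      ∑ p ∈ (antidiagonal (a + Finsupp.single i 1) : Finset ((Fin 3 →₀ ℕ) × (Fin 3 →₀ ℕ))),
        (p.1 i : K) * F p := by
  refine Finset.sum_of_injOn (fun p => (p.1 + Finsupp.single i 1, p.2)) ?_ ?_ ?_ ?_
  · intro p _ q _ h
    have h1 := congrArg Prod.fst h
    have h2 := congrArg Prod.snd h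
    exact Prod.ext (add_right_cancel h1) h2
  · intro p hp
    have h1 := mem_antidiagonal.1 (Finset.mem_coe.1 hp)
    refine Finset.mem_coe.2 (mem_antidiagonal.2 ?_)
    show p.1 + Finsupp.single i 1 + p.2 = _
    rw [← h1]
    abel
  · intro p hp hn
    have h1 := mem_antidiagonal.1 hp
    by_cases h0 : p.1 i = 0
    · rw [h0]
      simp
    · exfalso
      apply hn
      have h2 : p.1 - Finsupp.single i 1 + Finsupp.single i 1 = p.1 := by
        ext j
        rw [Finsupp.add_apply, Finsupp.tsub_apply]
        by_cases hj : i = j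
        · subst hj
          rw [Finsupp.single_eq_same]
          omega
        · rw [Finsupp.single_apply, if_neg hj]
          omega
      refine ⟨(p.1 - Finsupp.single i 1, p.2), ?_, ?_⟩
      · refine Finset.mem_coe.2 (mem_antidiagonal.2 ?_)
        show p.1 - Finsupp.single i 1 + p.2 = a
        apply add_right_cancel (b := Finsupp.single i 1)
        rw [← h1]
        calc p.1 - Finsupp.single i 1 + p.2 + Finsupp.single i 1
            = (p.1 - Finsupp.single i 1 + Finsupp.single i 1) + p.2 := by
              rw [add_assoc, add_comm p.2, ← add_assoc]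
          _ = p.1 + p.2 := by rw [h2]
      · exact Prod.ext h2 rfl
  · intro p _
    simp [Finsupp.add_apply]

private theorem shift2 (a : Fin 3 →₀ ℕ) (i : Fin 3) (F : (Fin 3 →₀ ℕ) × (Fin 3 →₀ ℕ) → K) :
    ∑ p ∈ antidiagonal a, ((p.2 i : K) + 1) * F (p.1, p.2 + Finsupp.single i 1) =
      ∑ p ∈ (antidiagonal (a + Finsupp.single i 1) : Finset ((Fin 3 →₀ ℕ) × (Fin 3 →₀ ℕ))),
        (p.2 i : K) * F p := by
  have h := shift a i (fun p => F p.swap)
  have h1 : ∀ b : Fin 3 →₀ ℕ, ∀ G : (Fin 3 →₀ ℕ) × (Fin 3 →₀ ℕ) → K,
      ∑ p ∈ antidiagonal b, G p = ∑ p ∈ antidiagonal b, G p.swap := by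
    intro b G
    exact Finsupp.sum_antidiagonal_swap b (fun x y => G (x, y))
  rw [h1 a, h1 (a + Finsupp.single i 1)]
  exact h

theorem tay_mul (C : Coord k K) (f g : K ⊗[k] K) : tay C (f * g) = tay C f * tay C g := by
  have : CharZero K := charZero_of_injective_algebraMap (algebraMap k K).injective
  have key : ∀ n : ℕ, ∀ a : Fin 3 →₀ ℕ, a.degree = n → ∀ f g : K ⊗[k] K,
      MvPowerSeries.coeff a (tay C (f * g)) = MvPowerSeries.coeff a (tay C f * tay C g) := by
    intro n
    induction n with
    | zero =>
      intro a ha f g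
      have h0 : a = 0 := by
        rwa [Finsupp.degree_eq_zero_iff] at ha
      subst h0
      rw [MvPowerSeries.coeff_mul]
      simp only [Finsupp.antidiagonal_zero, Finset.sum_singleton]
      simp only [coeff_tay]
      have h1 : ∀ q : K ⊗[k] K, Dp C 0 q = q := fun q => rfl
      have h2 : fac3 0 = 1 := rfl
      rw [h1, h1, h1, h2, map_mul]
      simp
    | succ n ih =>
      intro a ha f g
      obtain ⟨i, hi⟩ : ∃ i, a i ≠ 0 := by
        by_contra hcon
        have h1 : a = 0 := by
          ext i
          by_contra h2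
          exact hcon ⟨i, h2⟩
        rw [h1] at ha
        simp at ha
      obtain ⟨b, rfl⟩ : ∃ b, a = b + Finsupp.single i 1 := by
        refine ⟨a - Finsupp.single i 1, ?_⟩
        ext j
        rw [Finsupp.add_apply, Finsupp.tsub_apply]
        by_cases hj : i = j
        · subst hj
          rw [Finsupp.single_eq_same]
          omega
        · rw [Finsupp.single_apply, if_neg hj]
          omega
      have hb : b.degree = n := by
        rw [map_add] at ha
        simp only [Finsupp.degree_single] at ha
        omega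
      have h1 : ((b i : K) + 1) ≠ 0 := by exact_mod_cast Nat.succ_ne_zero (b i)
      apply mul_left_cancel₀ h1
      rw [← coeff_dK]
      have h2 : dK K (C.d i) (f * g) = f * dK K (C.d i) g + g * dK K (C.d i) f := by
        rw [Derivation.leibniz]
        rfl
      rw [h2, tay_add, map_add, ih b hb, ih b hb]
      rw [MvPowerSeries.coeff_mul, MvPowerSeries.coeff_mul, MvPowerSeries.coeff_mul]
      simp only [coeff_dK]
      have h3 := shift2 b i (fun p => MvPowerSeries.coeff p.1 (tay C f) *
        MvPowerSeries.coeff p.2 (tay C g))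
      have h4 := shift b i (fun p => MvPowerSeries.coeff p.1 (tay C f) *
        MvPowerSeries.coeff p.2 (tay C g))
      have h5 : ∑ p ∈ antidiagonal b, MvPowerSeries.coeff p.1 (tay C g) *
          (((p.2 i : K) + 1) * MvPowerSeries.coeff (p.2 + Finsupp.single i 1) (tay C f)) =
          ∑ p ∈ antidiagonal b, ((p.1 i : K) + 1) *
            (MvPowerSeries.coeff (p.1 + Finsupp.single i 1) (tay C f) *
              MvPowerSeries.coeff p.2 (tay C g)) := by
        rw [Finsupp.sum_antidiagonal_swap b (fun x y => MvPowerSeries.coeff x (tay C g) *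
          (((y i : K) + 1) * MvPowerSeries.coeff (y + Finsupp.single i 1) (tay C f)))]
        refine Finset.sum_congr rfl fun p _ => ?_
        ring
      have h6 : ∑ p ∈ antidiagonal b, MvPowerSeries.coeff p.1 (tay C f) *
          (((p.2 i : K) + 1) * MvPowerSeries.coeff (p.2 + Finsupp.single i 1) (tay C g)) =
          ∑ p ∈ antidiagonal b, ((p.2 i : K) + 1) *
            (MvPowerSeries.coeff p.1 (tay C f) *
              MvPowerSeries.coeff (p.2 + Finsupp.single i 1) (tay C g)) := by
        refine Finset.sum_congr rfl fun p _ => ?_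
        ring
      rw [h5, h6]
      simp only at h3 h4
      rw [h3, h4, ← Finset.sum_add_distrib, Finset.mul_sum]
      refine Finset.sum_congr rfl fun p hp => ?_
      have h7 := mem_antidiagonal.1 hp
      have h8 : p.1 i + p.2 i = b i + 1 := by
        have := congrArg (fun q : Fin 3 →₀ ℕ => q i) h7
        simpa using this
      have h9 : (p.1 i : K) + p.2 i = b i + 1 := by exact_mod_cast h8
      rw [← add_mul, add_comm ((p.2 i : ℕ) : K), h9]
  ext a
  exact key _ a rfl f g

private theorem Dp_one (C : Coord k K) {a : Fin 3 →₀ ℕ} (ha : a ≠ 0) : Dp C a 1 = 0 := by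
  obtain ⟨i, hi⟩ : ∃ i, a i ≠ 0 := by
    by_contra hcon
    apply ha
    ext i
    by_contra h2
    exact hcon ⟨i, h2⟩
  obtain ⟨b, rfl⟩ : ∃ b, a = b + Finsupp.single i 1 := by
    refine ⟨a - Finsupp.single i 1, ?_⟩
    ext j
    rw [Finsupp.add_apply, Finsupp.tsub_apply]
    by_cases hj : i = j
    · subst hj
      rw [Finsupp.single_eq_same]
      omega
    · rw [Finsupp.single_apply, if_neg hj]
      omega
  rw [Dp_dK, Derivation.map_one_eq_zero, map_zero]

theorem tay_one (C : Coord k K) : tay C 1 = 1 := by
  ext a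
  rw [coeff_tay, MvPowerSeries.coeff_one]
  split_ifs with h
  · subst h
    have h1 : Dp C 0 (1 : K ⊗[k] K) = 1 := rfl
    have h2 : fac3 0 = 1 := rfl
    rw [h1, h2, map_one]
    simp
  · rw [Dp_one C h, map_zero, mul_zero]

theorem tay_var (C : Coord k K) (i : Fin 3) :
    tay C ((1 : K) ⊗ₜ[k] C.c i - C.c i ⊗ₜ[k] (1 : K)) = MvPowerSeries.X i := by
  have : CharZero K := charZero_of_injective_algebraMap (algebraMap k K).injective
  ext a
  rw [MvPowerSeries.coeff_X]
  by_cases h0 : a = 0
  · subst h0
    have h1 : ∀ q : K ⊗[k] K, Dp C 0 q = q := fun q => rfl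
    rw [coeff_tay, h1, map_sub, ev_tmul, ev_tmul]
    rw [if_neg]
    · simp
    · intro h
      have := congrArg (fun q : Fin 3 →₀ ℕ => q i) h
      simp at this
  · obtain ⟨j, hj⟩ : ∃ j, a j ≠ 0 := by
      by_contra hcon
      apply h0
      ext i
      by_contra h2
      exact hcon ⟨i, h2⟩
    obtain ⟨b, rfl⟩ : ∃ b, a = b + Finsupp.single j 1 := by
      refine ⟨a - Finsupp.single j 1, ?_⟩
      ext l
      rw [Finsupp.add_apply, Finsupp.tsub_apply]
      by_cases hl : j = l
      · subst hl
        rw [Finsupp.single_eq_same]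
        omega
      · rw [Finsupp.single_apply, if_neg hl]
        omega
    have h1 : ((b j : K) + 1) ≠ 0 := by exact_mod_cast Nat.succ_ne_zero (b j)
    have h2 : dK K (C.d j) ((1 : K) ⊗ₜ[k] C.c i - C.c i ⊗ₜ[k] (1 : K)) =
        if j = i then 1 else 0 := by
      rw [map_sub, dK_tmul, dK_tmul, C.dual]
      split_ifs
      · rw [Derivation.map_one_eq_zero, TensorProduct.tmul_zero, sub_zero]
        rfl
      · rw [Derivation.map_one_eq_zero, TensorProduct.tmul_zero, TensorProduct.tmul_zero, sub_zero]
    apply mul_left_cancel₀ h1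
    rw [← coeff_dK, h2]
    by_cases hji : j = i
    · subst hji
      rw [if_pos rfl, tay_one, MvPowerSeries.coeff_one]
      by_cases hb : b = 0
      · subst hb
        simp
      · rw [if_neg hb, if_neg]
        · simp
        · intro h
          apply hb
          have h3 : b + Finsupp.single j 1 = 0 + Finsupp.single j 1 := by rw [zero_add, h]
          exact add_right_cancel h3
    · rw [if_neg hji, if_neg]
      · have h3 : tay C (0 : K ⊗[k] K) = 0 := by
          ext q
          rw [coeff_tay, map_zero, map_zero, mul_zero, map_zero]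
        rw [h3, map_zero, mul_zero]
      · intro h
        have h3 := congrArg (fun q : Fin 3 →₀ ℕ => q j) h
        simp only [Finsupp.add_apply, Finsupp.single_eq_same] at h3
        rw [Finsupp.single_apply, if_neg (fun h => hji h.symm)] at h3
        omega

end Pool.Agent.H24.TU
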