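/-
MP_e49dc9_ag, THEOREM U, module TU/TayOrd: orders and injectivity of the Taylor map.

STATEMENT 1 (ordGE_iff): OrdGE (dI k K) m g iff all coefficients of tay C g of degree < m vanish.
PROOF. Induction on m. Every delta in Der_k(K) is sum_i delta(c_i) d_i (derivation_eq_zero,
TU/DerEx), so dK delta g = sum_i (1 (x) delta(c_i)) * dK d_i g. Direction ->: use the words in the
d_i: coefficient a is a nonzero multiple of ev (D^a g), D^a g is a word of length |a| < m.
Direction <-: by coeff_dK (TU/TayRing) the coefficients of tay (dK d_i g) of degree < m - 1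
vanish, so OrdGE (m-1) (dK d_i g) by induction, hence OrdGE (m-1) (dK delta g) by OrdGE_mul_left,
OrdGE_add (TU/OrdB); and g in dI is the coefficient at 0.
STATEMENT 2 (tay_dX): coeff a (tay (dX d_i g)) = d_i (coeff a (tay g)) - (a_i + 1) coeff (a + e_i)
(tay g). PROOF. Both sides are additive in g; for g = x (x) f: ev (D^a g) = x d^a f.
STATEMENT 3 (tay_inj). PROOF (minimal relation). Suppose tay g = 0, g <> 0. Write
g = sum_(i < r) x_i (x) f_i with r minimal; then the f_i are k-linearly independent and all
x_i <> 0 (for general g with tay g = 0: choose among all nonzero g with tay g = 0 one with r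
minimal). tay g = 0 is stable under multiplication with elements x (x) 1 (tay_smul) and under
dX theta (STATEMENT 2), so we may assume x_0 = 1. Then dX d_j g = sum_(i >= 1) d_j(x_i) (x) f_i is
again in the kernel and shorter, so it is 0, so d_j (x_i) = 0 for all i, j (independence of
the f_i). Hence every x_i is a constant of all d_j; derivation_eq_zero-type argument: an element
x with d_j x = 0 for all j is algebraic over k: otherwise x is part of a transcendence basis
and there is a derivation with delta x = 1 (exists_derivation), but delta = sum delta(c_j) d_j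
kills x. k is algebraically closed, so x_i in k, so g = 1 (x) (sum x_i f_i), and tay g = 0 gives
ev g = sum x_i f_i = 0, so g = 0: contradiction.
-/
import Pool.Agent.H24.TU.TayRing
import Pool.Agent.H24.TU.OrdB

open scoped TensorProduct

namespace Pool.Agent.H24.TU

universe u

variable {k K : Type u} [Field k] [CharZero k] [Field K] [Algebra k K]

private theorem split_single {a : Fin 3 →₀ ℕ} (ha : a ≠ 0) :
    ∃ (b : Fin 3 →₀ ℕ) (i : Fin 3), a = b + Finsupp.single i 1 := by
  obtain ⟨i, hi⟩ : ∃ i, a i ≠ 0 := by
    by_contra hcon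
    apply ha
    ext i
    by_contra h2
    exact hcon ⟨i, h2⟩
  refine ⟨a - Finsupp.single i 1, i, ?_⟩
  ext j
  rw [Finsupp.add_apply, Finsupp.tsub_apply]
  by_cases hj : i = j
  · subst hj
    rw [Finsupp.single_eq_same]
    omega
  · rw [Finsupp.single_apply, if_neg hj]
    omega

private theorem deg_add (b : Fin 3 →₀ ℕ) (i : Fin 3) :
    (b + Finsupp.single i 1).degree = b.degree + 1 := by
  rw [map_add]
  simp only [Finsupp.degree_single]

private theorem coeff_zero_ev (C : Coord k K) (g : K ⊗[k] K) :
    MvPowerSeries.coeff 0 (tay C g) = ev k K g := by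
  have h1 : ∀ q : K ⊗[k] K, Dp C 0 q = q := fun q => rfl
  have h2 : fac3 0 = 1 := rfl
  rw [coeff_tay, h1, h2]
  simp

/-- Every derivation is a combination of the coordinate derivations. -/
private theorem der_eq (C : Coord k K) (δ : Derivation k K K) (f : K) :
    δ f = ∑ i, δ (C.c i) * C.d i f := by
  have h : δ - ((δ (C.c 0)) • C.d 0 + (δ (C.c 1)) • C.d 1 + (δ (C.c 2)) • C.d 2) = 0 := by
    refine derivation_eq_zero C.basis _ fun l => ?_
    simp only [Derivation.sub_apply, Derivation.add_apply, Derivation.smul_apply, C.dual,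
      smul_eq_mul]
    fin_cases l <;> simp
  have h1 := congrArg (fun D : Derivation k K K => D f) h
  simp only [Derivation.sub_apply, Derivation.add_apply, Derivation.smul_apply,
    smul_eq_mul, Derivation.coe_zero, Pi.zero_apply] at h1
  rw [Fin.sum_univ_three]
  exact sub_eq_zero.1 h1

private theorem dK_eq (C : Coord k K) (δ : Derivation k K K) (g : K ⊗[k] K) :
    dK K δ g = ∑ i, ((1 : K) ⊗ₜ[k] δ (C.c i)) * dK K (C.d i) g := by
  induction g using TensorProduct.induction_on with
  | zero => simp
  | add a b ha hb =>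
    simp only [map_add, ha, hb, mul_add, Finset.sum_add_distrib]
  | tmul x f =>
    rw [dK_tmul, der_eq C δ f, TensorProduct.tmul_sum]
    refine Finset.sum_congr rfl fun i _ => ?_
    rw [dK_tmul, Algebra.TensorProduct.tmul_mul_tmul, one_mul]

private theorem OrdGE_sum {Q : Ideal (K ⊗[k] K)} {m : ℕ} (s : Finset (Fin 3))
    (F : Fin 3 → K ⊗[k] K) (h : ∀ i ∈ s, OrdGE Q m (F i)) : OrdGE Q m (∑ i ∈ s, F i) := by
  induction s using Finset.induction_on with
  | empty =>
    rw [Finset.sum_empty]
    exact OrdGE_zero m
  | insert i s hi ih =>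
    rw [Finset.sum_insert hi]
    exact OrdGE_add (h i (Finset.mem_insert_self _ _))
      (ih fun j hj => h j (Finset.mem_insert_of_mem hj))

theorem ordGE_iff (C : Coord k K) (m : ℕ) (g : K ⊗[k] K) :
    OrdGE (dI k K) m g ↔
      ∀ a : Fin 3 →₀ ℕ, a.degree < m → MvPowerSeries.coeff a (tay C g) = 0 := by
  have : CharZero K := charZero_of_injective_algebraMap (algebraMap k K).injective
  induction m generalizing g with
  | zero =>
    constructor
    · intro _ a ha
      omega
    · intro _
      trivial
  | succ m ih =>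
    constructor
    · intro h a ha
      by_cases h0 : a = 0
      · subst h0
        rw [coeff_zero_ev]
        exact mem_dI.1 h.1
      · obtain ⟨b, i, rfl⟩ := split_single h0
        have h1 : ((b i : K) + 1) ≠ 0 := by exact_mod_cast Nat.succ_ne_zero (b i)
        have h2 := (ih (dK K (C.d i) g)).1 (h.2 (C.d i)) b (by rw [deg_add] at ha; omega)
        rw [coeff_dK] at h2
        exact (mul_eq_zero.1 h2).resolve_left h1
    · intro h
      refine ⟨?_, fun δ => ?_⟩
      · rw [mem_dI, ← coeff_zero_ev C]
        exact h 0 (by simp)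
      · rw [dK_eq C δ g]
        refine OrdGE_sum _ _ fun i _ => OrdGE_mul_left _ ?_
        refine (ih _).2 ?_
        intro a ha
        rw [coeff_dK, h _ (by rw [deg_add]; omega), mul_zero]

private theorem Dp_tmul (C : Coord k K) (i : Fin 3) : ∀ n : ℕ, ∀ a : Fin 3 →₀ ℕ, a.degree = n →
    ∀ x f : K, ∃ h : K, Dp C a (x ⊗ₜ[k] f) = x ⊗ₜ[k] h ∧
      Dp C a (x ⊗ₜ[k] C.d i f) = x ⊗ₜ[k] C.d i h := by
  intro n
  induction n with
  | zero =>
    intro a ha x f
    have h0 : a = 0 := by
      rwa [Finsupp.degree_eq_zero_iff] at ha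
    subst h0
    exact ⟨f, rfl, rfl⟩
  | succ n ih =>
    intro a ha x f
    have h0 : a ≠ 0 := by
      intro h0
      rw [h0] at ha
      simp at ha
    obtain ⟨b, j, rfl⟩ := split_single h0
    have hb : b.degree = n := by
      rw [deg_add] at ha
      omega
    obtain ⟨h, h1, h2⟩ := ih b hb x (C.d j f)
    refine ⟨h, ?_, ?_⟩
    · rw [Dp_dK, dK_tmul, h1]
    · rw [Dp_dK, dK_tmul, coord_comm, h2]

private theorem d_nat (C : Coord k K) (i : Fin 3) (n : ℕ) (y : K) :
    C.d i ((n : K)⁻¹ * y) = (n : K)⁻¹ * C.d i y := by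
  have h1 : ((n : K)⁻¹) = algebraMap k K ((n : k)⁻¹) := by
    rw [map_inv₀, map_natCast]
  rw [h1, ← Algebra.smul_def, Derivation.map_smul, Algebra.smul_def]

theorem tay_dX (C : Coord k K) (a : Fin 3 →₀ ℕ) (i : Fin 3) (g : K ⊗[k] K) :
    MvPowerSeries.coeff a (tay C (dX K (C.d i) g)) =
      C.d i (MvPowerSeries.coeff a (tay C g)) -
        ((a i : K) + 1) * MvPowerSeries.coeff (a + Finsupp.single i 1) (tay C g) := by
  rw [← coeff_dK]
  induction g using TensorProduct.induction_on with
  | zero =>
    simp only [map_zero]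
    have h3 : tay C (0 : K ⊗[k] K) = 0 := by
      ext q
      rw [coeff_tay, map_zero, map_zero, mul_zero, map_zero]
    rw [h3]
    simp
  | add a b ha hb =>
    simp only [map_add, tay_add, ha, hb]
    ring
  | tmul x f =>
    obtain ⟨h, h1, h2⟩ := Dp_tmul C i _ a rfl x f
    obtain ⟨h', h1', h2'⟩ := Dp_tmul C i _ a rfl (C.d i x) f
    obtain ⟨h'', h1'', h2''⟩ := Dp_tmul C i _ a rfl 1 f
    have e1 : ∀ y : K, ∀ f : K, y ⊗ₜ[k] f = y • ((1 : K) ⊗ₜ[k] f) := by
      intro y f
      rw [TensorProduct.smul_tmul', smul_eq_mul, mul_one]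
    have e2 : Dp C a (x ⊗ₜ[k] f) = x ⊗ₜ[k] h'' := by
      rw [e1 x f, map_smul, h1'', ← e1]
    have e3 : Dp C a ((C.d i x) ⊗ₜ[k] f) = (C.d i x) ⊗ₜ[k] h'' := by
      rw [e1 (C.d i x) f, map_smul, h1'', ← e1]
    have e4 : Dp C a (x ⊗ₜ[k] C.d i f) = x ⊗ₜ[k] C.d i h'' := by
      rw [e1 x (C.d i f), map_smul, h2'', ← e1]
    rw [dX_tmul, dK_tmul, coeff_tay, coeff_tay, coeff_tay, e2, e3, e4, ev_tmul, ev_tmul, ev_tmul,
      d_nat, Derivation.leibniz, smul_eq_mul, smul_eq_mul]
    ring

private theorem const_of (C : Coord k K) [IsAlgClosed k] {x : K} (hx : ∀ j, C.d j x = 0) :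
    ∃ r : k, algebraMap k K r = x := by
  have hall : ∀ δ : Derivation k K K, δ x = 0 := by
    intro δ
    rw [der_eq C δ x]
    exact Finset.sum_eq_zero fun i _ => by rw [hx, mul_zero]
  have halg : IsAlgebraic k x := by
    by_contra hcon
    have h1 : AlgebraicIndepOn k id ({x} : Set K) := by
      show AlgebraicIndependent k (fun y : ({x} : Set K) => (y : K))
      rw [algebraicIndependent_unique_type_iff]
      exact hcon
    obtain ⟨t, ht1, ht2⟩ := exists_isTranscendenceBasis_superset h1
    obtain ⟨D, hD⟩ := exists_derivation (M := K) ht2 (fun _ => (1 : K))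
    have h2 := hD ⟨x, ht1 rfl⟩
    have h3 : D x = 1 := h2
    rw [hall D] at h3
    exact zero_ne_one h3
  have h4 := minpoly.mem_range_of_degree_eq_one k x
    (IsAlgClosed.degree_eq_one_of_irreducible k (minpoly.irreducible halg.isIntegral))
  exact h4

theorem tay_inj [IsAlgClosed k] (C : Coord k K) {g : K ⊗[k] K} (h : tay C g = 0) : g = 0 := by
  classical
  set b := Module.Basis.ofVectorSpace k K with hb
  set B := Algebra.TensorProduct.basis K b with hB
  have hrepr : ∀ (i : Fin 3) (g : K ⊗[k] K) (α), B.repr (dX K (C.d i) g) α =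
      C.d i (B.repr g α) := by
    intro i g α
    induction g using TensorProduct.induction_on with
    | zero => simp
    | add u v hu hv => simp only [map_add, Finsupp.add_apply, hu, hv]
    | tmul x f =>
      rw [dX_tmul, hB, Algebra.TensorProduct.basis_repr_tmul,
        Algebra.TensorProduct.basis_repr_tmul, Finsupp.smul_apply, Finsupp.smul_apply,
        Finsupp.mapRange_apply, smul_eq_mul, smul_eq_mul, Derivation.leibniz,
        Derivation.map_algebraMap, smul_zero, zero_add, smul_eq_mul, mul_comm]
  have key : ∀ n : ℕ, ∀ g : K ⊗[k] K, tay C g = 0 → (B.repr g).support.card = n → g = 0 := by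
    intro n
    induction n using Nat.strong_induction_on with
    | _ n ih =>
      intro g hg hn
      by_contra hg0
      have h1 : B.repr g ≠ 0 := by
        intro h0
        exact hg0 ((LinearEquiv.map_eq_zero_iff B.repr).1 h0)
      obtain ⟨α0, hα0⟩ := Finsupp.support_nonempty_iff.2 h1
      have hc : B.repr g α0 ≠ 0 := Finsupp.mem_support_iff.1 hα0
      set g' := (B.repr g α0)⁻¹ • g with hg'
      have hg'0 : tay C g' = 0 := by rw [hg', tay_smul, hg, smul_zero]
      have hr' : ∀ α, B.repr g' α = (B.repr g α0)⁻¹ * B.repr g α := by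
        intro α
        rw [hg', map_smul, Finsupp.smul_apply, smul_eq_mul]
      have hd : ∀ i, dX K (C.d i) g' = 0 := by
        intro i
        have h2 : tay C (dX K (C.d i) g') = 0 := by
          ext a
          rw [tay_dX, hg'0]
          simp
        have h3 : (B.repr (dX K (C.d i) g')).support ⊂ (B.repr g).support := by
          rw [Finset.ssubset_iff_of_subset]
          · refine ⟨α0, hα0, ?_⟩
            rw [Finsupp.notMem_support_iff, hrepr, hr', inv_mul_cancel₀ hc,
              Derivation.map_one_eq_zero]
          · intro α hα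
            rw [Finsupp.mem_support_iff] at hα ⊢
            intro h4
            apply hα
            rw [hrepr, hr', h4, mul_zero, map_zero]
        exact ih _ (by rw [← hn]; exact Finset.card_lt_card h3) _ h2 rfl
      have hconst : ∀ α, ∃ r : k, algebraMap k K r = B.repr g' α := by
        intro α
        refine const_of C fun j => ?_
        rw [← hrepr, hd, map_zero, Finsupp.zero_apply]
      choose r hr using hconst
      have hsum : g' = (1 : K) ⊗ₜ[k] (∑ α ∈ (B.repr g').support, r α • b α) := by
        have h5 := B.linearCombination_repr g'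
        rw [Finsupp.linearCombination_apply, Finsupp.sum] at h5
        rw [TensorProduct.tmul_sum]
        conv_lhs => rw [← h5]
        refine Finset.sum_congr rfl fun α _ => ?_
        rw [← hr α, hB, Algebra.TensorProduct.basis_apply, TensorProduct.smul_tmul', smul_eq_mul,
          mul_one, TensorProduct.tmul_smul, TensorProduct.smul_tmul', Algebra.smul_def, mul_one]
      have h6 : ev k K g' = 0 := by
        rw [← coeff_zero_ev C, hg'0, map_zero]
      have h7 : g' = 0 := by
        rw [hsum, ev_tmul, one_mul] at h6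
        rw [hsum, h6, TensorProduct.tmul_zero]
      rw [hg'] at h7
      exact hg0 ((smul_eq_zero.1 h7).resolve_left (inv_ne_zero hc))
  exact key _ g h rfl

end Pool.Agent.H24.TU
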