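/-
MP_e49dc9_ag, THEOREM U, module TU/Nu: leading exponents.

nu C f (TU/TayDef) is the least exponent (DegLex order: total degree first) with nonzero
coefficient in tay C f; tay C f <> 0 for f <> 0 (tay_inj, TU/TayOrd).
STATEMENT 1: coefficient at nu C f is nonzero. STATEMENT 2: coefficients at smaller exponents
vanish. (WellFounded.min_mem, WellFounded.not_lt_min.)
STATEMENT 3: nu (f g) = nu f + nu g: the coefficient of tay f * tay g at nu f + nu g is the product
of the two leading coefficients (for b + c = nu f + nu g with (b, c) <> (nu f, nu g) either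
b < nu f or c < nu g in the ordered cancellative monoid DegLex), and at smaller exponents it is 0.
STATEMENT 4: if coeff b (tay C f) = coeff b (X^a) for all b of degree < m, and degree a < m, then
f <> 0 and nu C f = a.
STATEMENT 5: V a finite dimensional K-subspace of K (x) K: the set of leading exponents of its
nonzero elements is finite with finrank V elements.
PROOF. Elements f_1, .., f_r of V with different leading exponents are linearly independent (look
at the coefficient at the smallest nu(f_i) among those i with nonzero coefficient), so every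
finite set of leading exponents has at most finrank V elements, so the set E is finite and
ncard E <= finrank V. Conversely V -> (E -> K), f -> (coeff a (tay C f))_(a in E), is K-linear
(tay_add, tay_smul) and injective by STATEMENT 1.
-/
import Pool.Agent.H24.TU.TayOrd

open scoped TensorProduct

namespace Pool.Agent.H24.TU

universe u

variable {k K : Type u} [Field k] [CharZero k] [IsAlgClosed k] [Field K] [Algebra k K]

private theorem nuU_zero (C : Coord k K) : tay C (0 : K ⊗[k] K) = 0 := by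
  have h := tay_smul C (0 : K) (0 : K ⊗[k] K)
  rw [zero_smul, zero_smul] at h
  exact h

private theorem nuU_ne (C : Coord k K) {f : K ⊗[k] K} {a : Fin 3 →₀ ℕ}
    (h : MvPowerSeries.coeff a (tay C f) ≠ 0) : f ≠ 0 := by
  intro hf
  rw [hf, nuU_zero, map_zero] at h
  exact h rfl

theorem coeff_nu_ne (C : Coord k K) {f : K ⊗[k] K} (hf : f ≠ 0) :
    MvPowerSeries.coeff (nu C f) (tay C f) ≠ 0 := by
  have h : {a : DegLex (Fin 3 →₀ ℕ) |
      MvPowerSeries.coeff (ofDegLex a) (tay C f) ≠ 0}.Nonempty := by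
    by_contra hne
    rw [Set.not_nonempty_iff_eq_empty] at hne
    apply hf
    apply tay_inj C
    apply MvPowerSeries.ext
    intro a
    rw [map_zero]
    by_contra ha
    have : toDegLex a ∈ {a : DegLex (Fin 3 →₀ ℕ) |
      MvPowerSeries.coeff (ofDegLex a) (tay C f) ≠ 0} := ha
    rw [hne] at this
    exact this
  unfold nu
  rw [dif_pos h]
  exact WellFounded.min_mem (wellFounded_lt (α := DegLex (Fin 3 →₀ ℕ))) _ h

theorem coeff_of_lt_nu (C : Coord k K) {f : K ⊗[k] K} {b : Fin 3 →₀ ℕ}
    (hb : toDegLex b < toDegLex (nu C f)) : MvPowerSeries.coeff b (tay C f) = 0 := by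
  by_contra hne
  have hm : toDegLex b ∈ {a : DegLex (Fin 3 →₀ ℕ) |
      MvPowerSeries.coeff (ofDegLex a) (tay C f) ≠ 0} := hne
  have h : {a : DegLex (Fin 3 →₀ ℕ) |
      MvPowerSeries.coeff (ofDegLex a) (tay C f) ≠ 0}.Nonempty := ⟨_, hm⟩
  unfold nu at hb
  rw [dif_pos h, toDegLex_ofDegLex] at hb
  exact WellFounded.not_lt_min (wellFounded_lt (α := DegLex (Fin 3 →₀ ℕ))) _ hm hb

private theorem nuU_unique (C : Coord k K) {f : K ⊗[k] K} {a : Fin 3 →₀ ℕ}
    (h : MvPowerSeries.coeff a (tay C f) ≠ 0)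
    (h' : ∀ b : Fin 3 →₀ ℕ, toDegLex b < toDegLex a → MvPowerSeries.coeff b (tay C f) = 0) :
    nu C f = a := by
  have hf := nuU_ne C h
  rcases lt_trichotomy (toDegLex (nu C f)) (toDegLex a) with h1 | h1 | h1
  · exact absurd (h' _ h1) (coeff_nu_ne C hf)
  · exact toDegLex_injective h1
  · exact absurd (coeff_of_lt_nu C h1) h

theorem nu_mul (C : Coord k K) {f g : K ⊗[k] K} (hf : f ≠ 0) (hg : g ≠ 0) :
    f * g ≠ 0 ∧ nu C (f * g) = nu C f + nu C g := by
  have key : MvPowerSeries.coeff (nu C f + nu C g) (tay C (f * g)) =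
      MvPowerSeries.coeff (nu C f) (tay C f) * MvPowerSeries.coeff (nu C g) (tay C g) := by
    rw [tay_mul, MvPowerSeries.coeff_mul]
    rw [Finset.sum_eq_single (nu C f, nu C g)]
    · rintro ⟨b, c⟩ hbc hne
      rw [Finset.HasAntidiagonal.mem_antidiagonal] at hbc
      dsimp only at hbc ⊢
      by_cases h1 : toDegLex b < toDegLex (nu C f)
      · rw [coeff_of_lt_nu C h1, zero_mul]
      · by_cases h2 : toDegLex c < toDegLex (nu C g)
        · rw [coeff_of_lt_nu C h2, mul_zero]
        · exfalso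
          have e : toDegLex (nu C f) + toDegLex (nu C g) = toDegLex b + toDegLex c := by
            rw [← toDegLex_add, ← toDegLex_add, hbc]
          have e2 := (add_eq_add_iff_eq_and_eq (not_lt.1 h1) (not_lt.1 h2)).1 e
          apply hne
          rw [Prod.mk.injEq]
          exact ⟨(toDegLex_injective e2.1).symm, (toDegLex_injective e2.2).symm⟩
    · intro h
      exfalso
      apply h
      rw [Finset.HasAntidiagonal.mem_antidiagonal]
  have hne : MvPowerSeries.coeff (nu C f + nu C g) (tay C (f * g)) ≠ 0 := by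
    rw [key]
    exact mul_ne_zero (coeff_nu_ne C hf) (coeff_nu_ne C hg)
  refine ⟨nuU_ne C hne, nuU_unique C hne ?_⟩
  intro b hb
  rw [tay_mul, MvPowerSeries.coeff_mul]
  apply Finset.sum_eq_zero
  rintro ⟨x, y⟩ hxy
  rw [Finset.HasAntidiagonal.mem_antidiagonal] at hxy
  dsimp only at hxy ⊢
  by_cases h1 : toDegLex x < toDegLex (nu C f)
  · rw [coeff_of_lt_nu C h1, zero_mul]
  · by_cases h2 : toDegLex y < toDegLex (nu C g)
    · rw [coeff_of_lt_nu C h2, mul_zero]
    · exfalso
      have e := add_le_add (not_lt.1 h1) (not_lt.1 h2)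
      rw [← toDegLex_add, ← toDegLex_add, hxy] at e
      exact absurd hb (not_lt.2 e)

theorem nu_eq (C : Coord k K) {m : ℕ} {a : Fin 3 →₀ ℕ} (ha : a.degree < m) {f : K ⊗[k] K}
    (h : ∀ b : Fin 3 →₀ ℕ, b.degree < m →
      MvPowerSeries.coeff b (tay C f) = if b = a then 1 else 0) : f ≠ 0 ∧ nu C f = a := by
  have h1 : MvPowerSeries.coeff a (tay C f) ≠ 0 := by
    rw [h a ha, if_pos rfl]
    exact one_ne_zero
  refine ⟨nuU_ne C h1, nuU_unique C h1 ?_⟩
  intro b hb
  have hdeg : b.degree ≤ a.degree := by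
    rcases Finsupp.DegLex.lt_iff.1 hb with h2 | h2
    · exact le_of_lt h2
    · exact le_of_eq h2.1
  rw [h b (lt_of_le_of_lt hdeg ha), if_neg]
  intro hba
  rw [hba] at hb
  exact lt_irrefl _ hb

/-- the coefficient as a linear map -/
private noncomputable def nuUcf (C : Coord k K) (a : Fin 3 →₀ ℕ) : (K ⊗[k] K) →ₗ[K] K where
  toFun g := MvPowerSeries.coeff a (tay C g)
  map_add' x y := by rw [tay_add, map_add]
  map_smul' c x := by
    rw [tay_smul]
    simp

private theorem nuU_li (C : Coord k K) {ι : Type*} (v : ι → K ⊗[k] K) (hv : ∀ i, v i ≠ 0)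
    (hinj : Function.Injective fun i => nu C (v i)) : LinearIndependent K v := by
  classical
  rw [linearIndependent_iff']
  intro s g hg
  by_contra hne
  push Not at hne
  obtain ⟨i1, hi1, hgi1⟩ := hne
  have hs : (s.filter fun i => g i ≠ 0).Nonempty := ⟨i1, Finset.mem_filter.2 ⟨hi1, hgi1⟩⟩
  obtain ⟨i0, hi0, hmin⟩ := Finset.exists_min_image (s.filter fun i => g i ≠ 0)
    (fun i => toDegLex (nu C (v i))) hs
  rw [Finset.mem_filter] at hi0
  have h1 : nuUcf C (nu C (v i0)) (∑ i ∈ s, g i • v i) = 0 := by rw [hg, map_zero]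
  rw [map_sum, Finset.sum_eq_single i0] at h1
  · rw [map_smul, smul_eq_mul] at h1
    rcases mul_eq_zero.1 h1 with h2 | h2
    · exact hi0.2 h2
    · exact coeff_nu_ne C (hv i0) h2
  · intro i hi hne
    rw [map_smul, smul_eq_mul]
    by_cases hgi : g i = 0
    · rw [hgi, zero_mul]
    · have h3 := hmin i (Finset.mem_filter.2 ⟨hi, hgi⟩)
      have h4 : toDegLex (nu C (v i0)) < toDegLex (nu C (v i)) := by
        refine lt_of_le_of_ne h3 ?_
        intro e
        exact hne (hinj (toDegLex_injective e)).symm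
      have h5 : nuUcf C (nu C (v i0)) (v i) = 0 := coeff_of_lt_nu C h4
      rw [h5, mul_zero]
  · intro h
    exact absurd hi0.1 h

theorem ncard_nu (C : Coord k K) (V : Submodule K (K ⊗[k] K)) [Module.Finite K V] :
    {a : Fin 3 →₀ ℕ | ∃ f ∈ V, f ≠ 0 ∧ nu C f = a}.Finite ∧
      {a : Fin 3 →₀ ℕ | ∃ f ∈ V, f ≠ 0 ∧ nu C f = a}.ncard = Module.finrank K V := by
  obtain ⟨E, hE⟩ : ∃ E : Set (Fin 3 →₀ ℕ), E = {a : Fin 3 →₀ ℕ | ∃ f ∈ V, f ≠ 0 ∧ nu C f = a} := ⟨_, rfl⟩
  rw [← hE]
  have hch : ∀ e : E, ∃ f : V, (f : K ⊗[k] K) ≠ 0 ∧ nu C (f : K ⊗[k] K) = e.1 := by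
    rintro ⟨e, he⟩
    rw [hE] at he
    obtain ⟨f, hf, hf0, hfe⟩ := he
    exact ⟨⟨f, hf⟩, hf0, hfe⟩
  choose w hw0 hwe using hch
  have hli0 : LinearIndependent K (fun e : E => ((w e : V) : K ⊗[k] K)) := by
    apply nuU_li C _ hw0
    intro e e' h
    have h' : nu C ((w e : V) : K ⊗[k] K) = nu C ((w e' : V) : K ⊗[k] K) := h
    rw [hwe, hwe] at h'
    exact Subtype.ext h'
  have hli : LinearIndependent K w := by
    apply LinearIndependent.of_comp V.subtype
    exact hli0
  have hfin : Finite E := hli.finite_of_isNoetherian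
  have hEf : E.Finite := Set.toFinite E
  refine ⟨hEf, ?_⟩
  have : Fintype E := Fintype.ofFinite E
  apply le_antisymm
  · have h1 := hli.fintype_card_le_finrank
    rw [← Nat.card_coe_set_eq, Nat.card_eq_fintype_card]
    exact h1
  · have h2 : Module.finrank K V ≤ Module.finrank K (E → K) := by
      apply LinearMap.finrank_le_finrank_of_injective
        (f := (LinearMap.pi fun e : E => (nuUcf C e.1).comp V.subtype))
      rw [← LinearMap.ker_eq_bot, LinearMap.ker_eq_bot']
      intro f hf
      by_contra hf0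
      have hf0' : (f : K ⊗[k] K) ≠ 0 := fun h => hf0 (Subtype.ext h)
      have hmem : nu C (f : K ⊗[k] K) ∈ E := by
        rw [hE]
        exact ⟨f, f.2, hf0', rfl⟩
      have h3 := congrFun hf ⟨_, hmem⟩
      exact coeff_nu_ne C hf0' h3
    rw [Module.finrank_fintype_fun_eq_card] at h2
    rw [← Nat.card_coe_set_eq, Nat.card_eq_fintype_card]
    exact h2

end Pool.Agent.H24.TU
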