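/-
MP_e49dc9_ag, THEOREM U, module TU/Onto: M_c -> R_I / J R_I is onto.

R = K (x)_k K (noetherian: Algebra.EssFiniteType.baseChange and isNoetherianRing),
I = dI k K the diagonal ideal (R / I = K, a maximal ideal), J an ideal, J <= I, such that no
prime Q <> I has J <= Q <= I. Then there is c such that every y in R_I is congruent modulo J R_I
to an element of M_c = S.M K c.
PROOF. R_I := Localization.AtPrime I, noetherian local, maximal ideal mm = I R_I. The only prime
of R_I containing J R_I is mm (primes of R_I correspond to the primes of R inside I), so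
mm <= radical (J R_I), and mm^q <= J R_I for some q (mm is finitely generated).
I is generated by finitely many x_1, .., x_g in R. Every element of R is congruent to x (x) 1
modulo I for some x in K, and every s not in I has the form s = x (x) 1 + (element of I), x <> 0; so
every y in R_I has y - (x (x) 1) in mm for some x in K. By induction on i: every y in R_I is congruent
modulo mm^i to a K-linear combination of the monomials x^alpha, |alpha| < i (coefficients
x (x) 1). So for i = q: R_I = (K-span of the finite set T of monomials of degree < q) + J R_I.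
By denom (TU/OrdB) there are c and 0 <> s in L_c with (1 (x) s) t in M_c for t in T. 1 (x) s is a unit
of R (s is a unit of K). Given y, apply the above to (1 (x) s)^(-1) y: y is congruent to
sum x_t (1 (x) s) t in M_c.
-/
import Pool.Agent.H24.TU.OrdB

open scoped TensorProduct

namespace Pool.Agent.H24.TU

universe u

variable {k K : Type u} [Field k] [Field K] [Algebra k K]

private theorem onto_noeth (k K : Type u) [Field k] [Field K] [Algebra k K]
    [Algebra.EssFiniteType k K] : IsNoetherianRing (K ⊗[k] K) := by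
  have : Algebra.EssFiniteType K (K ⊗[k] K) := inferInstance
  exact Algebra.EssFiniteType.isNoetherianRing K (K ⊗[k] K)

/-- every element of the local ring is a constant modulo the maximal ideal -/
private theorem onto_const (y : Localization.AtPrime (dI k K)) :
    ∃ x : K, y - algebraMap (K ⊗[k] K) (Localization.AtPrime (dI k K)) (x ⊗ₜ[k] 1) ∈
      (dI k K).map (algebraMap (K ⊗[k] K) (Localization.AtPrime (dI k K))) := by
  obtain ⟨⟨r, s⟩, hrs⟩ := IsLocalization.surj (dI k K).primeCompl y
  simp only at hrs
  set a : K := pt (AlgHom.id k K) (AlgHom.id k K) r with ha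
  set b : K := pt (AlgHom.id k K) (AlgHom.id k K) (s : K ⊗[k] K) with hb
  have hb0 : b ≠ 0 := by
    intro h
    exact s.2 (mem_ptI.2 h)
  refine ⟨a / b, ?_⟩
  have hu := IsLocalization.map_units (Localization.AtPrime (dI k K)) s
  have h1 : (y - algebraMap (K ⊗[k] K) (Localization.AtPrime (dI k K)) ((a / b) ⊗ₜ[k] 1)) *
      algebraMap (K ⊗[k] K) (Localization.AtPrime (dI k K)) s ∈
      (dI k K).map (algebraMap (K ⊗[k] K) (Localization.AtPrime (dI k K))) := by
    rw [sub_mul, hrs, ← map_mul, ← map_sub]
    refine Ideal.mem_map_of_mem _ ?_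
    show _ ∈ ptI (AlgHom.id k K) (AlgHom.id k K)
    rw [mem_ptI, map_sub, map_mul, pt_tmul, ← ha, ← hb]
    simp only [AlgHom.coe_id, id_eq, mul_one]
    rw [div_mul_cancel₀ a hb0, sub_self]
  exact (Ideal.mul_unit_mem_iff_mem _ hu).1 h1

/-- the power of the maximal ideal is inside J -/
private theorem onto_pow [Algebra.EssFiniteType k K] (J : Ideal (K ⊗[k] K))
    (hmin : ∀ Q : Ideal (K ⊗[k] K), Q.IsPrime → J ≤ Q → Q ≤ dI k K → Q = dI k K) :
    ∃ q : ℕ, ((dI k K).map (algebraMap (K ⊗[k] K) (Localization.AtPrime (dI k K)))) ^ q ≤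
      J.map (algebraMap (K ⊗[k] K) (Localization.AtPrime (dI k K))) := by
  have hN : IsNoetherianRing (K ⊗[k] K) := onto_noeth k K
  have hN' : IsNoetherianRing (Localization.AtPrime (dI k K)) := inferInstance
  refine Ideal.exists_pow_le_of_le_radical_of_fg ?_ (IsNoetherian.noetherian _)
  rw [Ideal.radical_eq_sInf]
  refine le_sInf ?_
  rintro P ⟨hP, hPp⟩
  rw [Ideal.map_le_iff_le_comap] at hP ⊢
  have h1 : P.comap (algebraMap (K ⊗[k] K) (Localization.AtPrime (dI k K))) ≤ dI k K := by
    have h2 := IsLocalRing.le_maximalIdeal hPp.ne_top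
    intro z hz
    have h3 := h2 (Ideal.mem_comap.1 hz)
    by_contra hz'
    exact h3 (IsLocalization.map_units (Localization.AtPrime (dI k K))
      (⟨z, hz'⟩ : (dI k K).primeCompl))
  have h2 : (P.comap (algebraMap (K ⊗[k] K) (Localization.AtPrime (dI k K)))).IsPrime :=
    Ideal.comap_isPrime _ _
  rw [hmin _ h2 hP h1]

/-- the spans -/
private theorem onto_span [Algebra.EssFiniteType k K] (i : ℕ) :
    ∃ T : Finset (K ⊗[k] K), ∀ y : Localization.AtPrime (dI k K),
      ∃ z ∈ Submodule.span K (T : Set (K ⊗[k] K)),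
        y - algebraMap (K ⊗[k] K) (Localization.AtPrime (dI k K)) z ∈
          ((dI k K).map (algebraMap (K ⊗[k] K) (Localization.AtPrime (dI k K)))) ^ i := by
  classical
  have hN : IsNoetherianRing (K ⊗[k] K) := onto_noeth k K
  obtain ⟨G, hG⟩ : (dI k K).FG := IsNoetherian.noetherian _
  have hG' : (dI k K).map (algebraMap (K ⊗[k] K) (Localization.AtPrime (dI k K))) =
      Submodule.span (Localization.AtPrime (dI k K))
        (algebraMap (K ⊗[k] K) (Localization.AtPrime (dI k K)) '' (G : Set (K ⊗[k] K))) := by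
    have h1 := Ideal.map_span (algebraMap (K ⊗[k] K) (Localization.AtPrime (dI k K)))
      (G : Set (K ⊗[k] K))
    rw [hG] at h1
    exact h1
  induction i with
  | zero =>
    refine ⟨∅, fun y => ⟨0, Submodule.zero_mem _, ?_⟩⟩
    rw [pow_zero, Ideal.one_eq_top]
    exact Submodule.mem_top
  | succ i ih =>
    obtain ⟨T, hT⟩ := ih
    refine ⟨insert 1 ((G ×ˢ T).image fun z => z.1 * z.2), fun y => ?_⟩
    obtain ⟨x, hx⟩ := onto_const y
    have hx' := hx
    rw [hG', Submodule.mem_span_image_finset_iff_exists_fun'] at hx'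
    obtain ⟨c, hc⟩ := hx'
    choose z hz hz' using fun g => hT (c g)
    refine ⟨x ⊗ₜ[k] 1 + ∑ g ∈ G, g * z g, ?_, ?_⟩
    · refine Submodule.add_mem _ ?_ (Submodule.sum_mem _ fun g hg => ?_)
      · have h1 : x ⊗ₜ[k] (1 : K) = x • (1 : K ⊗[k] K) := by
          rw [Algebra.TensorProduct.one_def, TensorProduct.smul_tmul', smul_eq_mul, mul_one]
        rw [h1]
        refine Submodule.smul_mem _ _ (Submodule.subset_span ?_)
        rw [Finset.coe_insert]
        exact Set.mem_insert _ _
      · have h2 : ∀ w ∈ Submodule.span K (T : Set (K ⊗[k] K)), g * w ∈ Submodule.span K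
            ((insert 1 ((G ×ˢ T).image fun z => z.1 * z.2) : Finset (K ⊗[k] K)) :
              Set (K ⊗[k] K)) := by
          intro w hw
          induction hw using Submodule.span_induction with
          | mem w hw =>
            refine Submodule.subset_span ?_
            rw [Finset.coe_insert]
            refine Set.mem_insert_of_mem _ ?_
            rw [Finset.mem_coe, Finset.mem_image]
            exact ⟨(g, w), Finset.mem_product.2 ⟨hg, hw⟩, rfl⟩
          | zero =>
            rw [mul_zero]
            exact Submodule.zero_mem _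
          | add u v _ _ hu hv =>
            rw [mul_add]
            exact Submodule.add_mem _ hu hv
          | smul a u _ hu =>
            rw [mul_smul_comm]
            exact Submodule.smul_mem _ _ hu
        exact h2 _ (hz g)
    · have h3 : y - algebraMap (K ⊗[k] K) (Localization.AtPrime (dI k K))
          (x ⊗ₜ[k] 1 + ∑ g ∈ G, g * z g) =
          ∑ g ∈ G, algebraMap (K ⊗[k] K) (Localization.AtPrime (dI k K)) g *
            (c g - algebraMap (K ⊗[k] K) (Localization.AtPrime (dI k K)) (z g)) := by
        rw [map_add, ← sub_sub, ← hc, map_sum, ← Finset.sum_sub_distrib]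
        refine Finset.sum_congr rfl fun g _ => ?_
        rw [smul_eq_mul, map_mul]
        ring
      rw [h3]
      refine Submodule.sum_mem _ fun g hg => ?_
      rw [pow_succ']
      refine Ideal.mul_mem_mul (Ideal.mem_map_of_mem _ ?_) (hz' g)
      rw [← hG]
      exact Submodule.subset_span hg

/-- M_c is onto R_I / J R_I. -/
theorem onto_quot [Algebra.EssFiniteType k K] (S : GSys k K) (J : Ideal (K ⊗[k] K))
    (hJ : J ≤ dI k K)
    (hmin : ∀ Q : Ideal (K ⊗[k] K), Q.IsPrime → J ≤ Q → Q ≤ dI k K → Q = dI k K) :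
    ∃ c, ∀ y : Localization.AtPrime (dI k K), ∃ m ∈ S.M K c,
      y - algebraMap (K ⊗[k] K) (Localization.AtPrime (dI k K)) m ∈
        J.map (algebraMap (K ⊗[k] K) (Localization.AtPrime (dI k K))) := by
  obtain ⟨q, hq⟩ := onto_pow J hmin
  obtain ⟨T, hT⟩ := onto_span (k := k) (K := K) q
  obtain ⟨c, s, hs, hs0, hc⟩ := denom (X := K) S T
  refine ⟨c, fun y => ?_⟩
  obtain ⟨z, hz, hz'⟩ :=
    hT (algebraMap (K ⊗[k] K) (Localization.AtPrime (dI k K)) ((1 : K) ⊗ₜ[k] s⁻¹) * y)
  refine ⟨((1 : K) ⊗ₜ[k] s) * z, ?_, ?_⟩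
  · have h2 : ∀ w ∈ Submodule.span K (T : Set (K ⊗[k] K)), ((1 : K) ⊗ₜ[k] s) * w ∈ S.M K c := by
      intro w hw
      induction hw using Submodule.span_induction with
      | mem w hw => exact hc w hw
      | zero =>
        rw [mul_zero]
        exact Submodule.zero_mem _
      | add u v _ _ hu hv =>
        rw [mul_add]
        exact Submodule.add_mem _ hu hv
      | smul a u _ hu =>
        rw [mul_smul_comm]
        exact Submodule.smul_mem _ _ hu
    exact h2 z hz
  · refine hq ?_
    have h1 : y - algebraMap (K ⊗[k] K) (Localization.AtPrime (dI k K))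
        (((1 : K) ⊗ₜ[k] s) * z) =
        algebraMap (K ⊗[k] K) (Localization.AtPrime (dI k K)) ((1 : K) ⊗ₜ[k] s) *
          (algebraMap (K ⊗[k] K) (Localization.AtPrime (dI k K)) ((1 : K) ⊗ₜ[k] s⁻¹) * y -
            algebraMap (K ⊗[k] K) (Localization.AtPrime (dI k K)) z) := by
      have h2 : ((1 : K) ⊗ₜ[k] s) * ((1 : K) ⊗ₜ[k] s⁻¹) = (1 : K ⊗[k] K) := by
        rw [Algebra.TensorProduct.tmul_mul_tmul, mul_inv_cancel₀ hs0, mul_one,
          Algebra.TensorProduct.one_def]
      rw [mul_sub, ← mul_assoc, ← map_mul, ← map_mul, h2, map_one, one_mul]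
    rw [h1]
    exact Ideal.mul_mem_left _ _ hz'

end Pool.Agent.H24.TU
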