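/-
MP_e49dc9_ag, THEOREM U, module TU/AllExp: (I.5') if no prime P < I contains
V_1(e) = {f in M_1 : ord_I f >= e} then all exponents of degree < e N are leading exponents of
M_(N+c).

PROOF. J = the ideal generated by V_1(e), J <= I = dI k K since e >= 1. onto_quot (TU/Onto) gives
c_0 with M_(c_0) onto R_I / J R_I. filt (TU/Filt) for O = R_I, the images of S.M K n, W = image of
V_1(e) in M_1, u = image of 1 (x) s with 0 <> s in L_1 (S.ne_bot; a unit of R): for all N and y in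
R_I there is m in M_(N + c_0) with y - m in (J R_I)^N = J^N R_I. Given N and a with degree a < e N
let r = prod_i (1 (x) c_i - c_i (x) 1)^(a_i) in R; tay C r = X^a (tay_var, tay_mul). Take m for y = r:
r - m in J^N R_I means: there is s not in I with s (r - m) in J^N
(IsLocalization.mem_map_algebraMap_iff and eq_iff_exists). Elements of J^N have order >= e N
(ordGE_span_pow, TU/OrdB), so r - m has order >= e N (ordGE_of_mul), so by ordGE_iff (TU/TayOrd)
tay C m and X^a have the same coefficients in degree < e N; nu_eq (TU/Nu) gives m <> 0, nu C m = a.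
-/
import Pool.Agent.H24.TU.Nu
import Pool.Agent.H24.TU.Onto
import Pool.Agent.H24.TU.Filt

open scoped TensorProduct

namespace Pool.Agent.H24.TU

universe u

variable {k K : Type u} [Field k] [CharZero k] [IsAlgClosed k] [Field K] [Algebra k K]

/-- The ideal generated by V_1(e). -/
def VIdeal (S : GSys k K) (e : ℕ) : Ideal (K ⊗[k] K) :=
  Ideal.span {f | f ∈ S.M K 1 ∧ OrdGE (dI k K) e f}

theorem all_exponents [Algebra.EssFiniteType k K] (C : Coord k K) (S : GSys k K) {e : ℕ}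
    (he : 1 ≤ e)
    (hmin : ∀ Q : Ideal (K ⊗[k] K), Q.IsPrime → VIdeal S e ≤ Q → Q ≤ dI k K → Q = dI k K) :
    ∃ c, ∀ (N : ℕ) (a : Fin 3 →₀ ℕ), a.degree < e * N →
      ∃ f ∈ S.M K (N + c), f ≠ 0 ∧ nu C f = a := by
  have hJ : VIdeal S e ≤ dI k K := by
    refine Ideal.span_le.2 ?_
    rintro f ⟨_, hf⟩
    obtain ⟨e', rfl⟩ : ∃ e', e = e' + 1 := ⟨e - 1, by omega⟩
    exact hf.1
  obtain ⟨c, hc⟩ := onto_quot S (VIdeal S e) hJ hmin
  refine ⟨c, fun N a ha => ?_⟩
  -- the localization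
  obtain ⟨M', hM'⟩ : ∃ M' : ℕ → Submodule K (Localization.AtPrime (dI k K)), M' = fun n =>
      (S.M K n).map (IsScalarTower.toAlgHom K (K ⊗[k] K)
        (Localization.AtPrime (dI k K))).toLinearMap := ⟨_, rfl⟩
  have hmem : ∀ n (x : Localization.AtPrime (dI k K)), x ∈ M' n ↔ ∃ y ∈ S.M K n,
      algebraMap (K ⊗[k] K) (Localization.AtPrime (dI k K)) y = x := by
    intro n x
    rw [hM']
    exact Submodule.mem_map
  have hmul : ∀ {m n : ℕ} {a b : Localization.AtPrime (dI k K)}, a ∈ M' m → b ∈ M' n →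
      a * b ∈ M' (m + n) := by
    intro m n a b hx hy
    obtain ⟨x, hx', rfl⟩ := (hmem _ _).1 hx
    obtain ⟨y, hy', rfl⟩ := (hmem _ _).1 hy
    exact (hmem _ _).2 ⟨x * y, M_mul S hx' hy', map_mul _ _ _⟩
  obtain ⟨s, hs, hs0⟩ := Submodule.exists_mem_ne_zero_of_ne_bot S.ne_bot
  have hu : algebraMap (K ⊗[k] K) (Localization.AtPrime (dI k K)) ((1 : K) ⊗ₜ[k] s) ∈ M' 1 :=
    (hmem _ _).2 ⟨_, M_tmul S 1 hs, rfl⟩
  have huu : IsUnit (algebraMap (K ⊗[k] K) (Localization.AtPrime (dI k K)) ((1 : K) ⊗ₜ[k] s)) := by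
    refine IsUnit.map _ (IsUnit.of_mul_eq_one ((1 : K) ⊗ₜ[k] s⁻¹) ?_)
    rw [Algebra.TensorProduct.tmul_mul_tmul, mul_one, mul_inv_cancel₀ hs0]
    rfl
  have hJmap : (VIdeal S e).map (algebraMap (K ⊗[k] K) (Localization.AtPrime (dI k K))) =
      Ideal.span ((algebraMap (K ⊗[k] K) (Localization.AtPrime (dI k K))) ''
        {f | f ∈ S.M K 1 ∧ OrdGE (dI k K) e f}) := Ideal.map_span _ _
  have hfilt := filt M' hmul ((algebraMap (K ⊗[k] K) (Localization.AtPrime (dI k K))) ''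
        {f | f ∈ S.M K 1 ∧ OrdGE (dI k K) e f})
    (by
      rintro w ⟨f, hf, rfl⟩
      exact (hmem _ _).2 ⟨f, hf.1, rfl⟩) _ hu huu c
    (by
      intro y
      obtain ⟨m, hm, hy⟩ := hc y
      refine ⟨_, (hmem _ _).2 ⟨m, hm, rfl⟩, ?_⟩
      rw [← hJmap]
      exact hy) N
  obtain ⟨r, hr⟩ : ∃ r : K ⊗[k] K, r = ∏ i, ((1 : K) ⊗ₜ[k] C.c i - C.c i ⊗ₜ[k] (1 : K)) ^ a i :=
    ⟨_, rfl⟩
  have htay : tay C r = MvPowerSeries.monomial a 1 := by
    have h1 : ∀ g : K ⊗[k] K, tay C g = (⟨⟨tay C, tay_one C⟩, tay_mul C⟩ :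
        (K ⊗[k] K) →* MvPowerSeries (Fin 3) K) g := fun _ => rfl
    rw [h1, hr, map_prod]
    have h2 : ∀ i, (⟨⟨tay C, tay_one C⟩, tay_mul C⟩ :
        (K ⊗[k] K) →* MvPowerSeries (Fin 3) K)
          (((1 : K) ⊗ₜ[k] C.c i - C.c i ⊗ₜ[k] (1 : K)) ^ a i) = MvPowerSeries.X i ^ a i := by
      intro i
      rw [map_pow, ← h1, tay_var]
    rw [Finset.prod_congr rfl fun i _ => h2 i, MvPowerSeries.monomial_eq', map_one, one_mul]
    rw [Finsupp.prod_fintype]
    intro i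
    exact pow_zero _
  obtain ⟨m, hm, hrm⟩ := hfilt (algebraMap _ _ r)
  obtain ⟨m', hm', rfl⟩ := (hmem _ _).1 hm
  refine ⟨m', hm', ?_⟩
  rw [← hJmap, ← Ideal.map_pow, ← map_sub] at hrm
  obtain ⟨⟨x, t⟩, hxt⟩ := (IsLocalization.mem_map_algebraMap_iff (dI k K).primeCompl
    (Localization.AtPrime (dI k K))).1 hrm
  rw [← map_mul] at hxt
  obtain ⟨q, hq⟩ := (IsLocalization.eq_iff_exists (dI k K).primeCompl
    (Localization.AtPrime (dI k K))).1 hxt
  have hs : ((q : K ⊗[k] K) * (t : K ⊗[k] K)) ∉ dI k K := (q * t).2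
  have hord : OrdGE (dI k K) (e * N) (r - m') := by
    refine ordGE_of_mul inferInstance hs ?_
    refine ordGE_span_pow (W := {f | f ∈ S.M K 1 ∧ OrdGE (dI k K) e f}) (fun w hw => hw.2) N ?_
    have h1 : (q : K ⊗[k] K) * (t : K ⊗[k] K) * (r - m') = q * x := by
      rw [← hq]
      ring
    rw [h1]
    exact Ideal.mul_mem_left _ _ x.2
  refine nu_eq C (m := e * N) ha fun b hb => ?_
  have h1 := (ordGE_iff C (e * N) (r - m')).1 hord b hb
  have h2 : tay C r = tay C (r - m') + tay C m' := by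
    rw [← tay_add, sub_add_cancel]
  have h3 : MvPowerSeries.coeff b (tay C r) = MvPowerSeries.coeff b (tay C m') := by
    rw [h2, map_add, h1, zero_add]
  rw [← h3, htay]
  classical
  rw [MvPowerSeries.coeff_monomial]

end Pool.Agent.H24.TU
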