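/-
MP_e49dc9_ag, THEOREM U, module TU/LemS: LEMMA S (smoothing).

STATEMENT 1 (one step). P a prime of X (x)_k K, X / k finitely generated, char 0. If h is in P
and dX theta h is in P for all theta in Der_k(X), then dK delta h is in P for all delta.
PROOF. kap = FractionRing (R / P) (or P.ResidueField), pi : R -> kap, x(a) = pi(a (x) 1),
z(f) = pi(1 (x) f). delta in Der_k(K). By extend_derivation (TU/DerEx) there is Xi in Der_k(kap)
with Xi(z f) = z(delta f). For h = sum a_i (x) f_i (induction on tensors):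
   Xi(pi h) = sum Xi(x a_i) z(f_i) + pi(dK delta h).
Let b_1, .., b_m be a finite transcendence basis of X / k (X / k is finitely generated) and
theta_j the dual derivations (exists_derivation); the derivation Xi o x : X -> kap (kap an
X-module by x) equals sum_j Xi(x b_j) * (x o theta_j) (both sides agree at the b_j,
derivation_eq_zero), so sum Xi(x a_i) z(f_i) = sum_j Xi(x b_j) pi(dX theta_j h) = 0. Since
pi h = 0 we get pi(dK delta h) = Xi(0) - 0 = 0.
STATEMENT 2 (one step, roles exchanged; K / k finitely generated): the same proof.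
STATEMENT 3. SmGE Q m g -> OrdGE Q m g. PROOF. Words in the dX theta and dK delta commute with
each other (dX_dK_comm). Show by induction on the number of function derivations: all mixed
words of length < m send g into Q. Convenient form: prove by induction on m
[for all g: SmGE Q m g -> OrdGE Q m g] together with [SmGE Q (m+1) g -> for all delta:
SmGE Q m (dK delta g)]: the second by induction on m: SmGE Q (m+1) g, then dK delta g is in Q by
STATEMENT 1 (if m >= 1), and dX theta (dK delta g) = dK delta (dX theta g) with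
SmGE Q m (dX theta g), so the induction hypothesis applies to dX theta g.
STATEMENT 4. OrdGE Q (m+1) g -> OrdGE Q m (dX theta g): the mirror image, with STATEMENT 2.
-/
import Pool.Agent.H24.TU.DerEx

open scoped TensorProduct

namespace Pool.Agent.H24.TU

universe u

variable {k X K : Type u} [Field k] [CharZero k] [Field X] [Field K] [Algebra k X] [Algebra k K]

/-- extension of a derivation to the point, and the chain rule for the other field -/
private theorem lems_core {A B κ : Type u} [Field A] [Field B] [Field κ] [Algebra k A]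
    [Algebra k B] [Algebra k κ] [Algebra.EssFiniteType k A] (x : A →ₐ[k] κ) (z : B →ₐ[k] κ)
    (δ : Derivation k B B) :
    ∃ (s : Finset A) (θ : s → Derivation k A A) (c : s → κ) (Ξ : Derivation k κ κ),
      (∀ f, Ξ (z f) = z (δ f)) ∧ ∀ a, Ξ (x a) = ∑ j, c j * x (θ j a) := by
  obtain ⟨s, hs⟩ := exists_finset_isTranscendenceBasis k A
  classical
  have hth : ∀ j : s, ∃ θ : Derivation k A A, ∀ i : s, θ (i : A) = if i = j then 1 else 0 :=
    fun j => exists_derivation hs fun i => if i = j then 1 else 0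
  choose θ hθ using hth
  obtain ⟨Ξ, hΞ⟩ := extend_derivation z (fun f => z (δ f))
    (fun f g => by
      change z (δ (f + g)) = z (δ f) + z (δ g)
      rw [map_add, map_add])
    (fun r => by
      change z (δ (algebraMap k B r)) = 0
      rw [Derivation.map_algebraMap, map_zero])
    (fun f g => by
      change z (δ (f * g)) = z f * z (δ g) + z g * z (δ f)
      rw [Derivation.leibniz, map_add, smul_eq_mul, smul_eq_mul, map_mul, map_mul])
  refine ⟨s, θ, fun j => Ξ (x (j : A)), Ξ, hΞ, ?_⟩
  letI : Algebra A κ := x.toRingHom.toAlgebra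
  have hsm : ∀ (f : A) (y : κ), f • y = x f * y := fun _ _ => rfl
  haveI : IsScalarTower k A κ := ⟨fun r f y => by
    rw [hsm, hsm, map_smul, smul_mul_assoc]⟩
  let E : Derivation k A κ :=
    { toLinearMap :=
        { toFun := fun a => Ξ (x a) - ∑ j : s, Ξ (x (j : A)) * x (θ j a)
          map_add' := fun a b => by
            simp only [map_add, mul_add, Finset.sum_add_distrib]
            ring
          map_smul' := fun r a => by
            have h1 : Ξ (x (r • a)) = r • Ξ (x a) := by rw [map_smul, Derivation.map_smul]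
            have h2 : ∀ j, x (θ j (r • a)) = r • x (θ j a) := fun j => by
              rw [Derivation.map_smul, map_smul]
            change Ξ (x (r • a)) - ∑ j : s, Ξ (x (j : A)) * x (θ j (r • a)) =
              r • (Ξ (x a) - ∑ j : s, Ξ (x (j : A)) * x (θ j a))
            rw [h1, smul_sub, Finset.smul_sum]
            congr 1
            refine Finset.sum_congr rfl fun j _ => ?_
            rw [h2, mul_smul_comm] }
      map_one_eq_zero' := by
        change Ξ (x 1) - ∑ j : s, Ξ (x (j : A)) * x (θ j 1) = 0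
        simp
      leibniz' := fun a b => by
        change Ξ (x (a * b)) - ∑ j : s, Ξ (x (j : A)) * x (θ j (a * b)) =
          x a * (Ξ (x b) - ∑ j : s, Ξ (x (j : A)) * x (θ j b)) +
            x b * (Ξ (x a) - ∑ j : s, Ξ (x (j : A)) * x (θ j a))
        rw [map_mul, Derivation.leibniz, smul_eq_mul, smul_eq_mul]
        have h1 : ∑ j : s, Ξ (x (j : A)) * x (θ j (a * b)) =
            x a * ∑ j : s, Ξ (x (j : A)) * x (θ j b) +
              x b * ∑ j : s, Ξ (x (j : A)) * x (θ j a) := by
          rw [Finset.mul_sum, Finset.mul_sum, ← Finset.sum_add_distrib]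
          refine Finset.sum_congr rfl fun j _ => ?_
          rw [Derivation.leibniz, map_add, smul_eq_mul, smul_eq_mul, map_mul, map_mul]
          ring
        rw [h1]
        ring }
  have hE : E = 0 := by
    apply derivation_eq_zero hs
    intro i
    change Ξ (x (i : A)) - ∑ j : s, Ξ (x (j : A)) * x (θ j (i : A)) = 0
    rw [Finset.sum_eq_single i]
    · rw [hθ i i, if_pos rfl, map_one, mul_one, sub_self]
    · intro j _ hji
      rw [hθ j i, if_neg (fun h => hji h.symm), map_zero, mul_zero]
    · intro h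
      exact absurd (Finset.mem_univ i) h
  intro a
  have h5 := congrArg (fun F : Derivation k A κ => F a) hE
  change Ξ (x a) - ∑ j : s, Ξ (x (j : A)) * x (θ j a) = 0 at h5
  exact sub_eq_zero.1 h5

/-- the point of a prime -/
private theorem lems_pt {P : Ideal (X ⊗[k] K)} (hP : P.IsPrime) :
    ∃ (κ : Type u) (_ : Field κ) (_ : Algebra k κ) (π : (X ⊗[k] K) →ₐ[k] κ),
      ∀ g, π g = 0 ↔ g ∈ P := by
  haveI := hP
  refine ⟨FractionRing ((X ⊗[k] K) ⧸ P), inferInstance, inferInstance,
    (IsScalarTower.toAlgHom k ((X ⊗[k] K) ⧸ P) (FractionRing ((X ⊗[k] K) ⧸ P))).comp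
      (Ideal.Quotient.mkₐ k P), fun g => ?_⟩
  change algebraMap ((X ⊗[k] K) ⧸ P) (FractionRing ((X ⊗[k] K) ⧸ P))
    (Ideal.Quotient.mk P g) = 0 ↔ g ∈ P
  rw [← Ideal.Quotient.eq_zero_iff_mem]
  exact IsFractionRing.to_map_eq_zero_iff

/-- STATEMENT 1. -/
theorem smooth_step [Algebra.EssFiniteType k X] {P : Ideal (X ⊗[k] K)} (hP : P.IsPrime)
    {h : X ⊗[k] K} (h0 : h ∈ P) (h1 : ∀ θ : Derivation k X X, dX K θ h ∈ P)
    (δ : Derivation k K K) : dK X δ h ∈ P := by
  obtain ⟨κ, _, _, π, hπ⟩ := lems_pt hP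
  obtain ⟨s, θ, c, Ξ, hz, hx⟩ := lems_core
    (π.comp (Algebra.TensorProduct.includeLeft : X →ₐ[k] X ⊗[k] K))
    (π.comp (Algebra.TensorProduct.includeRight : K →ₐ[k] X ⊗[k] K)) δ
  have key : ∀ g : X ⊗[k] K, Ξ (π g) = ∑ j, c j * π (dX K (θ j) g) + π (dK X δ g) := by
    intro g
    induction g using TensorProduct.induction_on with
    | zero => simp
    | add a b ha hb =>
      simp only [map_add, mul_add, Finset.sum_add_distrib, ha, hb]
      ring
    | tmul a f =>
      have e : ∀ (a' : X) (f' : K), π (a' ⊗ₜ[k] f') =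
          π (a' ⊗ₜ[k] (1 : K)) * π ((1 : X) ⊗ₜ[k] f') := by
        intro a' f'
        rw [← map_mul, Algebra.TensorProduct.tmul_mul_tmul, mul_one, one_mul]
      have hz' : Ξ (π ((1 : X) ⊗ₜ[k] f)) = π ((1 : X) ⊗ₜ[k] δ f) := hz f
      have hx' : Ξ (π (a ⊗ₜ[k] (1 : K))) = ∑ j, c j * π ((θ j a) ⊗ₜ[k] (1 : K)) := hx a
      rw [e a f, Derivation.leibniz, smul_eq_mul, smul_eq_mul, hz', hx', dK_tmul, e a (δ f),
        Finset.mul_sum, add_comm]
      congr 1
      refine Finset.sum_congr rfl fun j _ => ?_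
      rw [dX_tmul, e (θ j a) f]
      ring
  rw [← hπ]
  have h2 := key h
  rw [(hπ h).2 h0, map_zero, Finset.sum_eq_zero, zero_add] at h2
  · exact h2.symm
  · intro j _
    rw [(hπ _).2 (h1 (θ j)), mul_zero]

/-- STATEMENT 2. -/
theorem smooth_step' [Algebra.EssFiniteType k K] {P : Ideal (X ⊗[k] K)} (hP : P.IsPrime)
    {h : X ⊗[k] K} (h0 : h ∈ P) (h1 : ∀ δ : Derivation k K K, dK X δ h ∈ P)
    (θ : Derivation k X X) : dX K θ h ∈ P := by
  obtain ⟨κ, _, _, π, hπ⟩ := lems_pt hP
  obtain ⟨s, δ, c, Ξ, hz, hx⟩ := lems_core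
    (π.comp (Algebra.TensorProduct.includeRight : K →ₐ[k] X ⊗[k] K))
    (π.comp (Algebra.TensorProduct.includeLeft : X →ₐ[k] X ⊗[k] K)) θ
  have key : ∀ g : X ⊗[k] K, Ξ (π g) = ∑ j, c j * π (dK X (δ j) g) + π (dX K θ g) := by
    intro g
    induction g using TensorProduct.induction_on with
    | zero => simp
    | add a b ha hb =>
      simp only [map_add, mul_add, Finset.sum_add_distrib, ha, hb]
      ring
    | tmul a f =>
      have e : ∀ (a' : X) (f' : K), π (a' ⊗ₜ[k] f') =
          π (a' ⊗ₜ[k] (1 : K)) * π ((1 : X) ⊗ₜ[k] f') := by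
        intro a' f'
        rw [← map_mul, Algebra.TensorProduct.tmul_mul_tmul, mul_one, one_mul]
      have hz' : Ξ (π (a ⊗ₜ[k] (1 : K))) = π ((θ a) ⊗ₜ[k] (1 : K)) := hz a
      have hx' : Ξ (π ((1 : X) ⊗ₜ[k] f)) = ∑ j, c j * π ((1 : X) ⊗ₜ[k] (δ j f)) := hx f
      rw [e a f, Derivation.leibniz, smul_eq_mul, smul_eq_mul, hz', hx', dX_tmul, e (θ a) f,
        Finset.mul_sum, mul_comm (π ((1 : X) ⊗ₜ[k] f))]
      congr 1
      refine Finset.sum_congr rfl fun j _ => ?_
      rw [dK_tmul, e a (δ j f)]
      ring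
  rw [← hπ]
  have h2 := key h
  rw [(hπ h).2 h0, map_zero, Finset.sum_eq_zero, zero_add] at h2
  · exact h2.symm
  · intro j _
    rw [(hπ _).2 (h1 (δ j)), mul_zero]

/-- STATEMENT 3. -/
theorem ordGE_of_smGE [Algebra.EssFiniteType k X] {P : Ideal (X ⊗[k] K)} (hP : P.IsPrime)
    (m : ℕ) {g : X ⊗[k] K} (h : SmGE P m g) : OrdGE P m g := by
  have hA : ∀ (m : ℕ) (g : X ⊗[k] K) (δ : Derivation k K K), SmGE P (m + 1) g →
      SmGE P m (dK X δ g) := by
    intro m
    induction m with
    | zero => intro g δ _; trivial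
    | succ m ih =>
      intro g δ hg
      refine ⟨smooth_step hP hg.1 (fun θ => (hg.2 θ).1) δ, fun θ => ?_⟩
      rw [dX_dK_comm]
      exact ih _ δ (hg.2 θ)
  induction m generalizing g with
  | zero => trivial
  | succ m ih => exact ⟨h.1, fun δ => ih (hA m g δ h)⟩

/-- STATEMENT 4. -/
theorem ordGE_dX [Algebra.EssFiniteType k K] {P : Ideal (X ⊗[k] K)} (hP : P.IsPrime)
    (m : ℕ) {g : X ⊗[k] K} (h : OrdGE P (m + 1) g) (θ : Derivation k X X) :
    OrdGE P m (dX K θ g) := by
  induction m generalizing g with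
  | zero => trivial
  | succ m ih =>
    refine ⟨smooth_step' hP h.1 (fun δ => (h.2 δ).1) θ, fun δ => ?_⟩
    rw [← dX_dK_comm]
    exact ih (h.2 δ)

end Pool.Agent.H24.TU
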