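/-
MP_e49dc9_ag, THEOREM U, module TU/Cmp: comparison of orders (I.8') and the maximal order d.

STATEMENT 1. P a prime with V_1(e) in P: for every f in M_1 with ord_I(f) >= r one has
ord_P(f) >= r + 1 - e (natural subtraction).
PROOF. Show SmGE P (r + 1 - e) f and use ordGE_of_smGE (TU/LemS). Induction on m for the
statement [for all f in M_1 and all r with m + e <= r + 1 (or m = 0): OrdGE I r f -> SmGE P m f]:
m = 0 trivial. m + 1 + e <= r + 1: f has order >= r >= e (OrdGE_mono), so f is in V_1(e), so in P; for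
theta: dX theta f in M_1 (M_dX) has order >= r - 1 (ordGE_dX, r >= 1 because e >= 1 or use
m + 1 + e <= r + 1; if r = 0 then m = 0 and e = 0: then SmGE P 1 f: f in P since OrdGE I 0 f holds,
and SmGE P 0 is trivial), and m + e <= (r - 1) + 1.
STATEMENT 2. There are d and 0 <> g in M_1 with ord_I(g) >= d such that only f = 0 in M_1 has
order >= d + 1, and h_1 <= C(d+3, 3).
PROOF. M_1 is finite dimensional and nonzero (S.ne_bot, finrank_M). The subspaces
U_m = {f in M_1 : OrdGE I m f} decrease, so they are eventually constant; an f in all of them has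
tay f = 0 (ordGE_iff), so f = 0 (tay_inj). So some U_m = 0; take the least such m = d + 1
(U_0 = M_1 <> 0). The K-linear map M_1 -> (coefficients of tay at the exponents of degree <= d) is
injective by ordGE_iff, and there are C(d+3,3) such exponents (Fin 3 ->0 Nat with degree <= d;
e.g. Finset.finsuppAntidiag, or stars and bars, or induction).
-/
import Pool.Agent.H24.TU.LemS
import Pool.Agent.H24.TU.AllExp

open scoped TensorProduct

namespace Pool.Agent.H24.TU

universe u

variable {k K : Type u} [Field k] [CharZero k] [Field K] [Algebra k K]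

private theorem ord_compare_aux [Algebra.EssFiniteType k K] (S : GSys k K) {e : ℕ}
    {P : Ideal (K ⊗[k] K)} (hV : VIdeal S e ≤ P) (m : ℕ) :
    ∀ f ∈ S.M K 1, ∀ r : ℕ, (m = 0 ∨ m + e ≤ r + 1) → OrdGE (dI k K) r f → SmGE P m f := by
  induction m with
  | zero => intro f _ r _ _; trivial
  | succ m ih =>
    intro f hf r hr h
    have hr1 : m + e ≤ r := by omega
    refine ⟨hV (Ideal.subset_span ⟨hf, OrdGE_mono (by omega) h⟩), fun θ => ?_⟩
    rcases r with _ | r
    · have hm : m = 0 := by omega
      rw [hm]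
      trivial
    · exact ih _ (M_dX S hf θ) r (Or.inr hr1) (ordGE_dX inferInstance r h θ)

theorem ord_compare [Algebra.EssFiniteType k K] (S : GSys k K) {e : ℕ}
    {P : Ideal (K ⊗[k] K)} (hP : P.IsPrime) (hV : VIdeal S e ≤ P) {f : K ⊗[k] K}
    (hf : f ∈ S.M K 1) {r : ℕ} (h : OrdGE (dI k K) r f) : OrdGE P (r + 1 - e) f :=
  ordGE_of_smGE hP _ (ord_compare_aux S hV (r + 1 - e) f hf r (by omega) h)

private theorem sum_choose_aux (d : ℕ) :
    ∑ j ∈ Finset.range (d + 1), (j + 2).choose j = (d + 3).choose 3 := by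
  induction d with
  | zero => simp
  | succ d ih =>
    rw [Finset.sum_range_succ, ih]
    have h1 : (d + 1 + 2).choose (d + 1) = (d + 3).choose 2 := by
      rw [show d + 1 + 2 = d + 3 from by omega]
      exact (Nat.choose_symm_of_eq_add (by omega))
    have h2 : (d + 1 + 3).choose 3 = (d + 3).choose 2 + (d + 3).choose 3 :=
      Nat.choose_succ_succ' (d + 3) 2
    rw [h1, h2]
    omega

/-- The number of exponents of degree at most d. -/
theorem card_degree_le (d : ℕ) :
    {a : Fin 3 →₀ ℕ | a.degree ≤ d}.Finite ∧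
      {a : Fin 3 →₀ ℕ | a.degree ≤ d}.ncard = (d + 3).choose 3 := by
  classical
  have hset : {a : Fin 3 →₀ ℕ | a.degree ≤ d} =
      (((Finset.range (d + 1)).biUnion fun j => (Finset.univ : Finset (Fin 3)).finsuppAntidiag j :
        Finset (Fin 3 →₀ ℕ)) : Set (Fin 3 →₀ ℕ)) := by
    ext a
    simp only [Set.mem_ofPred_eq, Finset.coe_biUnion, Set.mem_iUnion, Finset.mem_coe,
      Finset.mem_range, Finset.mem_finsuppAntidiag, Finset.subset_univ, and_true]
    rw [Finsupp.degree_eq_sum]
    constructor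
    · intro h
      exact ⟨∑ i, a i, by omega, rfl⟩
    · rintro ⟨j, hj, h⟩
      have h' : ∑ i, a i = j := h
      omega
  rw [hset]
  refine ⟨Finset.finite_toSet _, ?_⟩
  rw [Set.ncard_coe_finset, Finset.card_biUnion]
  · rw [← sum_choose_aux]
    refine Finset.sum_congr rfl fun j _ => ?_
    rw [Finset.card_finsuppAntidiag_nat_eq_choose, Finset.card_univ, Fintype.card_fin]
    congr 1
    omega
  · intro i _ j _ hij
    rw [Function.onFun, Finset.disjoint_left]
    intro a ha hb
    rw [Finset.mem_finsuppAntidiag] at ha hb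
    exact hij (ha.1.symm.trans hb.1)

/-- the elements of M_1 of order at least m -/
private noncomputable def ordSub (C : Coord k K) (V : Submodule K (K ⊗[k] K)) (m : ℕ) :
    Submodule K V where
  carrier := {f | ∀ a : Fin 3 →₀ ℕ, a.degree < m →
    MvPowerSeries.coeff a (tay C (f : K ⊗[k] K)) = 0}
  add_mem' := by
    intro f g hf hg a ha
    rw [Submodule.coe_add, tay_add, map_add, hf a ha, hg a ha, add_zero]
  zero_mem' := by
    intro a _
    have h : tay C (0 : K ⊗[k] K) = 0 := by
      have := tay_smul C (0 : K) (0 : K ⊗[k] K)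
      rwa [zero_smul, zero_smul] at this
    rw [Submodule.coe_zero, h, map_zero]
  smul_mem' := by
    intro c f hf a ha
    rw [Submodule.coe_smul, tay_smul, map_smul, hf a ha, smul_zero]

theorem max_order [IsAlgClosed k] (C : Coord k K) (S : GSys k K) :
    ∃ d : ℕ, ∃ g ∈ S.M K 1, g ≠ 0 ∧ OrdGE (dI k K) d g ∧
      (∀ f ∈ S.M K 1, OrdGE (dI k K) (d + 1) f → f = 0) ∧
      Module.finrank k (S.L 1) ≤ (d + 3).choose 3 := by
  classical
  have hfin : Module.Finite K (S.M K 1) := M_finite S 1
  have hmem : ∀ (m : ℕ) (f : S.M K 1), f ∈ ordSub C (S.M K 1) m ↔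
      OrdGE (dI k K) m (f : K ⊗[k] K) := by
    intro m f
    rw [ordGE_iff C]
    rfl
  have hanti : Antitone (ordSub C (S.M K 1)) := by
    intro m n hmn f hf a ha
    exact hf a (lt_of_lt_of_le ha hmn)
  obtain ⟨n, hn⟩ := IsArtinian.monotone_stabilizes (R := K) (M := S.M K 1)
    ⟨fun m => OrderDual.toDual (ordSub C (S.M K 1) m), fun m n hmn => hanti hmn⟩
  have hbot : ordSub C (S.M K 1) n = ⊥ := by
    rw [Submodule.eq_bot_iff]
    intro f hf
    have h0 : tay C (f : K ⊗[k] K) = 0 := by
      ext a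
      have h1 : f ∈ ordSub C (S.M K 1) (max n (a.degree + 1)) := by
        have h2 : ordSub C (S.M K 1) n = ordSub C (S.M K 1) (max n (a.degree + 1)) :=
          hn _ (le_max_left _ _)
        rwa [← h2]
      rw [map_zero]
      exact h1 a (lt_of_lt_of_le (Nat.lt_succ_self _) (le_max_right _ _))
    exact Subtype.ext (tay_inj C h0)
  have hex : ∃ m, ordSub C (S.M K 1) m = ⊥ := ⟨n, hbot⟩
  obtain ⟨s, hs, hs0⟩ := Submodule.exists_mem_ne_zero_of_ne_bot S.ne_bot
  have hs' : (1 : K) ⊗ₜ[k] s ≠ (0 : K ⊗[k] K) := by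
    intro h
    have h1 := congrArg (ev k K) h
    rw [ev_tmul, one_mul, map_zero] at h1
    exact hs0 h1
  have hne : Nat.find hex ≠ 0 := by
    intro h0
    have h1 := Nat.find_spec hex
    rw [h0] at h1
    have h2 : (⟨(1 : K) ⊗ₜ[k] s, M_tmul S 1 hs⟩ : S.M K 1) ∈ ordSub C (S.M K 1) 0 := by
      intro a ha
      omega
    rw [h1, Submodule.mem_bot] at h2
    exact hs' (congrArg Subtype.val h2)
  obtain ⟨d, hd⟩ := Nat.exists_eq_succ_of_ne_zero hne
  have hd1 : ordSub C (S.M K 1) (d + 1) = ⊥ := by
    have h1 := Nat.find_spec hex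
    rwa [hd] at h1
  have hd2 : ordSub C (S.M K 1) d ≠ ⊥ := Nat.find_min hex (by omega)
  obtain ⟨g, hg, hg0⟩ := Submodule.exists_mem_ne_zero_of_ne_bot hd2
  refine ⟨d, g, g.2, ?_, (hmem d g).1 hg, ?_, ?_⟩
  · intro h
    exact hg0 (Subtype.ext h)
  · intro f hf h
    have h1 : (⟨f, hf⟩ : S.M K 1) ∈ ordSub C (S.M K 1) (d + 1) := (hmem _ _).2 h
    rw [hd1, Submodule.mem_bot] at h1
    exact congrArg Subtype.val h1
  · obtain ⟨hF, hc⟩ := card_degree_le d
    have : Fintype {a : Fin 3 →₀ ℕ | a.degree ≤ d} := hF.fintype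
    let φ : S.M K 1 →ₗ[K] ({a : Fin 3 →₀ ℕ | a.degree ≤ d} → K) :=
      { toFun := fun f a => MvPowerSeries.coeff (a : Fin 3 →₀ ℕ) (tay C (f : K ⊗[k] K))
        map_add' := by
          intro f g
          funext a
          rw [Submodule.coe_add, tay_add, map_add]
          rfl
        map_smul' := by
          intro c f
          funext a
          rw [Submodule.coe_smul, tay_smul, map_smul]
          rfl }
    have hinj : Function.Injective φ := by
      rw [← LinearMap.ker_eq_bot, Submodule.eq_bot_iff]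
      intro f hf
      have h1 : f ∈ ordSub C (S.M K 1) (d + 1) := by
        intro a ha
        have h2 := congrFun (LinearMap.mem_ker.1 hf) ⟨a, (by
          show a.degree ≤ d
          omega)⟩
        exact h2
      rwa [hd1, Submodule.mem_bot] at h1
    have h3 := LinearMap.finrank_le_finrank_of_injective hinj
    rw [Module.finrank_fintype_fun_eq_card, finrank_M] at h3
    rw [← hc, Set.ncard_eq_toFinset_card' , Set.toFinset_card]
    exact h3

end Pool.Agent.H24.TU
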