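/-
MP_e49dc9_ag, THEOREM U, module TU/Count: (I.3) counting leading exponents.

STATEMENT 1 (combinatorics): A a finite set of exponents Fin 3 ->0 Nat, N >= 1, B a set of
exponents containing N m + j for all m in A and all j with j_i < N for all i; B finite. Then
N^3 * card A <= card B. PROOF: (m, j) -> N m + j is injective (division with remainder in every
coordinate), A x {j : j_i < N} has N^3 card A elements.
STATEMENT 2: if all exponents of degree < e N are leading exponents of M_(N+c) (for all N), then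
N^3 h_1 <= h_(N + (3 N / e + 1) + c) for all N >= 1. PROOF. ncard_nu (TU/Nu) for V = S.M K n
(M_finite, finrank_M in TU/OrdB): the set A_n of leading exponents of M_n has h_n elements.
m in A_1: m = nu f, f in M_1; f^N in M_N with nu (f^N) = N m (nu_mul, M_mul; N >= 1). j with j_i < N:
degree j <= 3 (N-1) < e (3 N / e + 1), so j = nu g with g in M_(3N/e + 1 + c). So N m + j =
nu (f^N g) is in A_(N + (3N/e + 1 + c)). Apply STATEMENT 1.
STATEMENT 3: consequence for the volume bound: if moreover h_n <= w n^3 for all large n, then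
h_1 <= (1 + 3/e)^3 w. PROOF. N^3 h_1 <= w (N + 3N/e + 1 + c)^3 for large N (real division; if w < 0
then h_n < 0: impossible, so w >= 0), divide by N^3, N -> infinity.
-/
import Pool.Agent.H24.TU.AllExp

open scoped TensorProduct

namespace Pool.Agent.H24.TU

universe u

theorem card_grid (A B : Finset (Fin 3 →₀ ℕ)) (N : ℕ) (hN : 1 ≤ N)
    (h : ∀ m ∈ A, ∀ j : Fin 3 →₀ ℕ, (∀ i, j i < N) → N • m + j ∈ B) :
    N ^ 3 * A.card ≤ B.card := by
  have h1 : (A ×ˢ (Finset.univ : Finset (Fin 3 → Fin N))).card ≤ B.card := by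
    apply Finset.card_le_card_of_injOn
      (fun q => N • q.1 + Finsupp.equivFunOnFinite.symm (fun i => ((q.2 i : Fin N) : ℕ)))
    · intro q hq
      rw [Finset.mem_coe, Finset.mem_product] at hq
      exact h q.1 hq.1 _ (fun i => by simp)
    · intro q _ q' _ hqq
      have h2 : ∀ i, N * q.1 i + ((q.2 i : Fin N) : ℕ) = N * q'.1 i + ((q'.2 i : Fin N) : ℕ) := by
        intro i
        have := DFunLike.congr_fun hqq i
        simpa using this
      have h3 : ∀ i, q.1 i = q'.1 i := by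
        intro i
        have h4 := congrArg (fun t => t / N) (h2 i)
        simp only [Nat.mul_add_div hN, Nat.div_eq_of_lt (q.2 i).2,
          Nat.div_eq_of_lt (q'.2 i).2, add_zero] at h4
        exact h4
      have h5 : ∀ i, q.2 i = q'.2 i := by
        intro i
        apply Fin.ext
        have h6 := h2 i
        rw [h3 i] at h6
        omega
      exact Prod.ext (Finsupp.ext h3) (funext h5)
  rw [Finset.card_product, Finset.card_univ, Fintype.card_fun, Fintype.card_fin,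
    Fintype.card_fin] at h1
  rw [mul_comm]
  exact h1

variable {k K : Type u} [Field k] [CharZero k] [IsAlgClosed k] [Field K] [Algebra k K]

private theorem M_pow (S : GSys k K) {f : K ⊗[k] K} (hf : f ∈ S.M K 1) (n : ℕ) :
    f ^ n ∈ S.M K n := by
  induction n with
  | zero =>
    rw [pow_zero]
    exact M_tmul S 1 S.one_mem
  | succ n ih =>
    rw [pow_succ]
    exact M_mul S ih hf

private theorem nu_pow (C : Coord k K) {f : K ⊗[k] K} (hf : f ≠ 0) (n : ℕ) (hn : 1 ≤ n) :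
    f ^ n ≠ 0 ∧ nu C (f ^ n) = n • nu C f := by
  induction n, hn using Nat.le_induction with
  | base => rw [pow_one, one_nsmul]; exact ⟨hf, rfl⟩
  | succ n _ ih =>
    obtain ⟨h1, h2⟩ := ih
    have h3 := nu_mul C h1 hf
    rw [pow_succ, succ_nsmul, ← h2]
    exact h3

theorem count_bound (C : Coord k K) (S : GSys k K) {e : ℕ} (he : 1 ≤ e) {c : ℕ}
    (h : ∀ (N : ℕ) (a : Fin 3 →₀ ℕ), a.degree < e * N →
      ∃ f ∈ S.M K (N + c), f ≠ 0 ∧ nu C f = a) (N : ℕ) (hN : 1 ≤ N) :
    N ^ 3 * Module.finrank k (S.L 1) ≤ Module.finrank k (S.L (N + (3 * N / e + 1 + c))) := by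
  haveI := fun n => M_finite (X := K) S n
  obtain ⟨hA, hA'⟩ := ncard_nu C (S.M K 1)
  obtain ⟨hB, hB'⟩ := ncard_nu C (S.M K (N + (3 * N / e + 1 + c)))
  rw [finrank_M] at hA' hB'
  rw [← hA', ← hB', Set.ncard_eq_toFinset_card _ hA, Set.ncard_eq_toFinset_card _ hB]
  apply card_grid _ _ N hN
  intro m hm j hj
  rw [Set.Finite.mem_toFinset] at hm ⊢
  obtain ⟨f, hf, hf0, rfl⟩ := hm
  have hdeg : j.degree < e * (3 * N / e + 1) := by
    have h1 : j.degree = j 0 + j 1 + j 2 := by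
      rw [Finsupp.degree_eq_sum, Fin.sum_univ_three]
    have h2 : 3 * N < e * (3 * N / e + 1) := Nat.lt_mul_div_succ (3 * N) (by omega)
    have h3 := hj 0
    have h4 := hj 1
    have h5 := hj 2
    omega
  obtain ⟨g, hg, hg0, hgj⟩ := h (3 * N / e + 1) j hdeg
  obtain ⟨h1, h2⟩ := nu_pow C hf0 N hN
  obtain ⟨h3, h4⟩ := nu_mul C h1 hg0
  exact ⟨f ^ N * g, M_mul S (M_pow S hf N) hg, h3, by rw [h4, h2, hgj]⟩

theorem vol_bound (C : Coord k K) (S : GSys k K) {e : ℕ} (he : 1 ≤ e) {c : ℕ}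
    (h : ∀ (N : ℕ) (a : Fin 3 →₀ ℕ), a.degree < e * N →
      ∃ f ∈ S.M K (N + c), f ≠ 0 ∧ nu C f = a) (w : ℝ)
    (hw : ∀ᶠ n : ℕ in Filter.atTop, (Module.finrank k (S.L n) : ℝ) ≤ w * (n : ℝ) ^ 3) :
    (Module.finrank k (S.L 1) : ℝ) ≤ (1 + 3 / (e : ℝ)) ^ 3 * w := by
  have hw0 : 0 ≤ w := by
    obtain ⟨n, hn1, hn2⟩ := (hw.and (Filter.eventually_ge_atTop 1)).exists
    have h1 : (0 : ℝ) ≤ w * (n : ℝ) ^ 3 := le_trans (Nat.cast_nonneg _) hn1
    have h2 : (0 : ℝ) < (n : ℝ) ^ 3 := by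
      have : (0 : ℝ) < n := by exact_mod_cast hn2
      positivity
    by_contra hneg
    rw [not_le] at hneg
    have := mul_neg_of_neg_of_pos hneg h2
    linarith
  have he0 : (0 : ℝ) < e := by exact_mod_cast he
  have ht : Filter.Tendsto (fun N : ℕ => N + (3 * N / e + 1 + c)) Filter.atTop Filter.atTop :=
    Filter.tendsto_atTop_mono (fun N => Nat.le_add_right N _) Filter.tendsto_id
  have hev : ∀ᶠ N : ℕ in Filter.atTop, (Module.finrank k (S.L 1) : ℝ) ≤
      w * ((1 + 3 / (e : ℝ)) + (1 + (c : ℝ)) / (N : ℝ)) ^ 3 := by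
    filter_upwards [ht.eventually hw, Filter.eventually_ge_atTop 1] with N h1 hN
    have h2 := count_bound C S he h N hN
    have h3 : ((N : ℝ)) ^ 3 * (Module.finrank k (S.L 1) : ℝ) ≤
        (Module.finrank k (S.L (N + (3 * N / e + 1 + c))) : ℝ) := by exact_mod_cast h2
    have hN0 : (0 : ℝ) < N := by exact_mod_cast hN
    have h4 : ((3 * N / e : ℕ) : ℝ) ≤ 3 * N / e := by
      have := Nat.cast_div_le (α := ℝ) (m := 3 * N) (n := e)
      push_cast at this
      exact this
    have h5 : ((N + (3 * N / e + 1 + c) : ℕ) : ℝ) ≤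
        (N : ℝ) * ((1 + 3 / (e : ℝ)) + (1 + (c : ℝ)) / (N : ℝ)) := by
      have h6 : (N : ℝ) * ((1 + 3 / (e : ℝ)) + (1 + (c : ℝ)) / (N : ℝ)) =
          N + (3 * N / e + (1 + c)) := by
        field_simp
        ring
      rw [h6]
      push_cast at h4 ⊢
      linarith
    have h7 : ((N + (3 * N / e + 1 + c) : ℕ) : ℝ) ^ 3 ≤
        ((N : ℝ) * ((1 + 3 / (e : ℝ)) + (1 + (c : ℝ)) / (N : ℝ))) ^ 3 :=
      pow_le_pow_left₀ (Nat.cast_nonneg _) h5 3
    have h8 := mul_le_mul_of_nonneg_left h7 hw0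
    have h9 : (N : ℝ) ^ 3 * (Module.finrank k (S.L 1) : ℝ) ≤
        (N : ℝ) ^ 3 * (w * ((1 + 3 / (e : ℝ)) + (1 + (c : ℝ)) / (N : ℝ)) ^ 3) := by
      refine le_trans h3 (le_trans h1 (le_trans h8 (le_of_eq ?_)))
      rw [mul_pow]
      ring
    exact le_of_mul_le_mul_left h9 (by positivity)
  have hlim : Filter.Tendsto
      (fun N : ℕ => w * ((1 + 3 / (e : ℝ)) + (1 + (c : ℝ)) / (N : ℝ)) ^ 3) Filter.atTop
      (nhds (w * ((1 + 3 / (e : ℝ)) + 0) ^ 3)) :=
    ((tendsto_const_nhds.add (tendsto_const_div_atTop_nhds_zero_nat _)).pow 3).const_mul w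
  have := ge_of_tendsto hlim hev
  rw [add_zero] at this
  rw [mul_comm]
  exact this

end Pool.Agent.H24.TU
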