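/-
MP_e49dc9_ag, THEOREM U, module TU/LA: linear algebra over a field extension y : Y -> kap.

STATEMENT 1. If alpha in kap^h satisfies sum alpha_i y(phi_i) = 0 for all phi in Phi (Phi a subset of
Y^h), then alpha is in the kap-span of y(beta), beta in Y^h with sum beta_i phi_i = 0 for all phi.
PROOF. (kap_b) a basis of kap as a Y-vector space via y (letI := y.toAlgebra; Module.Basis.ofVectorSpace).
alpha_i = sum_b y(alpha_(b,i)) kap_b (finite sums). For every phi: 0 = sum_b kap_b y(sum_i alpha_(b,i)
phi_i), so sum_i alpha_(b,i) phi_i = 0 for all b, and alpha = sum_b kap_b y(alpha_b).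
STATEMENT 2. V a Y-subspace of Y^h, alpha in the kap-span of y(V), T a set of indices, alpha_i = 0
for i not in T; then alpha is in the kap-span of y(V cap {supported in T}). PROOF. The same
decomposition: alpha in span y(V) implies alpha_b in V for all b (write alpha = sum_j c_j y(v_j)
and expand the c_j), and alpha_i = 0 implies alpha_(b,i) = 0.
STATEMENT 3 (descent). x, y : K -> kap, V a K-subspace of K^h with x(v) in the kap-span of y(V)
for all v in V. Then V is spanned by its vectors with all coordinates in {f : x f = y f}.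
PROOF. Call 0 <> v in V a circuit if no nonzero vector of V has support properly contained in
the support of v. V is spanned by circuits: induction on the size of the support: for 0 <> v in V
there is a circuit w with supp w in supp v (take one with the least support inside supp v), pick
i in supp w, v - (v_i / w_i) w has smaller support. For a circuit w choose i with w_i <> 0 and
scale: w_i = 1. Then alpha := x(w) - y(w) is in the kap-span of y(V), supported in
T = supp w minus {i}. By STATEMENT 2, if alpha <> 0, some nonzero vector of V is supported in T: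
contradiction. So x(w_j) = y(w_j) for all j.
-/
import Mathlib

namespace Pool.Agent.H24.TU

private theorem la_dec {Y κ : Type*} [Field Y] [Field κ] [Algebra Y κ] {h : Type*} [Fintype h]
    {ι : Type*} (b : Module.Basis ι Y κ) (α : h → κ) (W : Set (h → Y))
    (hW : ∀ k, (fun i => b.repr (α i) k) ∈ W) :
    α ∈ Submodule.span κ ((fun β : h → Y => fun i => algebraMap Y κ (β i)) '' W) := by
  classical
  obtain ⟨S, hS⟩ : ∃ S : Finset ι, S = Finset.univ.biUnion fun i : h => (b.repr (α i)).support :=
    ⟨_, rfl⟩
  have h1 : α = ∑ k ∈ S, (b k) • fun i => algebraMap Y κ (b.repr (α i) k) := by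
    funext i
    rw [Finset.sum_apply]
    have h2 : α i = ∑ k ∈ (b.repr (α i)).support, b.repr (α i) k • b k := by
      conv_lhs => rw [← b.linearCombination_repr (α i)]
      rw [Finsupp.linearCombination_apply, Finsupp.sum]
    have h3 : ∑ k ∈ (b.repr (α i)).support, b.repr (α i) k • b k =
        ∑ k ∈ S, b.repr (α i) k • b k := by
      refine Finset.sum_subset ?_ ?_
      · rw [hS]
        exact Finset.subset_biUnion_of_mem (fun i : h => (b.repr (α i)).support)
          (Finset.mem_univ i)
      · intro k _ hk
        rw [Finsupp.notMem_support_iff.1 hk, zero_smul]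
    rw [h2, h3]
    refine Finset.sum_congr rfl fun k _ => ?_
    rw [Pi.smul_apply, smul_eq_mul, Algebra.smul_def, mul_comm]
  rw [h1]
  exact Submodule.sum_mem _ fun k _ => Submodule.smul_mem _ _
    (Submodule.subset_span ⟨_, hW k, rfl⟩)

theorem span_functionals {Y κ : Type*} [Field Y] [Field κ] (y : Y →+* κ) {h : Type*} [Fintype h]
    (Φ : Set (h → Y)) (α : h → κ) (hα : ∀ φ ∈ Φ, ∑ i, α i * y (φ i) = 0) :
    α ∈ Submodule.span κ ((fun β : h → Y => fun i => y (β i)) ''
      {β | ∀ φ ∈ Φ, ∑ i, β i * φ i = 0}) := by
  let _ : Algebra Y κ := y.toAlgebra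
  obtain ⟨b⟩ : Nonempty (Module.Basis (Module.Basis.ofVectorSpaceIndex Y κ) Y κ) :=
    ⟨Module.Basis.ofVectorSpace Y κ⟩
  refine la_dec b α _ fun k φ hφ => ?_
  have h1 : ∑ i, φ i • α i = 0 := by
    rw [← hα φ hφ]
    refine Finset.sum_congr rfl fun i _ => ?_
    rw [Algebra.smul_def, mul_comm]
    rfl
  have h2 := congrArg (fun z => b.repr z k) h1
  simp only [map_sum, map_smul, map_zero, Finsupp.coe_zero, Pi.zero_apply, Finsupp.coe_finsetSum,
    Finset.sum_apply, Finsupp.smul_apply, smul_eq_mul] at h2
  rw [← h2]
  exact Finset.sum_congr rfl fun i _ => mul_comm _ _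

theorem span_support {Y κ : Type*} [Field Y] [Field κ] (y : Y →+* κ) {h : Type*} [Fintype h]
    (V : Submodule Y (h → Y)) (T : Set h) (α : h → κ)
    (hα : α ∈ Submodule.span κ ((fun β : h → Y => fun i => y (β i)) '' (V : Set (h → Y))))
    (hT : ∀ i, i ∉ T → α i = 0) :
    α ∈ Submodule.span κ ((fun β : h → Y => fun i => y (β i)) ''
      {β | β ∈ V ∧ ∀ i, i ∉ T → β i = 0}) := by
  let _ : Algebra Y κ := y.toAlgebra
  obtain ⟨b⟩ : Nonempty (Module.Basis (Module.Basis.ofVectorSpaceIndex Y κ) Y κ) :=
    ⟨Module.Basis.ofVectorSpace Y κ⟩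
  have h1 : ∀ (c : κ) k, (fun i => b.repr (c * α i) k) ∈ V := by
    clear hT
    induction hα using Submodule.span_induction with
    | mem z hz =>
      obtain ⟨v, hv, rfl⟩ := hz
      intro c k
      have h2 : (fun i => b.repr (c * y (v i)) k) = (b.repr c k) • v := by
        funext i
        have h3 : c * y (v i) = v i • c := by
          rw [Algebra.smul_def, mul_comm]
          rfl
        rw [h3, map_smul, Finsupp.smul_apply, Pi.smul_apply, smul_eq_mul, smul_eq_mul, mul_comm]
      show (fun i => b.repr (c * y (v i)) k) ∈ V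
      rw [h2]
      exact V.smul_mem _ hv
    | zero =>
      intro c k
      have h2 : (fun i : h => b.repr (c * (0 : h → κ) i) k) = 0 := by
        funext i
        simp
      rw [h2]
      exact V.zero_mem
    | add z z' _ _ hz hz' =>
      intro c k
      have h2 : (fun i : h => b.repr (c * (z + z') i) k) =
          (fun i => b.repr (c * z i) k) + fun i => b.repr (c * z' i) k := by
        funext i
        rw [Pi.add_apply, Pi.add_apply, mul_add, map_add, Finsupp.add_apply]
      rw [h2]
      exact V.add_mem (hz c k) (hz' c k)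
    | smul a z _ hz =>
      intro c k
      have h2 : (fun i : h => b.repr (c * (a • z) i) k) = fun i => b.repr (c * a * z i) k := by
        funext i
        rw [Pi.smul_apply, smul_eq_mul, mul_assoc]
      rw [h2]
      exact hz (c * a) k
  refine la_dec b α _ fun k => ⟨?_, fun i hi => ?_⟩
  · have h2 := h1 1 k
    simp only [one_mul] at h2
    exact h2
  · show b.repr (α i) k = 0
    rw [hT i hi, map_zero, Finsupp.zero_apply]

theorem descent {K κ : Type*} [Field K] [Field κ] (x y : K →+* κ) {h : Type*} [Fintype h]
    (V : Submodule K (h → K))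
    (hV : ∀ v ∈ V, (fun i => x (v i)) ∈
      Submodule.span κ ((fun v : h → K => fun i => y (v i)) '' (V : Set (h → K)))) :
    V ≤ Submodule.span K {v | v ∈ V ∧ ∀ i, x (v i) = y (v i)} := by
  classical
  have key : ∀ n : ℕ, ∀ v ∈ V, (Finset.univ.filter fun i => v i ≠ 0).card ≤ n →
      v ∈ Submodule.span K {v | v ∈ V ∧ ∀ i, x (v i) = y (v i)} := by
    intro n
    induction n with
    | zero =>
      intro v _ hn
      have h1 : v = 0 := by
        funext i
        by_contra hi
        have h2 : i ∈ Finset.univ.filter fun i => v i ≠ 0 :=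
          Finset.mem_filter.2 ⟨Finset.mem_univ _, hi⟩
        rw [Finset.card_eq_zero.1 (Nat.le_zero.1 hn)] at h2
        exact absurd h2 (Finset.notMem_empty _)
      rw [h1]
      exact Submodule.zero_mem _
    | succ n ih =>
      intro v hv hn
      by_cases hv0 : v = 0
      · rw [hv0]
        exact Submodule.zero_mem _
      -- a vector of least support
      obtain ⟨m, hm⟩ : ∃ m, m = sInf {m : ℕ | ∃ w ∈ V, w ≠ 0 ∧ (∀ i, w i ≠ 0 → v i ≠ 0) ∧
        (Finset.univ.filter fun i => w i ≠ 0).card = m} := ⟨_, rfl⟩
      have hne : {m : ℕ | ∃ w ∈ V, w ≠ 0 ∧ (∀ i, w i ≠ 0 → v i ≠ 0) ∧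
        (Finset.univ.filter fun i => w i ≠ 0).card = m}.Nonempty :=
        ⟨_, v, hv, hv0, fun _ h => h, rfl⟩
      have hmem := Nat.sInf_mem hne
      rw [← hm] at hmem
      obtain ⟨w, hw, hw0, hwv, hwm⟩ := hmem
      have hmin : ∀ w' ∈ V, w' ≠ 0 → (∀ i, w' i ≠ 0 → v i ≠ 0) →
          m ≤ (Finset.univ.filter fun i => w' i ≠ 0).card := by
        intro w' h1 h2 h3
        rw [hm]
        exact Nat.sInf_le ⟨w', h1, h2, h3, rfl⟩
      obtain ⟨i, hi⟩ : ∃ i, w i ≠ 0 := by
        by_contra h
        push Not at h
        exact hw0 (funext h)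
      obtain ⟨u, hu⟩ : ∃ u : h → K, u = (w i)⁻¹ • w := ⟨_, rfl⟩
      have huV : u ∈ V := by
        rw [hu]
        exact V.smul_mem _ hw
      have hui : u i = 1 := by
        rw [hu, Pi.smul_apply, smul_eq_mul, inv_mul_cancel₀ hi]
      have hu0 : ∀ j, w j = 0 → u j = 0 := by
        intro j hj
        rw [hu, Pi.smul_apply, hj, smul_zero]
      obtain ⟨α, hα⟩ : ∃ α : h → κ, α = (fun j => x (u j)) - fun j => y (u j) := ⟨_, rfl⟩
      have hα1 : α ∈ Submodule.span κ ((fun v : h → K => fun i => y (v i)) '' (V : Set (h → K))) := by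
        rw [hα]
        exact Submodule.sub_mem _ (hV u huV) (Submodule.subset_span ⟨u, huV, rfl⟩)
      have hα2 := span_support y V {j | w j ≠ 0 ∧ j ≠ i} α hα1 (by
        intro j hj
        rw [hα, Pi.sub_apply]
        by_cases hji : j = i
        · rw [hji, hui, map_one, map_one, sub_self]
        · have hwj : w j = 0 := by
            by_contra hwj
            exact hj ⟨hwj, hji⟩
          rw [hu0 j hwj, map_zero, map_zero, sub_self])
      have hα0 : α = 0 := by
        have h1 : Submodule.span κ ((fun β : h → K => fun i => y (β i)) ''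
            {β | β ∈ V ∧ ∀ j, j ∉ {j | w j ≠ 0 ∧ j ≠ i} → β j = 0}) ≤ ⊥ := by
          rw [Submodule.span_le]
          rintro _ ⟨β, ⟨hβ1, hβ2⟩, rfl⟩
          have hβ0 : β = 0 := by
            by_contra hβ
            have h2 := hmin β hβ1 hβ (fun j hj => by
              intro hvj
              have h3 : j ∉ {j | w j ≠ 0 ∧ j ≠ i} := fun h4 => hwv j h4.1 hvj
              exact hj (hβ2 j h3))
            have h3 : (Finset.univ.filter fun j => β j ≠ 0) ⊂
                (Finset.univ.filter fun j => w j ≠ 0) := by
              rw [Finset.ssubset_iff_of_subset]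
              · refine ⟨i, Finset.mem_filter.2 ⟨Finset.mem_univ _, hi⟩, fun h4 => ?_⟩
                exact (Finset.mem_filter.1 h4).2 (hβ2 i fun h5 => h5.2 rfl)
              · intro j hj
                refine Finset.mem_filter.2 ⟨Finset.mem_univ _, fun hwj => ?_⟩
                exact (Finset.mem_filter.1 hj).2 (hβ2 j fun h5 => h5.1 hwj)
            have h4 := Finset.card_lt_card h3
            rw [hwm] at h4
            exact absurd h2 (not_le.2 h4)
          rw [hβ0]
          show (fun i : h => y ((0 : h → K) i)) ∈ (⊥ : Submodule κ (h → κ))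
          rw [Submodule.mem_bot]
          funext j
          exact map_zero y
        exact (Submodule.mem_bot κ).1 (h1 hα2)
      have hxy : ∀ j, x (u j) = y (u j) := by
        intro j
        have h1 := congrFun hα0 j
        rw [hα, Pi.sub_apply, Pi.zero_apply] at h1
        exact sub_eq_zero.1 h1
      have hvi : v i ≠ 0 := hwv i hi
      have h1 := ih (v - v i • u) (V.sub_mem hv (V.smul_mem _ huV)) (by
        have h2 : (Finset.univ.filter fun j => (v - v i • u) j ≠ 0) ⊂
            (Finset.univ.filter fun j => v j ≠ 0) := by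
          rw [Finset.ssubset_iff_of_subset]
          · refine ⟨i, Finset.mem_filter.2 ⟨Finset.mem_univ _, hvi⟩, fun h4 => ?_⟩
            refine (Finset.mem_filter.1 h4).2 ?_
            rw [Pi.sub_apply, Pi.smul_apply, hui, smul_eq_mul, mul_one, sub_self]
          · intro j hj
            refine Finset.mem_filter.2 ⟨Finset.mem_univ _, fun hvj => ?_⟩
            refine (Finset.mem_filter.1 hj).2 ?_
            have hwj : w j = 0 := by
              by_contra hwj
              exact hwv j hwj hvj
            rw [Pi.sub_apply, Pi.smul_apply, hvj, hu0 j hwj, smul_zero, sub_zero]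
        exact Nat.le_of_lt_succ ((Finset.card_lt_card h2).trans_le hn))
      have h2 : v = (v - v i • u) + v i • u := by
        rw [sub_add_cancel]
      rw [h2]
      exact Submodule.add_mem _ h1 (Submodule.smul_mem _ _
        (Submodule.subset_span ⟨huV, hxy⟩))
  exact fun v hv => key _ v hv le_rfl

end Pool.Agent.H24.TU
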