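/-
MP_e49dc9_ag, THEOREM U, module TU/Fld: the field F = {f : x f = y f} (I.10).

Hypotheses: x, y : K -> kap, P = ptI x y, P.map (chg x) <= P.map (chg y), P <= dI k K.
STATEMENT 1 (linIndep_quot). If (f_i) (finite family in K) is linearly independent over F, then the
classes of 1 (x) f_i in R/P are linearly independent over K (left factor).
PROOF. V := {a in K^h : sum a_i (x) f_i in P}, a K-subspace. L' := k-span of the f_i. For a in V:
chg x (sum a_i (x) f_i) = sum x(a_i) (x) f_i is in P.map (chg x) <= P.map (chg y) and in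
L'.baseChange kap, so by mem_span_inter (TU/Comp) it is in the kap-span of chg y of the elements of
P cap L'.baseChange K = {sum b_i (x) f_i : b in V}; the f_i are k-linearly independent (F contains
k), so comparing coefficients x(a) is in the kap-span of y(V). descent (TU/LA): V is spanned by
vectors v with x(v_i) = y(v_i), i.e. v_i in F. If V <> 0 there is such a v <> 0:
sum v_i (x) f_i in P <= dI gives sum v_i f_i = 0 with v_i in F, not all 0: contradiction. So V = 0.
STATEMENT 2 (mem_ptI_eqF). f in F: 1 (x) f - f (x) 1 in P: x(1) y(f) - x(f) y(1) = 0.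
STATEMENT 3 (trdeg_eqF). If trdeg_K (R/P) = 1 then trdeg_F K = 1.
PROOF. (<= 1) if u_1, u_2 in K are algebraically independent over F, the monomials u^alpha are
F-linearly independent, so by STATEMENT 1 the classes of 1 (x) u^alpha are K-linearly independent in
R/P, so the classes of 1 (x) u_1, 1 (x) u_2 are algebraically independent over K: trdeg >= 2.
(>= 1) otherwise K / F is algebraic; every element of R/P is a K-combination of classes of
1 (x) f, f in K, and such a class is algebraic over K: apply the minimal polynomial of f over F and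
STATEMENT 2 (the coefficients phi in F satisfy 1 (x) phi = phi (x) 1 in R/P). So trdeg = 0.
STATEMENT 4 (finrank_span_le). dim_F of the F-span of L_n is at most
dN S P n := dim_K of the image of M_n in R/P. PROOF. Choose an F-basis of the F-span of L_n inside
L_n (exists_linearIndependent / Submodule basis from a spanning set; it is finite since L_n is
finite dimensional over k), apply STATEMENT 1, the classes lie in the image of M_n.
-/
import Pool.Agent.H24.TU.OrdB
import Pool.Agent.H24.TU.LA
import Pool.Agent.H24.TU.Comp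

open scoped TensorProduct

namespace Pool.Agent.H24.TU

universe u

/-- The field of the f with x f = y f. -/
def eqF {k K κ : Type u} [Field k] [Field K] [Field κ] [Algebra k K] [Algebra k κ]
    (x y : K →ₐ[k] κ) : IntermediateField k K where
  carrier := {f | x f = y f}
  mul_mem' := by
    intro a b ha hb
    simp only [Set.mem_setOf_eq] at *
    rw [map_mul, map_mul, ha, hb]
  add_mem' := by
    intro a b ha hb
    simp only [Set.mem_setOf_eq] at *
    rw [map_add, map_add, ha, hb]
  algebraMap_mem' := by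
    intro r
    simp only [Set.mem_setOf_eq, AlgHom.commutes]
  inv_mem' := by
    intro a ha
    simp only [Set.mem_setOf_eq] at *
    rw [map_inv₀, map_inv₀, ha]

/-- dim_K of the image of M_n in R / P. -/
noncomputable def dN {k K : Type u} [Field k] [Field K] [Algebra k K] (S : GSys k K)
    (P : Ideal (K ⊗[k] K)) (n : ℕ) : ℕ :=
  Module.finrank K ((S.M K n).map (Ideal.Quotient.mkₐ K P).toLinearMap)

variable {k K κ : Type u} [Field k] [Field K] [Field κ] [Algebra k K] [Algebra k κ]

private theorem fl_repr {X : Type u} [Field X] [Algebra k X] {ι : Type*} [Fintype ι] (b : ι → K)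
    {u : X ⊗[k] K} (hu : u ∈ (Submodule.span k (Set.range b)).baseChange X) :
    ∃ α : ι → X, u = ∑ i, α i ⊗ₜ[k] b i := by
  rw [Submodule.baseChange_span, ← Set.range_comp] at hu
  obtain ⟨c, hc⟩ := (Submodule.mem_span_range_iff_exists_fun X).1 hu
  refine ⟨c, ?_⟩
  rw [← hc]
  refine Finset.sum_congr rfl fun i _ => ?_
  simp [TensorProduct.smul_tmul']

private theorem fl_smul {X : Type u} [Field X] [Algebra k X] (c : X) (v : X ⊗[k] K) :
    c • v = (c ⊗ₜ[k] (1 : K)) * v := by
  rw [Algebra.smul_def, Algebra.TensorProduct.algebraMap_apply]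
  rfl

theorem linIndep_quot (x y : K →ₐ[k] κ)
    (hle : (ptI x y).map (chg K x) ≤ (ptI x y).map (chg K y)) (hPI : ptI x y ≤ dI k K)
    {ι : Type*} [Finite ι] (f : ι → K) (hf : LinearIndependent (eqF x y) f) :
    LinearIndependent K (fun i => Ideal.Quotient.mk (ptI x y) ((1 : K) ⊗ₜ[k] f i)) := by
  classical
  cases nonempty_fintype ι
  have hfk : LinearIndependent k f := by
    have h := hf.restrict_scalars (R := k) (by
      intro a b hab
      have h1 : algebraMap k (eqF x y) a = algebraMap k (eqF x y) b := by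
        simpa [Algebra.smul_def] using hab
      exact (algebraMap k (eqF x y)).injective h1)
    exact h
  let V : Submodule K (ι → K) :=
    { carrier := {a | ∑ i, a i ⊗ₜ[k] f i ∈ ptI x y}
      add_mem' := by
        intro a b ha hb
        show ∑ i, (a + b) i ⊗ₜ[k] f i ∈ ptI x y
        have h : ∑ i, (a + b) i ⊗ₜ[k] f i = ∑ i, a i ⊗ₜ[k] f i + ∑ i, b i ⊗ₜ[k] f i := by
          rw [← Finset.sum_add_distrib]
          exact Finset.sum_congr rfl fun i _ => by rw [Pi.add_apply, TensorProduct.add_tmul]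
        rw [h]
        exact Ideal.add_mem _ ha hb
      zero_mem' := by
        show ∑ i, (0 : ι → K) i ⊗ₜ[k] f i ∈ ptI x y
        simp
      smul_mem' := by
        intro c a ha
        show ∑ i, (c • a) i ⊗ₜ[k] f i ∈ ptI x y
        have h : ∑ i, (c • a) i ⊗ₜ[k] f i = (c ⊗ₜ[k] (1 : K)) * ∑ i, a i ⊗ₜ[k] f i := by
          rw [Finset.mul_sum]
          refine Finset.sum_congr rfl fun i _ => ?_
          rw [Algebra.TensorProduct.tmul_mul_tmul, one_mul, Pi.smul_apply, smul_eq_mul]
        rw [h]
        exact Ideal.mul_mem_left _ _ ha }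
  have hVm : ∀ a : ι → K, a ∈ V ↔ ∑ i, a i ⊗ₜ[k] f i ∈ ptI x y := fun a => Iff.rfl
  let T : (ι → κ) →ₗ[κ] κ ⊗[k] K :=
    Fintype.linearCombination κ (fun i => (1 : κ) ⊗ₜ[k] f i)
  have hT : ∀ γ : ι → κ, T γ = ∑ i, γ i ⊗ₜ[k] f i := by
    intro γ
    show ∑ i, γ i • ((1 : κ) ⊗ₜ[k] f i) = _
    refine Finset.sum_congr rfl fun i _ => ?_
    simp [TensorProduct.smul_tmul']
  have hTi : Function.Injective T := by
    have h1 : LinearIndependent κ (fun i => (1 : κ) ⊗ₜ[k] f i) :=
      Module.Flat.linearIndependent_one_tmul hfk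
    exact (injective_iff_map_eq_zero T).2 fun γ hγ => funext (Fintype.linearIndependent_iff.1 h1 γ hγ)
  have hV : ∀ v ∈ V, (fun i => x (v i)) ∈
      Submodule.span κ ((fun v : ι → K => fun i => y (v i)) '' (V : Set (ι → K))) := by
    intro v hv
    have h1 : chg K x (∑ i, v i ⊗ₜ[k] f i) = T (fun i => x (v i)) := by
      rw [hT, map_sum]
      exact Finset.sum_congr rfl fun i _ => chg_tmul _ _ _
    have h2 : chg K x (∑ i, v i ⊗ₜ[k] f i) ∈ (ptI x y).map (chg K y) :=
      hle (Ideal.mem_map_of_mem _ hv)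
    have h3 : chg K x (∑ i, v i ⊗ₜ[k] f i) ∈
        (Submodule.span k (Set.range f)).baseChange κ := by
      rw [h1, hT]
      exact Submodule.sum_mem _ fun i _ => Submodule.tmul_mem_baseChange_of_mem _
        (Submodule.subset_span ⟨i, rfl⟩)
    have h4 := mem_span_inter y (ptI x y) _ h2 h3
    have h5 : Submodule.span κ (chg K y '' {g | g ∈ ptI x y ∧
        g ∈ (Submodule.span k (Set.range f)).baseChange K}) ≤
        Submodule.map T (Submodule.span κ
          ((fun v : ι → K => fun i => y (v i)) '' (V : Set (ι → K)))) := by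
      rw [Submodule.span_le]
      rintro _ ⟨g, ⟨hg1, hg2⟩, rfl⟩
      obtain ⟨β, rfl⟩ := fl_repr f hg2
      refine ⟨fun i => y (β i), Submodule.subset_span ⟨β, hg1, rfl⟩, ?_⟩
      rw [hT, map_sum]
      exact Finset.sum_congr rfl fun i _ => (chg_tmul _ _ _).symm
    obtain ⟨w, hw, hw2⟩ := h5 h4
    rw [h1] at hw2
    rw [← hTi hw2]
    exact hw
  have hV0 : V ≤ ⊥ := by
    refine (descent x.toRingHom y.toRingHom V hV).trans ?_
    rw [Submodule.span_le]
    rintro v ⟨hv, hxy⟩
    show v = 0
    have h1 : ∑ i, v i ⊗ₜ[k] f i ∈ dI k K := hPI hv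
    unfold dI at h1
    rw [mem_ptI, map_sum] at h1
    have h2 : ∑ i, (⟨v i, hxy i⟩ : eqF x y) • f i = 0 := by
      rw [← h1]
      refine Finset.sum_congr rfl fun i _ => ?_
      rw [pt_tmul]
      rfl
    have h3 := Fintype.linearIndependent_iff.1 hf _ h2
    funext i
    exact congrArg Subtype.val (h3 i)
  rw [Fintype.linearIndependent_iff]
  intro a ha
  have h1 : a ∈ V := by
    rw [hVm, ← Ideal.Quotient.eq_zero_iff_mem, ← ha, map_sum]
    refine Finset.sum_congr rfl fun i _ => ?_
    have h2 : a i ⊗ₜ[k] f i = a i • ((1 : K) ⊗ₜ[k] f i) := by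
      simp [TensorProduct.smul_tmul']
    rw [h2]
    rfl
  have h2 : a = 0 := hV0 h1
  intro i
  rw [h2]
  rfl

theorem mem_ptI_eqF (x y : K →ₐ[k] κ) {f : K} (hf : f ∈ eqF x y) :
    (1 : K) ⊗ₜ[k] f - f ⊗ₜ[k] (1 : K) ∈ ptI x y := by
  have h : x f = y f := hf
  rw [mem_ptI, map_sub, pt_tmul, pt_tmul, map_one, map_one, one_mul, mul_one, h, sub_self]

private theorem fl_lin (x y : K →ₐ[k] κ)
    (hle : (ptI x y).map (chg K x) ≤ (ptI x y).map (chg K y)) (hPI : ptI x y ≤ dI k K)
    {ι : Type*} (f : ι → K) (hf : LinearIndependent (eqF x y) f) :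
    LinearIndependent K (fun i => Ideal.Quotient.mk (ptI x y) ((1 : K) ⊗ₜ[k] f i)) := by
  rw [linearIndependent_iff_finset_linearIndependent]
  intro s
  exact linIndep_quot x y hle hPI (fun i : s => f i) (hf.comp _ Subtype.val_injective)

/-- The right factor in the quotient. -/
private noncomputable def fl_rho (P : Ideal (K ⊗[k] K)) : K →+* ((K ⊗[k] K) ⧸ P) :=
  (Ideal.Quotient.mk P).comp (Algebra.TensorProduct.includeRight : K →ₐ[k] K ⊗[k] K).toRingHom

private theorem fl_rho_apply (P : Ideal (K ⊗[k] K)) (f : K) :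
    fl_rho P f = Ideal.Quotient.mk P ((1 : K) ⊗ₜ[k] f) := rfl

private theorem fl_rho_F (x y : K →ₐ[k] κ) {f : K} (hf : f ∈ eqF x y) :
    fl_rho (ptI x y) f = algebraMap K ((K ⊗[k] K) ⧸ ptI x y) f := by
  rw [fl_rho_apply]
  exact (Ideal.Quotient.eq).2 (mem_ptI_eqF x y hf)

private theorem fl_algInd (x y : K →ₐ[k] κ)
    (hle : (ptI x y).map (chg K x) ≤ (ptI x y).map (chg K y)) (hPI : ptI x y ≤ dI k K)
    {ι : Type*} (u : ι → K) (hu : AlgebraicIndependent (eqF x y) u) :
    AlgebraicIndependent K (fun i => fl_rho (ptI x y) (u i)) := by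
  have h1 : LinearIndependent (eqF x y) (fun m : ι →₀ ℕ => m.prod fun i n => u i ^ n) := by
    have h2 := (MvPolynomial.basisMonomials ι (eqF x y)).linearIndependent.map'
      (MvPolynomial.aeval u : MvPolynomial ι (eqF x y) →ₐ[eqF x y] K).toLinearMap
      (LinearMap.ker_eq_bot.2 hu)
    have h3 : (⇑(MvPolynomial.aeval u : MvPolynomial ι (eqF x y) →ₐ[eqF x y] K).toLinearMap ∘
        ⇑(MvPolynomial.basisMonomials ι (eqF x y))) =
        fun m : ι →₀ ℕ => m.prod fun i n => u i ^ n := by
      funext m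
      rw [Function.comp_apply, MvPolynomial.coe_basisMonomials]
      show MvPolynomial.aeval u (MvPolynomial.monomial m 1) = _
      rw [MvPolynomial.aeval_monomial, map_one, one_mul]
    rwa [h3] at h2
  have h2 := fl_lin x y hle hPI _ h1
  show Function.Injective (MvPolynomial.aeval fun i => fl_rho (ptI x y) (u i))
  rw [injective_iff_map_eq_zero]
  intro p hp
  have h3 : ∑ m ∈ p.support, p.coeff m •
      Ideal.Quotient.mk (ptI x y) ((1 : K) ⊗ₜ[k] (m.prod fun i n => u i ^ n)) = 0 := by
    rw [← hp, MvPolynomial.aeval_def, MvPolynomial.eval₂_eq]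
    refine Finset.sum_congr rfl fun m _ => ?_
    rw [← fl_rho_apply]
    refine (Algebra.smul_def (p.coeff m)
      (fl_rho (ptI x y) (m.prod fun i n => u i ^ n))).trans ?_
    rw [Finsupp.prod, map_prod]
    congr 1
    exact Finset.prod_congr rfl fun i _ => map_pow _ _ _
  have h4 := linearIndependent_iff'.1 h2 p.support (fun m => p.coeff m) h3
  ext m
  by_cases hm : m ∈ p.support
  · exact h4 m hm
  · rw [MvPolynomial.notMem_support_iff.1 hm, MvPolynomial.coeff_zero]

private theorem fl_alg (x y : K →ₐ[k] κ) {ι : Type*} (u : ι → K)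
    (hu : Algebra.IsAlgebraic (Algebra.adjoin (eqF x y) (Set.range u)) K) :
    Algebra.IsAlgebraic (Algebra.adjoin K (Set.range fun i => fl_rho (ptI x y) (u i)))
      ((K ⊗[k] K) ⧸ ptI x y) := by
  have : IsDomain ((K ⊗[k] K) ⧸ ptI x y) := Ideal.Quotient.isDomain _
  have hmem : ∀ a ∈ Algebra.adjoin (eqF x y) (Set.range u),
      fl_rho (ptI x y) a ∈ Algebra.adjoin K (Set.range fun i => fl_rho (ptI x y) (u i)) := by
    intro a ha
    induction ha using Algebra.adjoin_induction with
    | mem a ha =>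
      obtain ⟨i, rfl⟩ := ha
      exact Algebra.subset_adjoin ⟨i, rfl⟩
    | algebraMap φ =>
      have h := fl_rho_F x y φ.2
      have h1 : algebraMap (eqF x y) K φ = (φ : K) := rfl
      rw [h1, h]
      exact Subalgebra.algebraMap_mem _ _
    | add a b _ _ ha hb => rw [map_add]; exact Subalgebra.add_mem _ ha hb
    | mul a b _ _ ha hb => rw [map_mul]; exact Subalgebra.mul_mem _ ha hb
  let θ : Algebra.adjoin (eqF x y) (Set.range u) →+*
      Algebra.adjoin K (Set.range fun i => fl_rho (ptI x y) (u i)) :=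
    ((fl_rho (ptI x y)).comp (algebraMap (Algebra.adjoin (eqF x y) (Set.range u)) K)).codRestrict
      (Algebra.adjoin K (Set.range fun i => fl_rho (ptI x y) (u i))) (fun a => hmem a a.2)
  have hθ : (algebraMap (Algebra.adjoin K (Set.range fun i => fl_rho (ptI x y) (u i)))
      ((K ⊗[k] K) ⧸ ptI x y)).comp θ =
      (fl_rho (ptI x y)).comp (algebraMap (Algebra.adjoin (eqF x y) (Set.range u)) K) := by
    ext a
    rfl
  have hθi : Function.Injective θ := by
    intro a b hab
    have h1 := congrArg (algebraMap (Algebra.adjoin K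
      (Set.range fun i => fl_rho (ptI x y) (u i))) ((K ⊗[k] K) ⧸ ptI x y)) hab
    have h2 : fl_rho (ptI x y) (a : K) = fl_rho (ptI x y) (b : K) := h1
    exact Subtype.ext ((fl_rho (ptI x y)).injective h2)
  have hr : ∀ f : K, IsAlgebraic
      (Algebra.adjoin K (Set.range fun i => fl_rho (ptI x y) (u i))) (fl_rho (ptI x y) f) := by
    intro f
    obtain ⟨q, hq, hq0⟩ := hu.isAlgebraic f
    refine ⟨q.map θ, (Polynomial.map_ne_zero_iff hθi).2 hq, ?_⟩
    rw [Polynomial.aeval_def, Polynomial.eval₂_map, hθ, ← Polynomial.hom_eval₂]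
    rw [Polynomial.aeval_def] at hq0
    rw [hq0, map_zero]
  constructor
  intro z
  obtain ⟨t, rfl⟩ := Ideal.Quotient.mk_surjective z
  have key : Ideal.Quotient.mk (ptI x y) t ∈ Subalgebra.algebraicClosure
      (Algebra.adjoin K (Set.range fun i => fl_rho (ptI x y) (u i)))
      ((K ⊗[k] K) ⧸ ptI x y) := by
    induction t using TensorProduct.induction_on with
    | zero => rw [map_zero]; exact Subalgebra.zero_mem _
    | add a b ha hb => rw [map_add]; exact Subalgebra.add_mem _ ha hb
    | tmul a f =>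
      have h1 : Ideal.Quotient.mk (ptI x y) (a ⊗ₜ[k] f) =
          algebraMap K ((K ⊗[k] K) ⧸ ptI x y) a * fl_rho (ptI x y) f := by
        have h2 : (a ⊗ₜ[k] f : K ⊗[k] K) = (a ⊗ₜ[k] (1 : K)) * ((1 : K) ⊗ₜ[k] f) := by
          rw [Algebra.TensorProduct.tmul_mul_tmul, one_mul, mul_one]
        rw [h2, map_mul]
        rfl
      rw [h1]
      refine Subalgebra.mul_mem _ ?_ (hr f)
      exact Subalgebra.algebraMap_mem (Subalgebra.algebraicClosure
        (Algebra.adjoin K (Set.range fun i => fl_rho (ptI x y) (u i)))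
        ((K ⊗[k] K) ⧸ ptI x y)) (⟨_, Subalgebra.algebraMap_mem _ a⟩ :
        Algebra.adjoin K (Set.range fun i => fl_rho (ptI x y) (u i)))
  exact key

theorem trdeg_eqF (x y : K →ₐ[k] κ)
    (hle : (ptI x y).map (chg K x) ≤ (ptI x y).map (chg K y)) (hPI : ptI x y ≤ dI k K)
    (htr : Algebra.trdeg K ((K ⊗[k] K) ⧸ ptI x y) = 1) : Algebra.trdeg (eqF x y) K = 1 := by
  have : IsDomain ((K ⊗[k] K) ⧸ ptI x y) := Ideal.Quotient.isDomain _
  obtain ⟨s, hs⟩ := exists_isTranscendenceBasis (eqF x y) K
  have h1 : IsTranscendenceBasis K (fun i : s => fl_rho (ptI x y) (i : K)) :=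
    isTranscendenceBasis_iff_algebraicIndependent_isAlgebraic.2
      ⟨fl_algInd x y hle hPI _ hs.1, fl_alg x y _ hs.isAlgebraic⟩
  rw [← hs.cardinalMk_eq_trdeg, h1.cardinalMk_eq_trdeg, htr]

theorem finrank_span_le (S : GSys k K) (x y : K →ₐ[k] κ)
    (hle : (ptI x y).map (chg K x) ≤ (ptI x y).map (chg K y)) (hPI : ptI x y ≤ dI k K) (n : ℕ) :
    Module.finrank (eqF x y) (Submodule.span (eqF x y) (S.L n : Set K)) ≤ dN S (ptI x y) n := by
  classical
  obtain ⟨b, hb, hsp, hli⟩ := exists_linearIndependent (eqF x y) (S.L n : Set K)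
  have := M_finite (X := K) S n
  have h1 := fl_lin x y hle hPI _ hli
  have hmem : ∀ i : b, Ideal.Quotient.mk (ptI x y) ((1 : K) ⊗ₜ[k] (i : K)) ∈
      (S.M K n).map (Ideal.Quotient.mkₐ K (ptI x y)).toLinearMap := by
    intro i
    exact ⟨(1 : K) ⊗ₜ[k] (i : K), M_tmul S 1 (hb i.2), rfl⟩
  let g : b → (S.M K n).map (Ideal.Quotient.mkₐ K (ptI x y)).toLinearMap := fun i => ⟨_, hmem i⟩
  have hg : LinearIndependent K g := LinearIndependent.of_comp
    ((S.M K n).map (Ideal.Quotient.mkₐ K (ptI x y)).toLinearMap).subtype h1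
  have : Module.Finite K ((S.M K n).map (Ideal.Quotient.mkₐ K (ptI x y)).toLinearMap) :=
    Module.Finite.map _ _
  have : Finite b := hg.finite
  have : Fintype b := Fintype.ofFinite b
  have h2 := hg.fintype_card_le_finrank
  rw [← hsp]
  have h3 := finrank_span_eq_card hli
  rw [Subtype.range_coe] at h3
  rw [h3]
  exact h2

end Pool.Agent.H24.TU
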