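/-
MP_e49dc9_ag, THEOREM U, module TU/Len: lower bound for the length of R_P / J R_P.

P a prime of R = K (x)_k K, C coordinates with p_i := 1 (x) c_i - c_i (x) 1 in P for i = 0, 1, J an ideal
all of whose elements have order >= n at P. Then length (R_P / J R_P) >= C(n+1, 2).
PROOF. Put D_i = dK (C.d i), so D_i p_j = 1 if i = j, else 0 (i, j in {0,1}). Enumerate the
L = C(n+1,2) monomials q = p_0^a p_1^b with a + b < n, larger degree a + b first: q_1, .., q_L. The
ideals B_t = J R_P + (q_1, .., q_t) of R_P, t = 0, .., L, form a strictly increasing chain, so the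
length is at least L (Module.length is the supremum of lengths of chains of submodules; or
additivity). Strictness: if q_t = p_0^a p_1^b were in B_(t-1), then for some s not in P
s q_t = j + sum_(l < t) r_l q_l in R, j in J. Apply D_0^a D_1^b and reduce modulo P (fact: OrdGE P m g
implies that every word of length < m in the D_i sends g into P; and p_0^a' p_1^b' has order
>= a' + b' (OrdGE_mul, TU/OrdB)): the left side gives s a! b! (Leibniz: D_0^a D_1^b (s q) = s
D_0^a D_1^b q modulo P, since all other terms differentiate q less than a + b times), j gives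
0 (a + b < n), q_l of larger degree gives 0, q_l of the same degree but different exponents gives
r_l D_0^a D_1^b (p_0^a' p_1^b') = 0. So s a! b! in P: contradiction (char 0, s not in P).
ALTERNATIVE (maybe easier): for m < n consider f_m = {order >= m} (ordIdeal) and the R-linear map
f_m -> (R/P)^(m+1), g -> (D_0^(m-b) D_1^b g mod P)_b, which kills f_(m+1) and maps the monomials
p_0^(m-b) p_1^b to nonzero multiples of the unit vectors.
-/
import Pool.Agent.H24.TU.OrdB

open scoped TensorProduct

namespace Pool.Agent.H24.TU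

universe u

variable {k K : Type u} [Field k] [CharZero k] [Field K] [Algebra k K]

/-! ### Length of quotients of a ring -/

private theorem length_quot_le {O : Type u} [CommRing O] {A B : Ideal O} (h : A ≤ B) :
    Module.length O (O ⧸ B) ≤ Module.length O (O ⧸ A) :=
  Module.length_le_of_surjective (Submodule.factor h) (Submodule.factor_surjective h)

private theorem length_quot_lt {O : Type u} [CommRing O] {A B : Ideal O} (h : A < B) :
    Module.length O (O ⧸ B) + 1 ≤ Module.length O (O ⧸ A) := by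
  have h1 := Module.length_eq_add_of_exact
    (LinearMap.ker (Submodule.factor h.le)).subtype (Submodule.factor h.le)
    (Submodule.subtype_injective _) (Submodule.factor_surjective h.le)
    (LinearMap.exact_subtype_ker_map _)
  obtain ⟨x, hxB, hxA⟩ := SetLike.exists_of_lt h
  have h2 : Nontrivial (LinearMap.ker (Submodule.factor h.le)) := by
    have hx : Submodule.mkQ A x ∈ LinearMap.ker (Submodule.factor h.le) := by
      rw [LinearMap.mem_ker, Submodule.factor_mk]
      exact (Submodule.Quotient.mk_eq_zero B).2 hxB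
    refine ⟨⟨⟨Submodule.mkQ A x, hx⟩, 0, ?_⟩⟩
    intro h0
    have h3 : Submodule.mkQ A x = 0 := congrArg Subtype.val h0
    exact hxA ((Submodule.Quotient.mk_eq_zero A).1 h3)
  have h3 : 1 ≤ Module.length O (LinearMap.ker (Submodule.factor h.le)) := by
    exact Order.one_le_iff_pos.2 Module.length_pos
  rw [h1, add_comm]
  exact add_le_add h3 le_rfl

/-! ### Iterated derivations -/

private theorem ord_iter {Q : Ideal (K ⊗[k] K)} (δ : Derivation k K K) (m j : ℕ)
    {g : K ⊗[k] K} (h : OrdGE Q (m + j) g) : OrdGE Q m ((dK K δ)^[j] g) := by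
  induction j generalizing m with
  | zero => exact h
  | succ j ih =>
    rw [Function.iterate_succ_apply']
    have h1 : OrdGE Q (m + 1) ((dK K δ)^[j] g) := ih (m + 1) (by
      have e : m + 1 + j = m + (j + 1) := by ring
      rw [e]
      exact h)
    exact h1.2 δ

private theorem ord_leib {Q : Ideal (K ⊗[k] K)} (δ : Derivation k K K) (s : K ⊗[k] K) (m j : ℕ)
    {g : K ⊗[k] K} (h : OrdGE Q (m + j) g) :
    OrdGE Q (m + 1) ((dK K δ)^[j] (s * g) - s * (dK K δ)^[j] g) := by
  induction j generalizing m with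
  | zero =>
    simp only [Function.iterate_zero, id_eq, sub_self]
    exact OrdGE_zero _
  | succ j ih =>
    have e : m + 1 + j = m + (j + 1) := by ring
    have h0 : OrdGE Q (m + 1 + j) g := by rw [e]; exact h
    have h1 := (ih (m + 1) h0).2 δ
    have h2 : OrdGE Q (m + 1) ((dK K δ)^[j] g) := ord_iter δ (m + 1) j h0
    have h3 : OrdGE Q (m + 1) (dK K δ s * (dK K δ)^[j] g) := OrdGE_mul_left _ h2
    have h4 := OrdGE_add h1 h3
    rw [Function.iterate_succ_apply', Function.iterate_succ_apply']
    rw [map_sub, Derivation.leibniz, smul_eq_mul, smul_eq_mul] at h4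
    have e2 : dK K δ ((dK K δ)^[j] (s * g)) - (s * dK K δ ((dK K δ)^[j] g) +
        (dK K δ)^[j] g * dK K δ s) + dK K δ s * (dK K δ)^[j] g =
        dK K δ ((dK K δ)^[j] (s * g)) - s * dK K δ ((dK K δ)^[j] g) := by ring
    rw [e2] at h4
    exact h4

/-- the word `D_0^a D_1^b` -/
private noncomputable def Wd (C : Coord k K) (a b : ℕ) (g : K ⊗[k] K) : K ⊗[k] K :=
  (dK K (C.d 0))^[a] ((dK K (C.d 1))^[b] g)

private theorem wd_add (C : Coord k K) (a b : ℕ) (g h : K ⊗[k] K) :
    Wd C a b (g + h) = Wd C a b g + Wd C a b h := by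
  have h1 : ∀ (δ : Derivation k K K) (j : ℕ) (g h : K ⊗[k] K),
      (dK K δ)^[j] (g + h) = (dK K δ)^[j] g + (dK K δ)^[j] h := by
    intro δ j g h
    induction j with
    | zero => rfl
    | succ j ih =>
      rw [Function.iterate_succ_apply', Function.iterate_succ_apply',
        Function.iterate_succ_apply', ih, map_add]
  unfold Wd
  rw [h1, h1]

private theorem wd_zero (C : Coord k K) (a b : ℕ) : Wd C a b (0 : K ⊗[k] K) = 0 := by
  have h1 := wd_add C a b 0 0
  rw [add_zero] at h1
  exact left_eq_add.mp h1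

private theorem wd_mem {Q : Ideal (K ⊗[k] K)} (C : Coord k K) {a b m : ℕ} (h : a + b < m)
    {g : K ⊗[k] K} (hg : OrdGE Q m g) : Wd C a b g ∈ Q := by
  have h1 : OrdGE Q (1 + a + b) g := OrdGE_mono (by omega) hg
  exact (ord_iter (C.d 0) 1 a (ord_iter (C.d 1) (1 + a) b h1) : OrdGE Q 1 _).1

private theorem wd_mul {Q : Ideal (K ⊗[k] K)} (C : Coord k K) {a b : ℕ} (s : K ⊗[k] K)
    {g : K ⊗[k] K} (hg : OrdGE Q (a + b) g) :
    Wd C a b (s * g) - s * Wd C a b g ∈ Q := by
  have h1 := ord_leib (C.d 1) s a b hg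
  have h2 : OrdGE Q a ((dK K (C.d 1))^[b] g) := ord_iter (C.d 1) a b hg
  have h3 := ord_leib (C.d 0) s 0 a (by rw [zero_add]; exact h2 : OrdGE Q (0 + a) _)
  have h4 : OrdGE Q 1 ((dK K (C.d 0))^[a] ((dK K (C.d 1))^[b] (s * g) -
      s * (dK K (C.d 1))^[b] g)) := ord_iter (C.d 0) 1 a (by
    rw [add_comm 1 a]
    exact h1)
  have h5 : Wd C a b (s * g) = (dK K (C.d 0))^[a] ((dK K (C.d 1))^[b] (s * g) -
      s * (dK K (C.d 1))^[b] g) + (dK K (C.d 0))^[a] (s * (dK K (C.d 1))^[b] g) := by
    have := wd_add C a 0 ((dK K (C.d 1))^[b] (s * g) - s * (dK K (C.d 1))^[b] g)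
      (s * (dK K (C.d 1))^[b] g)
    rw [sub_add_cancel] at this
    exact this
  have h6 : Wd C a b (s * g) - s * Wd C a b g = (dK K (C.d 0))^[a] ((dK K (C.d 1))^[b] (s * g) -
      s * (dK K (C.d 1))^[b] g) + ((dK K (C.d 0))^[a] (s * (dK K (C.d 1))^[b] g) -
        s * (dK K (C.d 0))^[a] ((dK K (C.d 1))^[b] g)) := by
    rw [h5]
    unfold Wd
    ring
  rw [h6]
  exact Q.add_mem h4.1 h3.1

private theorem iter_pow (δ : Derivation k K K) (c x : K ⊗[k] K) (hc : dK K δ c = 0)
    (hx : dK K δ x = 1) (n b : ℕ) :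
    (dK K δ)^[b] (c * x ^ n) = (n.descFactorial b : K ⊗[k] K) * (c * x ^ (n - b)) := by
  induction b with
  | zero => simp
  | succ b ih =>
    rw [Function.iterate_succ_apply', ih, Derivation.leibniz, Derivation.leibniz,
      Derivation.leibniz_pow, hc, hx, Derivation.map_natCast, Nat.descFactorial_succ]
    simp only [smul_eq_mul, nsmul_eq_mul, mul_zero, add_zero, mul_one, Nat.cast_mul]
    have e : n - b - 1 = n - (b + 1) := by omega
    rw [e]
    ring

/-- the two local parameters -/
private noncomputable def pr (C : Coord k K) (i : Fin 3) : K ⊗[k] K :=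
  (1 : K) ⊗ₜ[k] C.c i - C.c i ⊗ₜ[k] (1 : K)

private theorem dK_pr (C : Coord k K) (i j : Fin 3) :
    dK K (C.d i) (pr C j) = if i = j then 1 else 0 := by
  unfold pr
  rw [map_sub, dK_tmul, dK_tmul, C.dual, Derivation.map_one_eq_zero, TensorProduct.tmul_zero,
    sub_zero]
  by_cases h : i = j
  · rw [if_pos h, if_pos h]
    rfl
  · rw [if_neg h, if_neg h, TensorProduct.tmul_zero]

private theorem dK_pr_pow (C : Coord k K) (i j : Fin 3) (h : i ≠ j) (n : ℕ) :
    dK K (C.d i) (pr C j ^ n) = 0 := by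
  rw [Derivation.leibniz_pow, dK_pr, if_neg h, smul_zero, smul_zero]

private theorem wd_mono (C : Coord k K) (a b a' b' : ℕ) :
    Wd C a b (pr C 0 ^ a' * pr C 1 ^ b') = (b'.descFactorial b : K ⊗[k] K) *
      ((a'.descFactorial a : K ⊗[k] K) * (pr C 1 ^ (b' - b) * pr C 0 ^ (a' - a))) := by
  unfold Wd
  rw [iter_pow (C.d 1) (pr C 0 ^ a') (pr C 1) (dK_pr_pow C 1 0 (by decide) a')
    (by rw [dK_pr, if_pos rfl])]
  have e : (b'.descFactorial b : K ⊗[k] K) * (pr C 0 ^ a' * pr C 1 ^ (b' - b)) =
      ((b'.descFactorial b : K ⊗[k] K) * pr C 1 ^ (b' - b)) * pr C 0 ^ a' := by ring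
  rw [e, iter_pow (C.d 0) ((b'.descFactorial b : K ⊗[k] K) * pr C 1 ^ (b' - b)) (pr C 0) ?_
    (by rw [dK_pr, if_pos rfl])]
  · ring
  · rw [Derivation.leibniz, dK_pr_pow C 0 1 (by decide), Derivation.map_natCast, smul_zero,
      smul_zero, add_zero]

private theorem ord_pr_pow {Q : Ideal (K ⊗[k] K)} (C : Coord k K) (i : Fin 3) (h : pr C i ∈ Q)
    (n : ℕ) : OrdGE Q n (pr C i ^ n) := by
  induction n with
  | zero => trivial
  | succ n ih =>
    rw [pow_succ]
    exact OrdGE_mul ih ⟨h, fun _ => trivial⟩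

/-- the ideals of the chain -/
private noncomputable def Ic (C : Coord k K) (P : Ideal (K ⊗[k] K)) (m b : ℕ) :
    Ideal (K ⊗[k] K) where
  carrier := {g | OrdGE P m g ∧ ∀ c < b, c ≤ m → Wd C (m - c) c g ∈ P}
  add_mem' := by
    rintro x y ⟨hx, hx'⟩ ⟨hy, hy'⟩
    refine ⟨OrdGE_add hx hy, fun c hc hcm => ?_⟩
    rw [wd_add]
    exact P.add_mem (hx' c hc hcm) (hy' c hc hcm)
  zero_mem' := ⟨OrdGE_zero m, fun c _ _ => by rw [wd_zero]; exact P.zero_mem⟩
  smul_mem' := by
    rintro s x ⟨hx, hx'⟩
    refine ⟨OrdGE_mul_left s hx, fun c hc hcm => ?_⟩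
    rw [smul_eq_mul]
    have h1 := wd_mul (Q := P) C (a := m - c) (b := c) s (by
      rw [Nat.sub_add_cancel hcm]
      exact hx)
    have h2 := P.add_mem h1 (P.mul_mem_left s (hx' c hc hcm))
    rwa [sub_add_cancel] at h2

theorem length_ge (C : Coord k K) (P : Ideal (K ⊗[k] K)) [hP : P.IsPrime]
    (h0 : (1 : K) ⊗ₜ[k] C.c 0 - C.c 0 ⊗ₜ[k] (1 : K) ∈ P)
    (h1 : (1 : K) ⊗ₜ[k] C.c 1 - C.c 1 ⊗ₜ[k] (1 : K) ∈ P)
    (J : Ideal (K ⊗[k] K)) (n : ℕ) (hJ : ∀ g ∈ J, OrdGE P n g) :
    (((n + 1).choose 2 : ℕ) : ℕ∞) ≤ Module.length (Localization.AtPrime P)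
      (Localization.AtPrime P ⧸ J.map (algebraMap (K ⊗[k] K) (Localization.AtPrime P))) := by
  have hstrict : ∀ m b : ℕ, b ≤ m →
      (Ic C P m (b + 1)).map (algebraMap (K ⊗[k] K) (Localization.AtPrime P)) <
        (Ic C P m b).map (algebraMap (K ⊗[k] K) (Localization.AtPrime P)) := by
    intro m b hb
    have hle : Ic C P m (b + 1) ≤ Ic C P m b := by
      rintro g ⟨hg, hg'⟩
      exact ⟨hg, fun c hc hcm => hg' c (by omega) hcm⟩
    refine lt_of_le_of_ne (Ideal.map_mono hle) ?_
    intro heq
    obtain ⟨q, hq⟩ : ∃ q, q = pr C 0 ^ (m - b) * pr C 1 ^ b := ⟨_, rfl⟩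
    have hqo : OrdGE P m q := by
      have h2 := OrdGE_mul (ord_pr_pow (Q := P) C 0 h0 (m - b)) (ord_pr_pow (Q := P) C 1 h1 b)
      rw [Nat.sub_add_cancel hb] at h2
      rw [hq]
      exact h2
    have hqm : q ∈ Ic C P m b := by
      refine ⟨hqo, fun c hc hcm => ?_⟩
      rw [hq, wd_mono, Nat.descFactorial_of_lt (show m - b < m - c by omega), Nat.cast_zero,
        zero_mul, mul_zero]
      exact P.zero_mem
    have h2 : algebraMap (K ⊗[k] K) (Localization.AtPrime P) q ∈
        (Ic C P m (b + 1)).map (algebraMap (K ⊗[k] K) (Localization.AtPrime P)) := by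
      rw [heq]
      exact Ideal.mem_map_of_mem _ hqm
    rw [IsLocalization.mem_map_algebraMap_iff P.primeCompl] at h2
    obtain ⟨⟨i, s⟩, h3⟩ := h2
    simp only at h3
    rw [← map_mul] at h3
    obtain ⟨t, ht⟩ := (IsLocalization.eq_iff_exists P.primeCompl (Localization.AtPrime P)).1 h3
    have h4 : ((t : K ⊗[k] K) * s) * q ∈ Ic C P m (b + 1) := by
      have e : ((t : K ⊗[k] K) * s) * q = t * (q * s) := by ring
      rw [e, ht]
      exact Ideal.mul_mem_left _ _ i.2
    have h5 := h4.2 b (Nat.lt_succ_self b) hb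
    have h6 := wd_mul (Q := P) C (a := m - b) (b := b) ((t : K ⊗[k] K) * s) (g := q) (by
      rw [Nat.sub_add_cancel hb]
      exact hqo)
    have h7 : (t : K ⊗[k] K) * s * Wd C (m - b) b q ∈ P := by
      have h8 := P.sub_mem h5 h6
      rwa [sub_sub_cancel] at h8
    have hts : (t : K ⊗[k] K) * s ∉ P := by
      intro h
      rcases hP.mem_or_mem h with h | h
      · exact t.2 h
      · exact s.2 h
    have h9 := (hP.mem_or_mem h7).resolve_left hts
    rw [hq, wd_mono, Nat.sub_self, Nat.sub_self, pow_zero, pow_zero, mul_one, mul_one,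
      Nat.descFactorial_self, Nat.descFactorial_self, ← Nat.cast_mul] at h9
    have hN : (b.factorial * (m - b).factorial : ℕ) ≠ 0 :=
      mul_ne_zero (Nat.factorial_ne_zero _) (Nat.factorial_ne_zero _)
    have hu : IsUnit ((b.factorial * (m - b).factorial : ℕ) : K ⊗[k] K) := by
      have h10 : ((b.factorial * (m - b).factorial : ℕ) : K ⊗[k] K) =
          algebraMap k (K ⊗[k] K) ((b.factorial * (m - b).factorial : ℕ) : k) := by
        rw [map_natCast]
      rw [h10]
      exact (IsUnit.mk0 _ (Nat.cast_ne_zero.2 hN)).map _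
    exact hP.ne_top (Ideal.eq_top_of_isUnit_mem P h9 hu)
  have hmain : ∀ m : ℕ, (((m + 1).choose 2 : ℕ) : ℕ∞) ≤ Module.length (Localization.AtPrime P)
      (Localization.AtPrime P ⧸ (ordIdeal P m).map
        (algebraMap (K ⊗[k] K) (Localization.AtPrime P))) := by
    intro m
    induction m with
    | zero => simp
    | succ m ih =>
      have hstep : ∀ b : ℕ, b ≤ m + 1 → (((m + 1).choose 2 + b : ℕ) : ℕ∞) ≤
          Module.length (Localization.AtPrime P) (Localization.AtPrime P ⧸ (Ic C P m b).map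
            (algebraMap (K ⊗[k] K) (Localization.AtPrime P))) := by
        intro b
        induction b with
        | zero =>
          intro _
          have e : Ic C P m 0 = ordIdeal P m := by
            ext g
            constructor
            · intro h
              exact h.1
            · intro h
              exact ⟨h, fun c hc _ => absurd hc (Nat.not_lt_zero c)⟩
          rw [e]
          exact ih
        | succ b ihb =>
          intro hb
          have h2 := ihb (by omega)
          have h3 := length_quot_lt (hstrict m b (by omega))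
          refine le_trans ?_ h3
          have e : (((m + 1).choose 2 + (b + 1) : ℕ) : ℕ∞) =
              (((m + 1).choose 2 + b : ℕ) : ℕ∞) + 1 := by push_cast; ring
          rw [e]
          exact add_le_add h2 le_rfl
      have h2 := hstep (m + 1) le_rfl
      have h3 : ordIdeal P (m + 1) ≤ Ic C P m (m + 1) := by
        intro g hg
        refine ⟨OrdGE_mono (Nat.le_succ m) hg, fun c _ hcm => wd_mem C (m := m + 1) (by omega) hg⟩
      have h4 := length_quot_le (Ideal.map_mono (f := algebraMap (K ⊗[k] K)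
        (Localization.AtPrime P)) h3)
      refine le_trans ?_ (h2.trans h4)
      have e : (m + 1 + 1).choose 2 = (m + 1).choose 2 + (m + 1) := by
        rw [Nat.choose_succ_succ' (m + 1) 1, Nat.choose_one_right, add_comm]
      rw [e]
  refine (hmain n).trans (length_quot_le (Ideal.map_mono ?_))
  intro g hg
  exact hJ g hg

end Pool.Agent.H24.TU
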