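/-
MP_e49dc9_ag, THEOREM U, module TU/ResL: the chain from J R_P to R_P generated by M_c.

R = K (x)_k K (noetherian), P a prime, J <= P an ideal such that no prime Q <> P has J <= Q <= P.
Then for some c there is a chain (ResV, TU/Res) from J R_P to R_P generated by the image of M_c.
PROOF. R_P := Localization.AtPrime P, noetherian local, mm = P R_P the maximal ideal. The only prime
of R_P containing J R_P is mm, so mm^q <= J R_P for some q (as in TU/Onto). P is generated by
finitely many x_1, .., x_g in R. Let T_i be the finite set of monomials of degree i in the x_l,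
T = union of the T_i, i < q. By denom (TU/OrdB) there are c and 0 <> s in L_c with (1 (x) s) t in M_c
for t in T; 1 (x) s is a unit. Chain: A_q = J R_P, and A_i = A_(i+1) + (T_i) obtained by adding the
elements (1 (x) s) t, t in T_i, one after the other: mm t <= (T_(i+1)) <= A_(i+1) for t in T_i,
i + 1 < q, and mm T_(q-1) <= mm^q <= J R_P. A_0 contains T_0 = {1}. (Formal: induction on q: claim
ResV from J R_P + mm^(i+1) to J R_P + mm^i; mm^i is generated by the images of T_i.)
-/
import Pool.Agent.H24.TU.Res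
import Pool.Agent.H24.TU.OrdB

open scoped TensorProduct

namespace Pool.Agent.H24.TU

universe u

variable {k K : Type u} [Field k] [Field K] [Algebra k K]

/-- The image of M_n in the local ring at P. -/
noncomputable def locM (S : GSys k K) (P : Ideal (K ⊗[k] K)) [P.IsPrime] (n : ℕ) :
    Submodule K (Localization.AtPrime P) :=
  (S.M K n).map (IsScalarTower.toAlgHom K (K ⊗[k] K) (Localization.AtPrime P)).toLinearMap

/-- adding finitely many elements of V which the maximal ideal maps into D -/
private theorem resl_fin {X O : Type*} [Field X] [CommRing O] [Algebra X O] {mm D : Ideal O}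
    {V : Submodule X O} (S : Set O) (hS : S.Finite) (hSV : ∀ p ∈ S, p ∈ V)
    (hSD : ∀ p ∈ S, ∀ a ∈ mm, a * p ∈ D) : ResV mm V D (D ⊔ Ideal.span S) := by
  induction S, hS using Set.Finite.induction_on with
  | empty =>
    rw [Ideal.span_empty, sup_bot_eq]
    exact Relation.ReflTransGen.refl
  | insert _ _ ih =>
    rename_i p S _ _
    have h1 := ih (fun q hq => hSV q (Set.mem_insert_of_mem _ hq))
      (fun q hq => hSD q (Set.mem_insert_of_mem _ hq))
    refine Relation.ReflTransGen.tail h1 ⟨p, hSV p (Set.mem_insert _ _), ?_, ?_⟩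
    · intro a ha
      exact Ideal.mem_sup_left (hSD p (Set.mem_insert _ _) a ha)
    · rw [Ideal.span_insert, sup_assoc, sup_comm (Ideal.span S)]

/-- the power of the maximal ideal is inside J -/
private theorem resl_pow [Algebra.EssFiniteType k K] (P : Ideal (K ⊗[k] K)) [hP : P.IsPrime]
    (J : Ideal (K ⊗[k] K))
    (hmin : ∀ Q : Ideal (K ⊗[k] K), Q.IsPrime → J ≤ Q → Q ≤ P → Q = P) :
    ∃ q : ℕ, (P.map (algebraMap (K ⊗[k] K) (Localization.AtPrime P))) ^ q ≤
      J.map (algebraMap (K ⊗[k] K) (Localization.AtPrime P)) := by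
  have hE : Algebra.EssFiniteType K (K ⊗[k] K) := inferInstance
  have hN : IsNoetherianRing (K ⊗[k] K) := Algebra.EssFiniteType.isNoetherianRing K (K ⊗[k] K)
  have hN' : IsNoetherianRing (Localization.AtPrime P) := inferInstance
  refine Ideal.exists_pow_le_of_le_radical_of_fg ?_ (IsNoetherian.noetherian _)
  rw [Ideal.radical_eq_sInf]
  refine le_sInf ?_
  rintro P' ⟨hP', hPp⟩
  rw [Ideal.map_le_iff_le_comap] at hP' ⊢
  have h1 : P'.comap (algebraMap (K ⊗[k] K) (Localization.AtPrime P)) ≤ P := by
    have h2 := IsLocalRing.le_maximalIdeal hPp.ne_top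
    intro z hz
    have h3 := h2 (Ideal.mem_comap.1 hz)
    by_contra hz'
    exact h3 (IsLocalization.map_units (Localization.AtPrime P) (⟨z, hz'⟩ : P.primeCompl))
  have h2 : (P'.comap (algebraMap (K ⊗[k] K) (Localization.AtPrime P))).IsPrime :=
    Ideal.comap_isPrime _ _
  rw [hmin _ h2 hP' h1]

theorem exists_res [Algebra.EssFiniteType k K] (S : GSys k K) (P : Ideal (K ⊗[k] K))
    [hP : P.IsPrime] (J : Ideal (K ⊗[k] K)) (hJ : J ≤ P)
    (hmin : ∀ Q : Ideal (K ⊗[k] K), Q.IsPrime → J ≤ Q → Q ≤ P → Q = P) :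
    ∃ c, ResV (IsLocalRing.maximalIdeal (Localization.AtPrime P)) (locM S P c)
      (J.map (algebraMap (K ⊗[k] K) (Localization.AtPrime P))) ⊤ := by
  classical
  have hE : Algebra.EssFiniteType K (K ⊗[k] K) := inferInstance
  have hN : IsNoetherianRing (K ⊗[k] K) := Algebra.EssFiniteType.isNoetherianRing K (K ⊗[k] K)
  obtain ⟨q, hq⟩ := resl_pow P J hmin
  have hF : ∀ i : ℕ, ∃ G : Finset (K ⊗[k] K), Ideal.span (G : Set (K ⊗[k] K)) = P ^ i :=
    fun i => IsNoetherian.noetherian (P ^ i)
  choose G hG using hF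
  obtain ⟨c, s, hs, hs0, hc⟩ := denom (X := K) S ((Finset.range q).biUnion G)
  refine ⟨c, ?_⟩
  have hmm : P.map (algebraMap (K ⊗[k] K) (Localization.AtPrime P)) =
      IsLocalRing.maximalIdeal (Localization.AtPrime P) :=
    IsLocalization.AtPrime.map_eq_maximalIdeal P (Localization.AtPrime P)
  rw [← hmm]
  have hss : ((1 : K) ⊗ₜ[k] s⁻¹) * ((1 : K) ⊗ₜ[k] s) = (1 : K ⊗[k] K) := by
    rw [Algebra.TensorProduct.tmul_mul_tmul, inv_mul_cancel₀ hs0, mul_one,
      Algebra.TensorProduct.one_def]
  have hspan : ∀ i : ℕ, Ideal.span ((fun t => algebraMap (K ⊗[k] K) (Localization.AtPrime P)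
      (((1 : K) ⊗ₜ[k] s) * t)) '' (G i : Set (K ⊗[k] K))) =
      (P.map (algebraMap (K ⊗[k] K) (Localization.AtPrime P))) ^ i := by
    intro i
    rw [← Ideal.map_pow, ← hG i, Ideal.map_span]
    refine le_antisymm ?_ ?_
    · rw [Ideal.span_le]
      rintro _ ⟨t, ht, rfl⟩
      show algebraMap (K ⊗[k] K) (Localization.AtPrime P) (((1 : K) ⊗ₜ[k] s) * t) ∈ _
      rw [map_mul]
      exact Ideal.mul_mem_left _ _ (Ideal.subset_span ⟨t, ht, rfl⟩)
    · rw [Ideal.span_le]
      rintro _ ⟨t, ht, rfl⟩
      have h1 : algebraMap (K ⊗[k] K) (Localization.AtPrime P) t =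
          algebraMap (K ⊗[k] K) (Localization.AtPrime P) ((1 : K) ⊗ₜ[k] s⁻¹) *
            algebraMap (K ⊗[k] K) (Localization.AtPrime P) (((1 : K) ⊗ₜ[k] s) * t) := by
        rw [← map_mul, ← mul_assoc, hss, one_mul]
      rw [h1]
      exact Ideal.mul_mem_left _ _ (Ideal.subset_span ⟨t, ht, rfl⟩)
  have key : ∀ n : ℕ, n ≤ q →
      ResV (P.map (algebraMap (K ⊗[k] K) (Localization.AtPrime P))) (locM S P c)
        (J.map (algebraMap (K ⊗[k] K) (Localization.AtPrime P)))
        (J.map (algebraMap (K ⊗[k] K) (Localization.AtPrime P)) ⊔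
          (P.map (algebraMap (K ⊗[k] K) (Localization.AtPrime P))) ^ (q - n)) := by
    intro n
    induction n with
    | zero =>
      intro _
      rw [Nat.sub_zero, sup_eq_left.2 hq]
      exact Relation.ReflTransGen.refl
    | succ n ih =>
      intro hn
      have h1 := ih (by omega)
      obtain ⟨i, hi⟩ : ∃ i, q - (n + 1) = i := ⟨_, rfl⟩
      have hi1 : q - n = i + 1 := by omega
      have hiq : i < q := by omega
      rw [hi]
      rw [hi1] at h1
      refine h1.trans ?_
      have h2 := resl_fin (mm := P.map (algebraMap (K ⊗[k] K) (Localization.AtPrime P)))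
        (D := J.map (algebraMap (K ⊗[k] K) (Localization.AtPrime P)) ⊔
          (P.map (algebraMap (K ⊗[k] K) (Localization.AtPrime P))) ^ (i + 1))
        (V := locM S P c)
        ((fun t => algebraMap (K ⊗[k] K) (Localization.AtPrime P)
          (((1 : K) ⊗ₜ[k] s) * t)) '' (G i : Set (K ⊗[k] K)))
        ((G i).finite_toSet.image _) ?_ ?_
      · rw [hspan i] at h2
        have h3 : J.map (algebraMap (K ⊗[k] K) (Localization.AtPrime P)) ⊔
            (P.map (algebraMap (K ⊗[k] K) (Localization.AtPrime P))) ^ (i + 1) ⊔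
            (P.map (algebraMap (K ⊗[k] K) (Localization.AtPrime P))) ^ i =
            J.map (algebraMap (K ⊗[k] K) (Localization.AtPrime P)) ⊔
            (P.map (algebraMap (K ⊗[k] K) (Localization.AtPrime P))) ^ i := by
          have h5 : (P.map (algebraMap (K ⊗[k] K) (Localization.AtPrime P))) ^ (i + 1) ≤
              (P.map (algebraMap (K ⊗[k] K) (Localization.AtPrime P))) ^ i :=
            Ideal.pow_le_pow_right (Nat.le_succ i)
          rw [sup_assoc, sup_eq_right.2 h5]
        rw [h3] at h2
        exact h2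
      · rintro _ ⟨t, ht, rfl⟩
        exact Submodule.mem_map.2 ⟨_, hc t (Finset.mem_biUnion.2
          ⟨i, Finset.mem_range.2 hiq, ht⟩), rfl⟩
      · rintro _ ⟨t, ht, rfl⟩ a ha
        refine Ideal.mem_sup_right ?_
        rw [pow_succ']
        refine Ideal.mul_mem_mul ha ?_
        rw [← hspan i]
        exact Ideal.subset_span ⟨t, ht, rfl⟩
  have h4 := key q le_rfl
  rw [Nat.sub_self, pow_zero, Ideal.one_eq_top, sup_top_eq] at h4
  exact h4

end Pool.Agent.H24.TU
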