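/-
MP_e49dc9_ag, THEOREM U, module TU/Deg: the degree bound (I.7).

STATEMENT 1. P a prime of K (x) K, C coordinates with 1 (x) c_i - c_i (x) 1 in P for i = 0, 1, W a finite
subset of M_1 with ord_P >= j on W, J = (W) <= P, no prime Q <> P with J <= Q <= P. Then there is c
such that C(j N + 1, 2) * dN S P n <= h_(N + c + n) for all N, n.
PROOF. O = R_P = Localization.AtPrime P. exists_res (TU/ResL): c with ResV mm (locM c) (J R_P) top.
res_pow (TU/Res) for the family locM S P n (hmul from M_mul), W' = image of W, u = image of 1 (x) s,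
0 <> s in L_1 (unit): ResV mm (locM (N + c)) ((J R_P)^N) top; (J R_P)^N = (J^N) R_P (Ideal.map_pow;
Ideal.map_span for J = span W). length_ge (TU/Len) for J^N and n := j N (ordGE_span_pow):
length (O / J^N O) >= C(j N + 1, 2). Let d = dN S P n and choose elements m_1, .., m_d of M_n whose
classes in R/P are a K-basis of the image; U := K-span of their images in O: finrank U = d, and every
nonzero element of U is a unit (it is the image of sum a_i m_i not in P). Z := locM S P (N+c+n):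
finite dimensional with finrank Z <= finrank M_(N+c+n) = h_(N+c+n) (finrank_M). res_length (TU/Res):
d * C(jN+1,2) <= finrank Z.
STATEMENT 2 (W = {g} and its coefficient derivatives is primary). P prime <= dI k K with
trdeg (R/P) = 1, (*1), g in M_1, g <> 0: if J is an ideal containing g and all dX theta g, then no
prime Q <> P has J <= Q <= P. PROOF. g in Q and dX theta g in Q for all theta: SmGE Q 2 g, so OrdGE Q 2 g
(ordGE_of_smGE), so by (*1) not 2 <= trdeg (R/Q); if Q < P then two_le_trdeg (TU/TrD).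
STATEMENT 3. For coordinates C: the ideal generated by g and dX (C.d i) g, i = 0, 1, 2, contains all
dX theta g (theta = sum theta(c_i) d_i by derivation_eq_zero; dX theta g = sum (theta(c_i) (x) 1)
dX (C.d i) g).
-/
import Pool.Agent.H24.TU.ResL
import Pool.Agent.H24.TU.Len
import Pool.Agent.H24.TU.LemS
import Pool.Agent.H24.TU.Fld
import Pool.Agent.H24.TU.TrD

open scoped TensorProduct

namespace Pool.Agent.H24.TU

universe u

variable {k K : Type u} [Field k] [CharZero k] [Field K] [Algebra k K]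

private theorem exists_section {F V V' : Type*} [Field F] [AddCommGroup V] [Module F V]
    [AddCommGroup V'] [Module F V'] (φ : V →ₗ[F] V') (hφ : Function.Surjective φ) :
    ∃ σ : V' →ₗ[F] V, ∀ v, φ (σ v) = v := by
  obtain ⟨σ, hσ⟩ := φ.exists_rightInverse_of_surjective (LinearMap.range_eq_top.2 hφ)
  exact ⟨σ, fun v => LinearMap.congr_fun hσ v⟩

theorem degree_bound [Algebra.EssFiniteType k K] (S : GSys k K) (C : Coord k K)
    (P : Ideal (K ⊗[k] K)) [hP : P.IsPrime]
    (h0 : (1 : K) ⊗ₜ[k] C.c 0 - C.c 0 ⊗ₜ[k] (1 : K) ∈ P)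
    (h1 : (1 : K) ⊗ₜ[k] C.c 1 - C.c 1 ⊗ₜ[k] (1 : K) ∈ P)
    (W : Set (K ⊗[k] K)) (hfin : W.Finite) (hW : ∀ w ∈ W, w ∈ S.M K 1) {j : ℕ}
    (hj : ∀ w ∈ W, OrdGE P j w) (hWP : Ideal.span W ≤ P)
    (hmin : ∀ Q : Ideal (K ⊗[k] K), Q.IsPrime → Ideal.span W ≤ Q → Q ≤ P → Q = P) :
    ∃ c, ∀ N n : ℕ, (j * N + 1).choose 2 * dN S P n ≤ Module.finrank k (S.L (N + c + n)) := by
  obtain ⟨c, hc⟩ := exists_res S P (Ideal.span W) hWP hmin
  refine ⟨c, fun N n => ?_⟩
  have hmem : ∀ {m : ℕ} {a : K ⊗[k] K}, a ∈ S.M K m →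
      algebraMap (K ⊗[k] K) (Localization.AtPrime P) a ∈ locM S P m :=
    fun {m a} ha => ⟨a, ha, rfl⟩
  have hmul : ∀ {m n : ℕ} {a b : Localization.AtPrime P}, a ∈ locM S P m → b ∈ locM S P n →
      a * b ∈ locM S P (m + n) := by
    rintro m n _ _ ⟨a, ha, rfl⟩ ⟨b, hb, rfl⟩
    exact ⟨a * b, M_mul S ha hb,
      map_mul (algebraMap (K ⊗[k] K) (Localization.AtPrime P)) a b⟩
  obtain ⟨s, hs, hs0⟩ := Submodule.exists_mem_ne_zero_of_ne_bot S.ne_bot
  have hu1 : IsUnit ((1 : K) ⊗ₜ[k] s) := by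
    refine IsUnit.of_mul_eq_one ((1 : K) ⊗ₜ[k] s⁻¹) ?_
    rw [Algebra.TensorProduct.tmul_mul_tmul, mul_one, mul_inv_cancel₀ hs0]
    rfl
  have hres := res_pow (mm := IsLocalRing.maximalIdeal (Localization.AtPrime P)) (locM S P) hmul
    (algebraMap (K ⊗[k] K) (Localization.AtPrime P) '' W) (hfin.image _)
    (by
      rintro _ ⟨w, hw, rfl⟩
      exact hmem (hW w hw))
    (algebraMap (K ⊗[k] K) (Localization.AtPrime P) ((1 : K) ⊗ₜ[k] s)) (hmem (M_tmul S 1 hs))
    (hu1.map _) c (by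
      rw [← Ideal.map_span]
      exact hc) N
  rw [← Ideal.map_span, ← Ideal.map_pow] at hres
  have hlen := length_ge C P h0 h1 ((Ideal.span W) ^ N) (j * N)
    (fun g hg => ordGE_span_pow hj N hg)
  -- the subspace `U`
  haveI hfM := M_finite (X := K) S n
  haveI hfZ := M_finite (X := K) S (N + c + n)
  let φ : S.M K n →ₗ[K] ((S.M K n).map (Ideal.Quotient.mkₐ K P).toLinearMap) :=
    (Ideal.Quotient.mkₐ K P).toLinearMap.submoduleMap (S.M K n)
  have hφ : Function.Surjective φ := LinearMap.submoduleMap_surjective _ _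
  obtain ⟨σ, hσ'⟩ := exists_section φ hφ
  have hnotP : ∀ v, v ≠ 0 → ((σ v : S.M K n) : K ⊗[k] K) ∉ P := by
    intro v hv hvP
    apply hv
    rw [← hσ' v]
    apply Subtype.ext
    change Ideal.Quotient.mk P ((σ v : S.M K n) : K ⊗[k] K) = 0
    exact Ideal.Quotient.eq_zero_iff_mem.2 hvP
  let ψ : ((S.M K n).map (Ideal.Quotient.mkₐ K P).toLinearMap) →ₗ[K] Localization.AtPrime P :=
    (IsScalarTower.toAlgHom K (K ⊗[k] K) (Localization.AtPrime P)).toLinearMap ∘ₗ
      (S.M K n).subtype ∘ₗ σ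
  have hψ : ∀ v, ψ v = algebraMap (K ⊗[k] K) (Localization.AtPrime P)
      ((σ v : S.M K n) : K ⊗[k] K) := fun v => rfl
  have hunit : ∀ v, v ≠ 0 → IsUnit (ψ v) := by
    intro v hv
    rw [hψ]
    exact IsLocalization.map_units (Localization.AtPrime P)
      (⟨((σ v : S.M K n) : K ⊗[k] K), hnotP v hv⟩ : P.primeCompl)
  have hinj : Function.Injective ψ := by
    rw [← LinearMap.ker_eq_bot, LinearMap.ker_eq_bot']
    intro v hv
    by_contra hne
    exact (hunit v hne).ne_zero hv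
  haveI hfI : Module.Finite K ((S.M K n).map (Ideal.Quotient.mkₐ K P).toLinearMap) := inferInstance
  have hUd : Module.finrank K (LinearMap.range ψ) = dN S P n := by
    rw [LinearMap.finrank_range_of_inj hinj]
    rfl
  haveI hfZ' : Module.Finite K (locM S P (N + c + n)) := by
    unfold locM
    infer_instance
  haveI hfU : Module.Finite K (LinearMap.range ψ) := inferInstance
  have hkey := res_length (U := LinearMap.range ψ) (Z := locM S P (N + c + n)) hres
    (by
      rintro _ ⟨v, rfl⟩ hv0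
      refine hunit v ?_
      rintro rfl
      exact hv0 (map_zero ψ))
    (by
      rintro v hv _ ⟨a, rfl⟩
      exact hmul hv (hmem (σ a).2))
  have hZ : Module.finrank K (locM S P (N + c + n)) ≤ Module.finrank k (S.L (N + c + n)) := by
    rw [← finrank_M (X := K) S (N + c + n)]
    exact Submodule.finrank_map_le _ _
  rw [hUd] at hkey
  have h2 : (((j * N + 1).choose 2 * dN S P n : ℕ) : ℕ∞) ≤
      ((Module.finrank k (S.L (N + c + n)) : ℕ) : ℕ∞) := by
    calc (((j * N + 1).choose 2 * dN S P n : ℕ) : ℕ∞)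
        = (dN S P n : ℕ∞) * (((j * N + 1).choose 2 : ℕ) : ℕ∞) := by
          push_cast
          ring
      _ ≤ (dN S P n : ℕ∞) * Module.length (Localization.AtPrime P)
            (Localization.AtPrime P ⧸ ((Ideal.span W) ^ N).map
              (algebraMap (K ⊗[k] K) (Localization.AtPrime P))) := mul_le_mul_right hlen _
      _ ≤ ((Module.finrank K (locM S P (N + c + n)) : ℕ) : ℕ∞) := hkey
      _ ≤ ((Module.finrank k (S.L (N + c + n)) : ℕ) : ℕ∞) := by exact_mod_cast hZ
  exact_mod_cast h2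

theorem prime_eq [Algebra.EssFiniteType k K] (S : GSys k K) (hstar : StarOne k K K (S.L 1))
    {P : Ideal (K ⊗[k] K)} (hP : P.IsPrime)
    (htr : Algebra.trdeg K ((K ⊗[k] K) ⧸ P) = 1) {g : K ⊗[k] K} (hg : g ∈ S.M K 1)
    (hg0 : g ≠ 0) {J : Ideal (K ⊗[k] K)} (hgJ : g ∈ J)
    (hdJ : ∀ θ : Derivation k K K, dX K θ g ∈ J) (Q : Ideal (K ⊗[k] K)) (hQ : Q.IsPrime)
    (hJQ : J ≤ Q) (hQP : Q ≤ P) : Q = P := by
  by_contra hne
  have hlt : Q < P := lt_of_le_of_ne hQP hne
  have h2 := two_le_trdeg hP hQ hlt htr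
  have h3 : SmGE Q 2 g := ⟨hJQ hgJ, fun θ => ⟨hJQ (hdJ θ), fun _ => trivial⟩⟩
  have h4 : OrdGE Q 2 g := ordGE_of_smGE hQ 2 h3
  obtain ⟨δ, hδ⟩ := hstar g hg hg0 Q hQ h2 (hJQ hgJ)
  exact hδ (h4.2 δ).1

theorem dX_mem_span (C : Coord k K) (g : K ⊗[k] K) (θ : Derivation k K K) :
    dX K θ g ∈ Ideal.span (Set.range fun i : Fin 3 => dX K (C.d i) g) := by
  have hθ : θ = θ (C.c 0) • C.d 0 + θ (C.c 1) • C.d 1 + θ (C.c 2) • C.d 2 := by
    rw [← sub_eq_zero]
    apply derivation_eq_zero C.basis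
    intro j
    rw [Derivation.sub_apply, Derivation.add_apply, Derivation.add_apply, Derivation.smul_apply,
      Derivation.smul_apply, Derivation.smul_apply, C.dual, C.dual, C.dual]
    fin_cases j <;> simp
  have hx : ∀ x : K, θ x = ∑ i : Fin 3, θ (C.c i) * C.d i x := by
    intro x
    rw [Fin.sum_univ_three]
    conv_lhs => rw [hθ]
    rfl
  have hg : dX K θ g = ∑ i : Fin 3, (θ (C.c i) ⊗ₜ[k] (1 : K)) * dX K (C.d i) g := by
    induction g using TensorProduct.induction_on with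
    | zero => simp
    | add a b ha hb =>
      rw [map_add, ha, hb, ← Finset.sum_add_distrib]
      refine Finset.sum_congr rfl fun i _ => ?_
      rw [map_add, mul_add]
    | tmul x f =>
      rw [dX_tmul, hx x, TensorProduct.sum_tmul]
      refine Finset.sum_congr rfl fun i _ => ?_
      rw [dX_tmul, Algebra.TensorProduct.tmul_mul_tmul, one_mul]
  rw [hg]
  exact Ideal.sum_mem _ fun i _ => Ideal.mul_mem_left _ _ (Ideal.subset_span ⟨i, rfl⟩)

end Pool.Agent.H24.TU
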