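/-
MP_e49dc9_ag, THEOREM U, module TU/Coo: coordinates, also adapted to F.

STATEMENT 1: trdeg k K = 3, char 0: there is a Coord k K. PROOF: a transcendence basis
(exists_isTranscendenceBasis') has 3 elements (IsTranscendenceBasis.lift_cardinalMk_eq_trdeg),
reindex by Fin 3; dual derivations by exists_derivation (TU/DerEx).
STATEMENT 2: F an intermediate field with trdeg_F K = 1: there is a Coord k K with c 0, c 1 in F.
PROOF: trdeg_k F = 2 (Algebra.trdeg_add_eq: trdeg k F + trdeg F K = 3), take a transcendence basis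
(a_0, a_1) of F / k and t in K transcendental over F with K / F(t) algebraic: (a_0, a_1, t) is a
transcendence basis of K / k (IsTranscendenceBasis.sumElim_comp or similar).
STATEMENT 3: C : Coord k K with c 0, c 1 in F, trdeg_F K = 1: the derivation C.d 2 vanishes on F.
PROOF. (c 0, c 1) is a transcendence basis of F / k (algebraically independent of cardinality
trdeg_k F = 2: isTranscendenceBasis_of_trdeg_le_of_finite or similar), the restriction of C.d 2 to
F is a k-derivation F -> K killing c 0, c 1, so 0 (derivation_eq_zero).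
STATEMENT 4: x, y : K -> kap, P = ptI x y, hypotheses of linIndep_quot (TU/Fld), F = eqF x y with
C.d 2 = 0 on F. Then dK (C.d 2) P in P.
PROOF. aa := ideal generated by the 1 (x) phi - phi (x) 1, phi in F; aa <= P (mem_ptI_eqF), and
dK (C.d 2) maps aa into aa (the generators are killed). P <= aa: let p = sum a_i (x) f_i in P (finite
sum); choose an F-basis (e_l) of the F-span of the f_i, f_i = sum_l phi_il e_l; modulo aa,
p = sum_l (sum_i a_i phi_il) (x) e_l; this element is in P, so by linIndep_quot all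
sum_i a_i phi_il = 0, so p in aa.
STATEMENT 5: P an ideal <= dI k K with dK (C.d 2) P in P, p in P, n : Nat: the coefficient of
tay C p at Finsupp.single 2 n is 0: it is a multiple of ev ((dK d_2)^n p).
-/
import Pool.Agent.H24.TU.Fld
import Pool.Agent.H24.TU.TayOrd

open scoped TensorProduct

namespace Pool.Agent.H24.TU

universe u

private theorem coo_of_basis {k K : Type u} [Field k] [CharZero k] [Field K] [Algebra k K]
    {c : Fin 3 → K} (hc : IsTranscendenceBasis k c) : ∃ C : Coord k K, C.c = c := by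
  choose D hD using fun i : Fin 3 =>
    exists_derivation hc (M := K) (fun j => if i = j then (1 : K) else 0)
  exact ⟨⟨c, hc, D, hD⟩, rfl⟩

theorem exists_coord {k K : Type u} [Field k] [CharZero k] [Field K] [Algebra k K]
    (h : Algebra.trdeg k K = 3) : Nonempty (Coord k K) := by
  obtain ⟨ι, x, hx⟩ := exists_isTranscendenceBasis' k K
  have h1 : Cardinal.mk ι = ((3 : ℕ) : Cardinal.{u}) := by
    rw [hx.cardinalMk_eq_trdeg, h]
    rfl
  obtain ⟨e⟩ := Cardinal.mk_eq_nat_iff.1 h1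
  obtain ⟨C, -⟩ := coo_of_basis (hx.comp_equiv e.symm)
  exact ⟨C⟩

private theorem coo_trdeg_two {k K : Type u} [Field k] [Field K] [Algebra k K]
    (h : Algebra.trdeg k K = 3) (F : IntermediateField k K) (hF : Algebra.trdeg F K = 1) :
    Algebra.trdeg k F = 2 := by
  have h1 := _root_.trdeg_add_eq k F (A := K)
  rw [h, hF] at h1
  have h2 : Algebra.trdeg k F < Cardinal.aleph0 := by
    refine (self_le_add_right (Algebra.trdeg k F) 1).trans_lt ?_
    rw [h1]
    exact_mod_cast Cardinal.nat_lt_aleph0 3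
  obtain ⟨n, hn⟩ := Cardinal.lt_aleph0.1 h2
  rw [hn] at h1 ⊢
  have h3 : n + 1 = 3 := by exact_mod_cast h1
  have h4 : n = 2 := by omega
  subst h4
  rfl

theorem exists_coord_adapted {k K : Type u} [Field k] [CharZero k] [Field K] [Algebra k K]
    (h : Algebra.trdeg k K = 3) (F : IntermediateField k K) (hF : Algebra.trdeg F K = 1) :
    ∃ C : Coord k K, C.c 0 ∈ F ∧ C.c 1 ∈ F := by
  have hF2 := coo_trdeg_two h F hF
  obtain ⟨ι, a, ha⟩ := exists_isTranscendenceBasis' k F
  obtain ⟨ι', t, ht⟩ := exists_isTranscendenceBasis' F K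
  have h1 : Cardinal.mk ι = ((2 : ℕ) : Cardinal.{u}) := by
    rw [ha.cardinalMk_eq_trdeg, hF2]
    rfl
  have h2 : Cardinal.mk ι' = ((1 : ℕ) : Cardinal.{u}) := by
    rw [ht.cardinalMk_eq_trdeg, hF, Nat.cast_one]
  obtain ⟨e⟩ := Cardinal.mk_eq_nat_iff.1 h1
  obtain ⟨e'⟩ := Cardinal.mk_eq_nat_iff.1 h2
  have h3 := (ha.comp_equiv e.symm).sumElim_comp (ht.comp_equiv e'.symm)
  have h4 := h3.comp_equiv ((finSumFinEquiv (m := 2) (n := 1)).symm.trans (Equiv.sumComm _ _))
  obtain ⟨C, hC⟩ := coo_of_basis (c := _) h4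
  refine ⟨C, ?_, ?_⟩
  · rw [hC]
    exact (a (e.symm 0)).2
  · rw [hC]
    exact (a (e.symm 1)).2

theorem d2_eq_zero {k K : Type u} [Field k] [CharZero k] [Field K] [Algebra k K]
    (C : Coord k K) (F : IntermediateField k K) (hF : Algebra.trdeg F K = 1)
    (h0 : C.c 0 ∈ F) (h1 : C.c 1 ∈ F) : ∀ f ∈ F, C.d 2 f = 0 := by
  have h3 : Algebra.trdeg k K = 3 := by
    have h := C.basis.lift_cardinalMk_eq_trdeg
    rw [Cardinal.mk_fin, Cardinal.lift_natCast, Cardinal.lift_id'] at h
    rw [← h]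
    rfl
  have hF2 := coo_trdeg_two h3 F hF
  obtain ⟨a, ha⟩ : ∃ a : Fin 2 → F, ∀ i : Fin 2, ((a i : F) : K) = C.c (Fin.castSucc i) := by
    refine ⟨fun i => ⟨C.c (Fin.castSucc i), ?_⟩, fun i => rfl⟩
    fin_cases i
    · exact h0
    · exact h1
  have hind : AlgebraicIndependent k a := by
    apply AlgebraicIndependent.of_comp F.val
    have h4 := C.basis.1.comp (Fin.castSucc : Fin 2 → Fin 3) (Fin.castSucc_injective 2)
    have h5 : (F.val ∘ a : Fin 2 → K) = C.c ∘ Fin.castSucc := by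
      funext i
      exact ha i
    rw [h5]
    exact h4
  have hb : IsTranscendenceBasis k a := by
    apply hind.isTranscendenceBasis_of_lift_trdeg_le_of_finite
    rw [hF2, Cardinal.mk_fin, Cardinal.lift_natCast]
    simp
  have hD := derivation_eq_zero hb ((C.d 2).compAlgebraMap F) (fun i => by
    show C.d 2 ((a i : F) : K) = 0
    rw [ha, C.dual]
    fin_cases i <;> rfl)
  intro f hf
  have h6 := congrArg (fun E : Derivation k F K => E ⟨f, hf⟩) hD
  exact h6

/-- the ideal of the differences of the elements of `F` -/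
private theorem coo_dK_span {k K : Type u} [Field k] [Field K] [Algebra k K] (δ : Derivation k K K)
    (S : Set K) (hS : ∀ f ∈ S, δ f = 0) {p : K ⊗[k] K}
    (hp : p ∈ Ideal.span ((fun f : K => (1 : K) ⊗ₜ[k] f - f ⊗ₜ[k] (1 : K)) '' S)) :
    dK K δ p ∈ Ideal.span ((fun f : K => (1 : K) ⊗ₜ[k] f - f ⊗ₜ[k] (1 : K)) '' S) := by
  induction hp using Submodule.span_induction with
  | mem x hx =>
    obtain ⟨f, hf, rfl⟩ := hx
    have h1 : dK K δ ((1 : K) ⊗ₜ[k] f - f ⊗ₜ[k] (1 : K)) = 0 := by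
      rw [map_sub, dK_tmul, dK_tmul, hS f hf, Derivation.map_one_eq_zero, TensorProduct.tmul_zero,
        TensorProduct.tmul_zero, sub_zero]
    rw [h1]
    exact Submodule.zero_mem _
  | zero =>
    rw [map_zero]
    exact Submodule.zero_mem _
  | add x y _ _ hx hy =>
    rw [map_add]
    exact Submodule.add_mem _ hx hy
  | smul a x hx' hx =>
    rw [smul_eq_mul, Derivation.leibniz, smul_eq_mul, smul_eq_mul]
    refine Submodule.add_mem _ (Ideal.mul_mem_left _ _ hx) (Ideal.mul_mem_right _ _ hx')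

theorem stable_d2 {k K κ : Type u} [Field k] [CharZero k] [Field K] [Field κ] [Algebra k K]
    [Algebra k κ] (x y : K →ₐ[k] κ)
    (hle : (ptI x y).map (chg K x) ≤ (ptI x y).map (chg K y)) (hPI : ptI x y ≤ dI k K)
    (C : Coord k K) (hd : ∀ f ∈ eqF x y, C.d 2 f = 0) :
    ∀ p ∈ ptI x y, dK K (C.d 2) p ∈ ptI x y := by
  obtain ⟨aa, haa⟩ : ∃ aa : Ideal (K ⊗[k] K), aa =
      Ideal.span ((fun f : K => (1 : K) ⊗ₜ[k] f - f ⊗ₜ[k] (1 : K)) '' (eqF x y : Set K)) :=
    ⟨_, rfl⟩
  have haP : aa ≤ ptI x y := by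
    rw [haa, Ideal.span_le]
    rintro _ ⟨f, hf, rfl⟩
    exact mem_ptI_eqF x y hf
  have hPa : ∀ p ∈ ptI x y, p ∈ aa := by
    intro p hp
    obtain ⟨S, hS⟩ := TensorProduct.exists_finset p
    -- the span of the functions
    obtain ⟨W, hW⟩ : ∃ W : Submodule (eqF x y) K, W = Submodule.span (eqF x y)
        ((fun s : K × K => s.2) '' (S : Set (K × K))) := ⟨_, rfl⟩
    have hWfin : Module.Finite (eqF x y) W := by
      rw [hW]
      exact Module.Finite.span_of_finite _ ((Finset.finite_toSet S).image _)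
    have hWm : ∀ s ∈ S, s.2 ∈ W := by
      intro s hs
      rw [hW]
      exact Submodule.subset_span ⟨s, hs, rfl⟩
    let e := Module.finBasis (eqF x y) W
    have hlin : LinearIndependent (eqF x y) (fun l => ((e l : W) : K)) :=
      e.linearIndependent.map' W.subtype (Submodule.ker_subtype W)
    have hq := linIndep_quot x y hle hPI _ hlin
    -- the coordinates
    have hco : ∀ s ∈ S, ∃ φ : Fin (Module.finrank (eqF x y) W) → eqF x y,
        s.2 = ∑ l, (φ l : K) * ((e l : W) : K) := by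
      intro s hs
      refine ⟨fun l => e.repr ⟨s.2, hWm s hs⟩ l, ?_⟩
      have h1 := congrArg (fun w : W => (w : K)) (e.sum_repr ⟨s.2, hWm s hs⟩)
      simp only [Submodule.coe_sum, Submodule.coe_smul] at h1
      exact h1.symm
    choose! φ hφ using hco
    have h2 : ∀ s ∈ S, s.1 ⊗ₜ[k] s.2 - ∑ l, (s.1 * (φ s l : K)) ⊗ₜ[k] ((e l : W) : K) ∈ aa := by
      intro s hs
      have h3 : s.1 ⊗ₜ[k] s.2 - ∑ l, (s.1 * (φ s l : K)) ⊗ₜ[k] ((e l : W) : K) =
          ∑ l, (s.1 ⊗ₜ[k] ((e l : W) : K)) *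
            ((1 : K) ⊗ₜ[k] (φ s l : K) - (φ s l : K) ⊗ₜ[k] (1 : K)) := by
        conv_lhs => rw [hφ s hs, TensorProduct.tmul_sum]
        rw [← Finset.sum_sub_distrib]
        refine Finset.sum_congr rfl fun l _ => ?_
        rw [mul_sub, Algebra.TensorProduct.tmul_mul_tmul, Algebra.TensorProduct.tmul_mul_tmul,
          mul_one, mul_one, mul_comm ((e l : W) : K)]
      rw [h3]
      refine Ideal.sum_mem _ fun l _ => Ideal.mul_mem_left _ _ ?_
      rw [haa]
      exact Ideal.subset_span ⟨_, (φ s l).2, rfl⟩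
    obtain ⟨b, hb⟩ : ∃ b : Fin (Module.finrank (eqF x y) W) → K,
        b = fun l => ∑ s ∈ S, s.1 * (φ s l : K) := ⟨_, rfl⟩
    have h4 : p - ∑ l, b l ⊗ₜ[k] ((e l : W) : K) ∈ aa := by
      have h5 : p - ∑ l, b l ⊗ₜ[k] ((e l : W) : K) =
          ∑ s ∈ S, (s.1 ⊗ₜ[k] s.2 - ∑ l, (s.1 * (φ s l : K)) ⊗ₜ[k] ((e l : W) : K)) := by
        rw [Finset.sum_sub_distrib, ← hS, Finset.sum_comm]
        congr 1
        refine Finset.sum_congr rfl fun l _ => ?_
        rw [hb, TensorProduct.sum_tmul]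
      rw [h5]
      exact Ideal.sum_mem _ h2
    have h6 : ∑ l, b l ⊗ₜ[k] ((e l : W) : K) ∈ ptI x y := by
      have h7 := (ptI x y).sub_mem hp (haP h4)
      rwa [sub_sub_cancel] at h7
    have h8 : ∑ l, b l • Ideal.Quotient.mk (ptI x y) ((1 : K) ⊗ₜ[k] ((e l : W) : K)) = 0 := by
      rw [← Ideal.Quotient.eq_zero_iff_mem.2 h6, map_sum]
      refine Finset.sum_congr rfl fun l _ => ?_
      have h9 : b l ⊗ₜ[k] ((e l : W) : K) = b l • ((1 : K) ⊗ₜ[k] ((e l : W) : K)) := by
        rw [TensorProduct.smul_tmul', smul_eq_mul, mul_one]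
      rw [h9]
      rfl
    have h10 := Fintype.linearIndependent_iff.1 hq b h8
    have h11 : ∑ l, b l ⊗ₜ[k] ((e l : W) : K) = 0 :=
      Finset.sum_eq_zero fun l _ => by rw [h10 l, TensorProduct.zero_tmul]
    rwa [h11, sub_zero] at h4
  intro p hp
  apply haP
  rw [haa]
  refine coo_dK_span (C.d 2) _ (fun f hf => hd f hf) ?_
  rw [← haa]
  exact hPa p hp

theorem coeff_single_eq_zero {k K : Type u} [Field k] [CharZero k] [Field K] [Algebra k K]
    (C : Coord k K) {P : Ideal (K ⊗[k] K)} (hPI : P ≤ dI k K)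
    (hst : ∀ p ∈ P, dK K (C.d 2) p ∈ P) {p : K ⊗[k] K} (hp : p ∈ P) (n : ℕ) :
    MvPowerSeries.coeff (Finsupp.single 2 n) (tay C p) = 0 := by
  have h1 : ∀ n : ℕ, ∀ p ∈ P, ((dK K (C.d 2)).toLinearMap ^ n) p ∈ P := by
    intro n
    induction n with
    | zero => intro p hp; exact hp
    | succ n ih =>
      intro p hp
      rw [pow_succ]
      exact ih _ (hst p hp)
  have h2 : Dp C (Finsupp.single 2 n) p = ((dK K (C.d 2)).toLinearMap ^ n) p := by
    unfold Dp
    have e0 : (Finsupp.single (2 : Fin 3) n) 0 = 0 := by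
      rw [Finsupp.single_apply]
      rfl
    have e1 : (Finsupp.single (2 : Fin 3) n) 1 = 0 := by
      rw [Finsupp.single_apply]
      rfl
    have e2 : (Finsupp.single (2 : Fin 3) n) 2 = n := Finsupp.single_eq_same
    rw [e0, e1, e2, pow_zero, pow_zero]
    rfl
  rw [coeff_tay, h2]
  have h3 : ev k K (((dK K (C.d 2)).toLinearMap ^ n) p) = 0 := mem_dI.1 (hPI (h1 n p hp))
  rw [h3, mul_zero]

end Pool.Agent.H24.TU
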