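/-
MP_e49dc9_ag, THEOREM U, module TU/HOne: (I.4') h_1 <= e C(d+2, 2).

Hypotheses: C coordinates; P <= dI k K an ideal stable under dK (C.d 2); V_1(e) in P; every f in
M_1 with ord_I f >= d + 1 is 0.
PROOF. Let E = {a : degree a <= d and a 2 < e}; card E <= e C(d+2,2) (for each value a 2 < e the pair
(a 0, a 1) has sum <= d). Claim: the K-linear map M_1 -> K^E, f -> (coeff a (tay C f))_(a in E), is
injective; then h_1 = finrank M_1 <= card E. Let 0 <> f in M_1 and r <= d its order: all
coefficients of degree < r vanish and some coefficient of degree r is nonzero (ordGE_iff; r exists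
because f has not order >= d + 1). We show: every a of degree r with coeff a (tay C f) <> 0 has
a 2 < e (so a in E, done). Suppose a 2 >= e. Put b = a - e single 2 (so b + single 2 e = a, degree b =
r - e) and f' := the result of applying dX (C.d 0) (b 0 times), dX (C.d 1) (b 1 times), dX (C.d 2)
(b 2 times) to f. Using tay_dX (TU/TayOrd) repeatedly: if F is a power series without terms of
degree < m then the series with coefficients d_i (F_a) - (a_i + 1) F_(a + e_i) has no terms of degree
< m - 1 and its coefficients of degree m - 1 are -(a_i + 1) F_(a+e_i). So f' in M_1 (M_dX) has no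
coefficients of degree < e, and its coefficient at single 2 e is a nonzero multiple (product of
negatives of positive integers) of coeff a (tay C f), so nonzero. By ordGE_iff, OrdGE (dI) e f', so
f' in V_1(e) in P, and coeff_single_eq_zero (TU/Coo) says that its coefficient at single 2 e is 0:
contradiction.
(Formal hint: prove by induction on degree b: for all f in M_1 and m = degree of the exponent
b + single 2 e: if the coefficients of tay C f of degree < degree b + e vanish then
coeff (b + single 2 e) (tay C f) = 0; step: apply it to dX (C.d i) f and b - e_i.)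
-/
import Pool.Agent.H24.TU.Coo
import Pool.Agent.H24.TU.AllExp

open scoped TensorProduct

namespace Pool.Agent.H24.TU

universe u

variable {k K : Type u} [Field k] [CharZero k] [Field K] [Algebra k K]

private theorem hone_deg (b : Fin 3 →₀ ℕ) (i : Fin 3) (n : ℕ) :
    (b + Finsupp.single i n).degree = b.degree + n := by
  rw [map_add]
  simp only [Finsupp.degree_single]

private theorem hone_key (C : Coord k K) (S : GSys k K) {e : ℕ} {P : Ideal (K ⊗[k] K)}
    (hPI : P ≤ dI k K) (hst : ∀ p ∈ P, dK K (C.d 2) p ∈ P) (hV : VIdeal S e ≤ P) :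
    ∀ n : ℕ, ∀ b : Fin 3 →₀ ℕ, b.degree = n → ∀ f ∈ S.M K 1,
      (∀ c : Fin 3 →₀ ℕ, c.degree < n + e → MvPowerSeries.coeff c (tay C f) = 0) →
      MvPowerSeries.coeff (b + Finsupp.single 2 e) (tay C f) = 0 := by
  have hch : CharZero K := charZero_of_injective_algebraMap (algebraMap k K).injective
  intro n
  induction n with
  | zero =>
    intro b hb f hf hc
    have hb0 : b = 0 := by rwa [Finsupp.degree_eq_zero_iff] at hb
    have hord : OrdGE (dI k K) e f := by
      rw [ordGE_iff C]
      intro c hcd
      exact hc c (by omega)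
    have hfP : f ∈ P := hV (Ideal.subset_span ⟨hf, hord⟩)
    rw [hb0, zero_add]
    exact coeff_single_eq_zero C hPI hst hfP e
  | succ n ih =>
    intro b hb f hf hc
    obtain ⟨i, hi⟩ : ∃ i, b i ≠ 0 := by
      by_contra hcon
      push Not at hcon
      have h0 : b = 0 := by
        ext i
        exact hcon i
      rw [h0, map_zero] at hb
      omega
    obtain ⟨b', hb'⟩ : ∃ b', b = b' + Finsupp.single i 1 := by
      refine ⟨b - Finsupp.single i 1, ?_⟩
      rw [tsub_add_cancel_of_le]
      rw [Finsupp.single_le_iff]
      omega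
    have hbd : b'.degree = n := by
      rw [hb', hone_deg] at hb
      omega
    have h1 := ih b' hbd (dX K (C.d i) f) (M_dX S hf (C.d i)) (by
      intro c hcd
      rw [tay_dX, hc c (by omega), map_zero, hc (c + Finsupp.single i 1) (by
        rw [hone_deg]; omega), mul_zero, sub_zero])
    rw [tay_dX, hc (b' + Finsupp.single 2 e) (by rw [hone_deg]; omega), map_zero, zero_sub,
      neg_eq_zero] at h1
    rcases mul_eq_zero.1 h1 with h2 | h2
    · exact absurd h2 (Nat.cast_add_one_ne_zero _)
    · have h3 : b + Finsupp.single 2 e = b' + Finsupp.single 2 e + Finsupp.single i 1 := by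
        rw [hb']
        abel
      rw [h3]
      exact h2

private theorem hone_card (d : ℕ) :
    ((Finset.range (d + 1)).biUnion fun i => Finset.HasAntidiagonal.antidiagonal i).card ≤ (d + 2).choose 2 := by
  refine Finset.card_biUnion_le.trans (le_of_eq ?_)
  induction d with
  | zero => rfl
  | succ d ih =>
    rw [Finset.sum_range_succ, ih, Finset.Nat.card_antidiagonal]
    have h1 := Nat.choose_succ_succ (d + 2) 1
    rw [Nat.choose_one_right] at h1
    show (d + 2).choose 2 + (d + 1 + 1) = (d + 2 + 1).choose (1 + 1)
    rw [h1]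
    show (d + 2).choose 2 + (d + 1 + 1) = d + 2 + (d + 2).choose 2
    omega

theorem h1_le (C : Coord k K) (S : GSys k K) {e d : ℕ} {P : Ideal (K ⊗[k] K)}
    (hPI : P ≤ dI k K) (hst : ∀ p ∈ P, dK K (C.d 2) p ∈ P) (hV : VIdeal S e ≤ P)
    (hd : ∀ f ∈ S.M K 1, OrdGE (dI k K) (d + 1) f → f = 0) :
    Module.finrank k (S.L 1) ≤ e * (d + 2).choose 2 := by
  have hch : CharZero K := charZero_of_injective_algebraMap (algebraMap k K).injective
  obtain ⟨T, hT⟩ : ∃ T, T = (Finset.range (d + 1)).biUnion fun i => Finset.HasAntidiagonal.antidiagonal i :=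
    ⟨_, rfl⟩
  obtain ⟨F, hF⟩ : ∃ F, F = Finset.range e ×ˢ T := ⟨_, rfl⟩
  obtain ⟨x, hx⟩ : ∃ x : ℕ × ℕ × ℕ → (Fin 3 →₀ ℕ), ∀ p, x p = Finsupp.single 0 p.2.1 +
      Finsupp.single 1 p.2.2 + Finsupp.single 2 p.1 := ⟨_, fun _ => rfl⟩
  let Φ : ↥(S.M K 1) →ₗ[K] (↥F → K) :=
    { toFun := fun f p => MvPowerSeries.coeff (x p.1) (tay C f.1)
      map_add' := by
        intro f g
        funext p
        show MvPowerSeries.coeff (x p.1) (tay C (f.1 + g.1)) = _
        rw [tay_add, map_add]
        rfl
      map_smul' := by
        intro r f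
        funext p
        show MvPowerSeries.coeff (x p.1) (tay C (r • f.1)) = _
        rw [tay_smul, map_smul]
        rfl }
  have hinj : Function.Injective Φ := by
    rw [injective_iff_map_eq_zero]
    intro f hf
    have hcoef : ∀ a : Fin 3 →₀ ℕ, a.degree ≤ d → a 2 < e →
        MvPowerSeries.coeff a (tay C f.1) = 0 := by
      intro a had ha2
      have hdeg : a.degree = a 0 + a 1 + a 2 := by
        rw [Finsupp.degree_eq_sum, Fin.sum_univ_three]
      have hmem : (a 2, a 0, a 1) ∈ F := by
        rw [hF, Finset.mem_product, hT]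
        refine ⟨Finset.mem_range.2 ha2, Finset.mem_biUnion.2 ⟨a 0 + a 1, ?_, ?_⟩⟩
        · rw [Finset.mem_range]
          omega
        · exact Finset.HasAntidiagonal.mem_antidiagonal.2 rfl
      have h1 := congrFun hf ⟨(a 2, a 0, a 1), hmem⟩
      have h2 : x (a 2, a 0, a 1) = a := by
        rw [hx]
        ext i
        fin_cases i <;> simp
      have h3 : MvPowerSeries.coeff (x (a 2, a 0, a 1)) (tay C f.1) = 0 := h1
      rwa [h2] at h3
    have hall : ∀ r : ℕ, r ≤ d + 1 → ∀ a : Fin 3 →₀ ℕ, a.degree < r →
        MvPowerSeries.coeff a (tay C f.1) = 0 := by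
      intro r
      induction r with
      | zero =>
        intro _ a ha
        omega
      | succ r ih =>
        intro hr a ha
        by_cases har : a.degree < r
        · exact ih (by omega) a har
        by_cases ha2 : a 2 < e
        · exact hcoef a (by omega) ha2
        obtain ⟨b, hb⟩ : ∃ b, a = b + Finsupp.single 2 e := by
          refine ⟨a - Finsupp.single 2 e, ?_⟩
          rw [tsub_add_cancel_of_le]
          rw [Finsupp.single_le_iff]
          omega
        have hbd : b.degree + e = r := by
          have h4 : a.degree = b.degree + e := by rw [hb, hone_deg]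
          omega
        rw [hb]
        refine hone_key C S hPI hst hV b.degree b rfl f.1 f.2 ?_
        intro c hc
        exact ih (by omega) c (by omega)
    have h0 : f.1 = 0 := by
      apply hd f.1 f.2
      rw [ordGE_iff C]
      intro a ha
      exact hall (d + 1) le_rfl a ha
    exact Subtype.ext h0
  have hfin : Module.Finite K (S.M K 1) := M_finite S 1
  have h1 := LinearMap.finrank_le_finrank_of_injective hinj
  rw [finrank_M S 1, Module.finrank_fintype_fun_eq_card, Fintype.card_coe, hF, Finset.card_product,
    Finset.card_range] at h1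
  refine h1.trans (Nat.mul_le_mul_left e ?_)
  rw [hT]
  exact hone_card d


end Pool.Agent.H24.TU
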