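/-
MP_e49dc9_ag, THEOREM U, THEOREM I (assembly).

K / k a finitely generated field extension of transcendence degree 3, k algebraically closed of
characteristic 0, S a graded system with (*1), h_n <= w n^3 eventually, h_1 > (1 + 3/e)^3 w and
h_1 >= C(2e+5, 3). Then there is an intermediate field F with trdeg_F K = 1 and
dim_F (F L_n) <= 28 e n + C for all n.
-/
import Pool.Agent.H24.TU.Count
import Pool.Agent.H24.TU.Cmp
import Pool.Agent.H24.TU.Trans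
import Pool.Agent.H24.TU.HOne
import Pool.Agent.H24.TU.Deg

open scoped TensorProduct

namespace Pool.Agent.H24.TU

universe u

/-- The arithmetic of the degree bound. -/
theorem arith_bound (dd h : ℕ → ℕ) (c j e : ℕ) (hj : 1 ≤ j) (w : ℝ) (hw0 : 0 ≤ w)
    (hb : ∀ N n : ℕ, (j * N + 1).choose 2 * dd n ≤ h (N + c + n))
    (hw : ∀ᶠ n : ℕ in Filter.atTop, (h n : ℝ) ≤ w * (n : ℝ) ^ 3)
    (hwj : w ≤ 2 * (e : ℝ) * (j : ℝ) ^ 2) :
    ∃ C : ℝ, ∀ n : ℕ, (dd n : ℝ) ≤ 28 * (e : ℝ) * n + C := by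
  obtain ⟨n₀, hn₀⟩ := Filter.eventually_atTop.1 hw
  have hj' : (1 : ℝ) ≤ j := by exact_mod_cast hj
  have key : ∀ n : ℕ, n₀ ≤ n → 1 ≤ n →
      (dd n : ℝ) ≤ 27 * (e : ℝ) * n + (e : ℝ) * (27 * c + 9 * (c : ℝ) ^ 2 + (c : ℝ) ^ 3) := by
    intro n hn hn1
    have hn' : (1 : ℝ) ≤ n := by exact_mod_cast hn1
    have h1 := hb (2 * n) n
    have h2 := hn₀ (2 * n + c + n) (by omega)
    have hch : ((j * (2 * n) + 1).choose 2 : ℝ) = (2 * j * n + 1) * (2 * j * n) / 2 := by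
      rw [Nat.choose_two_right]
      have hd : 2 ∣ (j * (2 * n) + 1) * (j * (2 * n) + 1 - 1) :=
        (Nat.even_mul_pred_self (j * (2 * n) + 1)).two_dvd
      rw [Nat.cast_div hd (by norm_num), Nat.add_sub_cancel]
      push_cast
      ring
    have h3 : (((j * (2 * n) + 1).choose 2 : ℕ) : ℝ) * (dd n : ℝ) ≤
        w * ((2 * n + c + n : ℕ) : ℝ) ^ 3 := by
      refine le_trans ?_ h2
      exact_mod_cast h1
    rw [hch] at h3
    push_cast at h3
    have hdd : (0 : ℝ) ≤ dd n := Nat.cast_nonneg _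
    have h4 : 2 * (j : ℝ) ^ 2 * n ^ 2 * dd n ≤ w * (3 * n + c) ^ 3 := by
      have h5 : 2 * (j : ℝ) ^ 2 * n ^ 2 ≤ (2 * j * n + 1) * (2 * j * n) / 2 := by
        have : (0 : ℝ) ≤ j * n := by positivity
        nlinarith
      calc 2 * (j : ℝ) ^ 2 * n ^ 2 * dd n ≤ (2 * j * n + 1) * (2 * j * n) / 2 * dd n :=
            mul_le_mul_of_nonneg_right h5 hdd
        _ ≤ w * (2 * n + c + n) ^ 3 := h3
        _ = w * (3 * n + c) ^ 3 := by ring
    have h6 : w * (3 * n + c) ^ 3 ≤ 2 * (e : ℝ) * (j : ℝ) ^ 2 * (3 * n + c) ^ 3 :=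
      mul_le_mul_of_nonneg_right hwj (by positivity)
    have hj2 : (0 : ℝ) < 2 * (j : ℝ) ^ 2 := by positivity
    have h7 : (n : ℝ) ^ 2 * dd n ≤ (e : ℝ) * (3 * n + c) ^ 3 := by
      have : 2 * (j : ℝ) ^ 2 * ((n : ℝ) ^ 2 * dd n) ≤
          2 * (j : ℝ) ^ 2 * ((e : ℝ) * (3 * n + c) ^ 3) := by
        calc 2 * (j : ℝ) ^ 2 * ((n : ℝ) ^ 2 * dd n) = 2 * (j : ℝ) ^ 2 * n ^ 2 * dd n := by ring
          _ ≤ w * (3 * n + c) ^ 3 := h4
          _ ≤ 2 * (e : ℝ) * (j : ℝ) ^ 2 * (3 * n + c) ^ 3 := h6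
          _ = 2 * (j : ℝ) ^ 2 * ((e : ℝ) * (3 * n + c) ^ 3) := by ring
      exact le_of_mul_le_mul_left this hj2
    have hn2 : (0 : ℝ) < (n : ℝ) ^ 2 := by positivity
    have h8 : (e : ℝ) * (3 * n + c) ^ 3 ≤
        (n : ℝ) ^ 2 * (27 * (e : ℝ) * n +
          (e : ℝ) * (27 * c + 9 * (c : ℝ) ^ 2 + (c : ℝ) ^ 3)) := by
      have hc : (0 : ℝ) ≤ c := Nat.cast_nonneg _
      have he : (0 : ℝ) ≤ e := Nat.cast_nonneg _
      have e1 : (n : ℝ) ≤ n ^ 2 := by nlinarith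
      have e2 : (1 : ℝ) ≤ n ^ 2 := by nlinarith
      have e3 : (3 * (n : ℝ) + c) ^ 3 ≤
          n ^ 2 * (27 * n + (27 * c + 9 * (c : ℝ) ^ 2 + (c : ℝ) ^ 3)) := by
        have f1 : 9 * (c : ℝ) ^ 2 * n ≤ 9 * (c : ℝ) ^ 2 * n ^ 2 :=
          mul_le_mul_of_nonneg_left e1 (by positivity)
        have f2 : (c : ℝ) ^ 3 * 1 ≤ (c : ℝ) ^ 3 * n ^ 2 :=
          mul_le_mul_of_nonneg_left e2 (by positivity)
        nlinarith
      calc (e : ℝ) * (3 * n + c) ^ 3 ≤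
            (e : ℝ) * (n ^ 2 * (27 * n + (27 * c + 9 * (c : ℝ) ^ 2 + (c : ℝ) ^ 3))) :=
            mul_le_mul_of_nonneg_left e3 he
        _ = _ := by ring
    exact le_of_mul_le_mul_left (h7.trans h8) hn2
  refine ⟨(e : ℝ) * (27 * c + 9 * (c : ℝ) ^ 2 + (c : ℝ) ^ 3) +
    ∑ m ∈ Finset.range (n₀ + 1), (dd m : ℝ), ?_⟩
  intro n
  have hsum : (0 : ℝ) ≤ ∑ m ∈ Finset.range (n₀ + 1), (dd m : ℝ) :=
    Finset.sum_nonneg fun _ _ => Nat.cast_nonneg _
  have hc0 : (0 : ℝ) ≤ (e : ℝ) * (27 * c + 9 * (c : ℝ) ^ 2 + (c : ℝ) ^ 3) := by positivity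
  have hen : (0 : ℝ) ≤ (e : ℝ) * n := by positivity
  by_cases hn : n < n₀ + 1
  · have := Finset.single_le_sum (f := fun m => (dd m : ℝ))
      (fun _ _ => Nat.cast_nonneg _) (Finset.mem_range.2 hn)
    linarith
  · have := key n (by omega) (by omega)
    linarith

/-- THEOREM I. -/
theorem theoremI {k K : Type u} [Field k] [CharZero k] [IsAlgClosed k] [Field K] [Algebra k K]
    [Algebra.EssFiniteType k K] (htr : Algebra.trdeg k K = 3) (S : GSys k K)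
    (hstar : StarOne k K K (S.L 1)) {e : ℕ} (he : 1 ≤ e) (w : ℝ)
    (hw : ∀ᶠ n : ℕ in Filter.atTop, (Module.finrank k (S.L n) : ℝ) ≤ w * (n : ℝ) ^ 3)
    (h1 : (1 + 3 / (e : ℝ)) ^ 3 * w < (Module.finrank k (S.L 1) : ℝ))
    (h2 : (2 * e + 5).choose 3 ≤ Module.finrank k (S.L 1)) :
    ∃ F : IntermediateField k K, Algebra.trdeg F K = 1 ∧
      ∃ C : ℝ, ∀ n : ℕ,
        (Module.finrank F (Submodule.span F (S.L n : Set K)) : ℝ) ≤ 28 * (e : ℝ) * n + C := by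
  obtain ⟨C₀⟩ := exists_coord (k := k) (K := K) htr
  -- the prime P
  have hP : ∃ P : Ideal (K ⊗[k] K), P.IsPrime ∧ VIdeal S e ≤ P ∧ P ≤ dI k K ∧ P ≠ dI k K := by
    by_contra hcon
    push Not at hcon
    obtain ⟨c, hc⟩ := all_exponents C₀ S he (fun Q hQ h3 h4 => hcon Q hQ h3 h4)
    exact absurd h1 (not_lt.2 (vol_bound C₀ S he hc w hw))
  obtain ⟨P, hP, hVP, hPI, hPne⟩ := hP
  obtain ⟨d, g, hg, hg0, hgd, hmax, hch⟩ := max_order C₀ S
  have hd : 2 * e + 2 ≤ d := by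
    by_contra hcon
    have h3 : (d + 3).choose 3 < (2 * e + 5).choose 3 := by
      have h4 : (d + 3).choose 3 ≤ (2 * e + 4).choose 3 := Nat.choose_le_choose 3 (by omega)
      have h5 : (2 * e + 5).choose 3 = (2 * e + 4).choose 2 + (2 * e + 4).choose 3 :=
        Nat.choose_succ_succ _ _
      have h6 : 0 < (2 * e + 4).choose 2 := Nat.choose_pos (by omega)
      omega
    omega
  have hgP : OrdGE P (d + 1 - e) g := ord_compare S hP hVP hg hgd
  have hgP2 : OrdGE P 2 g := OrdGE_mono (by omega) hgP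
  -- transcendence degree
  have htrP : Algebra.trdeg K ((K ⊗[k] K) ⧸ P) = 1 := by
    have h3 : ¬ 2 ≤ Algebra.trdeg K ((K ⊗[k] K) ⧸ P) := by
      intro h4
      obtain ⟨δ, hδ⟩ := hstar g hg hg0 P hP h4 hgP2.1
      exact hδ (hgP2.2 δ).1
    have h4 : Algebra.trdeg K ((K ⊗[k] K) ⧸ dI k K) < Algebra.trdeg K ((K ⊗[k] K) ⧸ P) :=
      trdeg_quot_lt hP inferInstance (lt_of_le_of_ne hPI hPne) (trdeg_quot_fin hP)
    rw [trdeg_dI] at h4
    have h5 : 1 ≤ Algebra.trdeg K ((K ⊗[k] K) ⧸ P) := Cardinal.one_le_iff_pos.2 h4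
    have h6 : Algebra.trdeg K ((K ⊗[k] K) ⧸ P) < 2 := not_le.1 h3
    have h7 : Algebra.trdeg K ((K ⊗[k] K) ⧸ P) ≤ 1 := by
      obtain ⟨n, hn⟩ := Cardinal.lt_aleph0.1 (h6.trans (by exact_mod_cast Cardinal.natCast_lt_aleph0 (n := 2)))
      rw [hn] at h6 ⊢
      have h8 : n < 2 := by exact_mod_cast h6
      have h9 : n ≤ 1 := by omega
      exact_mod_cast h9
    exact le_antisymm h7 h5
  -- the two maps
  let x : K →ₐ[k] P.ResidueField :=
    (IsScalarTower.toAlgHom k (K ⊗[k] K) P.ResidueField).comp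
      (Algebra.TensorProduct.includeLeft : K →ₐ[k] K ⊗[k] K)
  let y : K →ₐ[k] P.ResidueField :=
    (IsScalarTower.toAlgHom k (K ⊗[k] K) P.ResidueField).comp
      (Algebra.TensorProduct.includeRight : K →ₐ[k] K ⊗[k] K)
  have hxy : ∀ q : K ⊗[k] K, pt x y q = algebraMap (K ⊗[k] K) P.ResidueField q := by
    intro q
    induction q using TensorProduct.induction_on with
    | zero => simp
    | add a b ha hb => rw [map_add, map_add, ha, hb]
    | tmul a b =>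
      rw [pt_tmul]
      show algebraMap (K ⊗[k] K) P.ResidueField (a ⊗ₜ[k] 1) *
        algebraMap (K ⊗[k] K) P.ResidueField (1 ⊗ₜ[k] b) = _
      rw [← map_mul, Algebra.TensorProduct.tmul_mul_tmul, mul_one, one_mul]
  have hPxy : ptI x y = P := by
    ext q
    rw [mem_ptI, hxy, Ideal.algebraMap_residueField_eq_zero]
  have hle : (ptI x y).map (chg K x) ≤ (ptI x y).map (chg K y) := by
    refine transitivity S hstar x y (by rw [hPxy]; exact hPI) (by rw [hPxy]; exact htrP)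
      (j := d + 1 - e) hg hg0 (by rw [hPxy]; exact hgP) ?_
    intro f hf hf'
    rw [hPxy]
    exact OrdGE_mono (by omega) (ord_compare S hP hVP hf hf')
  have hPI' : ptI x y ≤ dI k K := by rw [hPxy]; exact hPI
  have htrF : Algebra.trdeg (eqF x y) K = 1 := trdeg_eqF x y hle hPI' (by rw [hPxy]; exact htrP)
  refine ⟨eqF x y, htrF, ?_⟩
  obtain ⟨C, hC0, hC1⟩ := exists_coord_adapted htr (eqF x y) htrF
  have hst : ∀ p ∈ P, dK K (C.d 2) p ∈ P := by
    have := stable_d2 x y hle hPI' C (d2_eq_zero C (eqF x y) htrF hC0 hC1)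
    rw [hPxy] at this
    exact this
  have hh1 : Module.finrank k (S.L 1) ≤ e * (d + 2).choose 2 := h1_le C S hPI hst hVP hmax
  -- the set W
  let W : Set (K ⊗[k] K) := insert g (Set.range fun i : Fin 3 => dX K (C.d i) g)
  have hWfin : W.Finite := (Set.finite_range _).insert _
  have hWM : ∀ q ∈ W, q ∈ S.M K 1 := by
    rintro q (rfl | ⟨i, rfl⟩)
    · exact hg
    · exact M_dX S hg _
  have hWj : ∀ q ∈ W, OrdGE P (d - e) q := by
    rintro q (rfl | ⟨i, rfl⟩)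
    · exact OrdGE_mono (by omega) hgP
    · have h3 : OrdGE (dI k K) ((d - 1) + 1) g := by
        rw [Nat.sub_add_cancel (by omega)]; exact hgd
      have h4 := ordGE_dX (inferInstance : (dI k K).IsPrime) (d - 1) h3 (C.d i)
      have h5 := ord_compare S hP hVP (M_dX S hg (C.d i)) h4
      exact OrdGE_mono (by omega) h5
  have hWP : Ideal.span W ≤ P := by
    rw [Ideal.span_le]
    intro q hq
    have h3 : OrdGE P 1 q := OrdGE_mono (by omega) (hWj q hq)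
    exact h3.1
  have hWmin : ∀ Q : Ideal (K ⊗[k] K), Q.IsPrime → Ideal.span W ≤ Q → Q ≤ P → Q = P := by
    intro Q hQ h3 h4
    refine prime_eq S hstar hP htrP hg hg0 (J := Ideal.span W)
      (Ideal.subset_span (Set.mem_insert _ _)) ?_ Q hQ h3 h4
    intro θ
    exact Ideal.span_mono (Set.subset_insert _ _) (dX_mem_span C g θ)
  have hp0 : (1 : K) ⊗ₜ[k] C.c 0 - C.c 0 ⊗ₜ[k] (1 : K) ∈ P := by
    have := mem_ptI_eqF x y hC0
    rwa [hPxy] at this
  have hp1 : (1 : K) ⊗ₜ[k] C.c 1 - C.c 1 ⊗ₜ[k] (1 : K) ∈ P := by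
    have := mem_ptI_eqF x y hC1
    rwa [hPxy] at this
  have := hP
  obtain ⟨c, hc⟩ := degree_bound S C P hp0 hp1 W hWfin hWM hWj hWP hWmin
  -- numerics
  have hw0 : 0 ≤ w := by
    by_contra hneg
    push Not at hneg
    obtain ⟨n, hn, hn1⟩ := (hw.and (Filter.eventually_ge_atTop 1)).exists
    have hn' : (1 : ℝ) ≤ n := by exact_mod_cast hn1
    have h3 : w * (n : ℝ) ^ 3 < 0 := mul_neg_of_neg_of_pos hneg (by positivity)
    have h4 : (0 : ℝ) ≤ (Module.finrank k (S.L n) : ℝ) := Nat.cast_nonneg _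
    linarith
  have he' : (1 : ℝ) ≤ e := by exact_mod_cast he
  have hwh : w ≤ (Module.finrank k (S.L 1) : ℝ) := by
    have h3 : (1 : ℝ) ≤ (1 + 3 / (e : ℝ)) ^ 3 := by
      apply one_le_pow₀
      have : (0 : ℝ) ≤ 3 / (e : ℝ) := by positivity
      linarith
    nlinarith
  have hwj : w ≤ 2 * (e : ℝ) * ((d - e : ℕ) : ℝ) ^ 2 := by
    have h3 : ((d + 2).choose 2 : ℝ) = (d + 2) * (d + 1) / 2 := by
      rw [Nat.choose_two_right]
      have hdv : 2 ∣ (d + 2) * (d + 2 - 1) := (Nat.even_mul_pred_self (d + 2)).two_dvd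
      rw [Nat.cast_div hdv (by norm_num), show d + 2 - 1 = d + 1 by omega]
      push_cast
      ring
    have h4 : (Module.finrank k (S.L 1) : ℝ) ≤ e * ((d + 2) * (d + 1) / 2) := by
      rw [← h3]
      exact_mod_cast hh1
    have h5 : ((d - e : ℕ) : ℝ) = (d : ℝ) - e := by
      rw [Nat.cast_sub (by omega)]
    have h6 : (d : ℝ) + 2 ≤ 2 * ((d - e : ℕ) : ℝ) := by
      rw [h5]
      have : (2 * (e : ℝ) + 2) ≤ d := by exact_mod_cast hd
      linarith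
    have hd0 : (0 : ℝ) ≤ d := Nat.cast_nonneg _
    have h7 : ((d : ℝ) + 2) * (d + 1) / 2 ≤ 2 * ((d - e : ℕ) : ℝ) ^ 2 := by
      nlinarith
    calc w ≤ (Module.finrank k (S.L 1) : ℝ) := hwh
      _ ≤ e * ((d + 2) * (d + 1) / 2) := h4
      _ ≤ e * (2 * ((d - e : ℕ) : ℝ) ^ 2) :=
          mul_le_mul_of_nonneg_left h7 (by positivity)
      _ = 2 * (e : ℝ) * ((d - e : ℕ) : ℝ) ^ 2 := by ring
  obtain ⟨Cc, hCc⟩ := arith_bound (fun n => dN S P n) (fun n => Module.finrank k (S.L n)) c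
    (d - e) e (by omega) w hw0 hc hw hwj
  refine ⟨Cc, fun n => le_trans ?_ (hCc n)⟩
  have h3 := finrank_span_le S x y hle hPI' n
  rw [hPxy] at h3
  exact_mod_cast h3

/-- THEOREM I with a linear bound in the natural numbers. -/
theorem theoremI_nat {k K : Type u} [Field k] [CharZero k] [IsAlgClosed k] [Field K]
    [Algebra k K] [Algebra.EssFiniteType k K] (htr : Algebra.trdeg k K = 3) (S : GSys k K)
    (hstar : StarOne k K K (S.L 1)) {e : ℕ} (he : 1 ≤ e) (w : ℝ)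
    (hw : ∀ᶠ n : ℕ in Filter.atTop, (Module.finrank k (S.L n) : ℝ) ≤ w * (n : ℝ) ^ 3)
    (h1 : (1 + 3 / (e : ℝ)) ^ 3 * w < (Module.finrank k (S.L 1) : ℝ))
    (h2 : (2 * e + 5).choose 3 ≤ Module.finrank k (S.L 1)) :
    ∃ F : IntermediateField k K, Algebra.trdeg F K = 1 ∧
      ∃ n₀ : ℕ, ∀ n : ℕ, n₀ ≤ n →
        Module.finrank F (Submodule.span F (S.L n : Set K)) ≤ (28 * e + 1) * n := by
  obtain ⟨F, hF, C, hC⟩ := theoremI htr S hstar he w hw h1 h2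
  obtain ⟨n₀, hn₀⟩ := exists_nat_ge C
  refine ⟨F, hF, n₀, fun n hn => ?_⟩
  have h3 := hC n
  have h4 : (n₀ : ℝ) ≤ n := by exact_mod_cast hn
  have h5 : (Module.finrank F (Submodule.span F (S.L n : Set K)) : ℝ) ≤
      (28 * (e : ℝ) + 1) * n := by nlinarith
  exact_mod_cast h5

end Pool.Agent.H24.TU
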