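/-
MP_e49dc9_ag, THEOREM U, Theorem II case A, module TU/CD1: a place whose centre has codimension one
is the local ring at its centre.

h : Hyp X (trdeg k K = 3, all local rings factorial), p a place of K over k, x = cenK p its centre,
2 <= trdeg k (X.kap x). Then X.O x = p.R.
PROOF. O := X.O x is dominated by p.R (cenK_dom): O <= p.R and an element of O which is a unit of
p.R is a unit of O.
STATEMENT 1 (dvd_of_cod_one): q a prime element of O, a in O not a unit of O: a / q in O.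
PROOF: a = 0 is trivial. pdiv_of_prime (H83/TU/PA): P : PDiv X with P.eta specializing to x,
ord_P q = 1, and for 0 <> a in O: ord_P a > 0 iff a / q in O. Put O' = X.O P.eta = P.p.R (P.mem), a DVR;
O <= O' (h.var.spec); mm' its maximal ideal, I := mm' cap O, a prime ideal of O, mm the maximal ideal
of O. Claim: I = mm (then the nonunit a is in mm', so ord_P a > 0, done). Suppose I < mm. O / I
embeds in O' / mm'. trdeg_k (O' / mm') < trdeg_k (O' / 0) <= trdeg_k K = 3 (trdeg_quot_lt of TU/TrD for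
the primes 0 < mm' of O': a DVR is not a field), so it is <= 2, so trdeg_k (O / I) <= 2 is finite, and
trdeg_quot_lt for I < mm gives trdeg_k (O / mm) < trdeg_k (O / I) <= 2; but O / mm = X.kap x has
trdeg >= 2: contradiction.
STATEMENT 2 (cod_one). O <> K as otherwise p.R = K, which is not a DVR (p.dvr). So O is a factorial
domain with fraction field K (every b in K is a quotient of elements of O: gen_frac of PA for a chart
U of x, h.var.chart, X.sec U <= O) which is not a field, so it has a prime element pi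
(UniqueFactorizationMonoid, exists_mem_factors / WfDvdMonoid.exists_irreducible_factor). By
STATEMENT 1 every nonunit of O is divisible by pi; hence every 0 <> b in O is pi^n u, u a unit of O
(induction on the number of factors, or WfDvdMonoid.max_power_factor), and every 0 <> b in K is
pi^n u, n in Z. pi is not a unit of O so not a unit of p.R (domination): ord_p pi > 0, ord_p u = 0. So
b in p.R iff n >= 0 iff b in O.
-/
import Pool.Agent.H83.TU.PA
import Pool.Agent.H24.TU.TrD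

set_option autoImplicit false

namespace Pool.Agent.H24.TU

open Pool.Agent.H54.RV Pool.Agent.H83.TU

variable {k K : Type} [Field k] [Field K] [Algebra k K] {X : Mod k K}

private theorem nat_of_lt {a b : Cardinal.{0}} {n : ℕ} (hab : a < b) (hb : b ≤ (n + 1 : ℕ)) :
    a ≤ (n : ℕ) := by
  have hb' : b < Cardinal.aleph0 := lt_of_le_of_lt hb (Cardinal.natCast_lt_aleph0)
  obtain ⟨m, hm⟩ := Cardinal.lt_aleph0.1 hb'
  obtain ⟨l, hl⟩ := Cardinal.lt_aleph0.1 (hab.trans hb')
  rw [hm] at hab hb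
  rw [hl] at hab ⊢
  have h1 : l < m := by exact_mod_cast hab
  have h2 : m ≤ n + 1 := by exact_mod_cast hb
  have h3 : l ≤ n := by omega
  exact_mod_cast h3

/-- An element of the local ring at x which is not a unit is divisible by every prime element,
if x is a point with trdeg of the residue field at least 2. -/
theorem dvd_of_cod_one (h : Hyp X) (x : X.P) (hx : 2 ≤ Algebra.trdeg k (X.kap x)) (q : K)
    (hq : q ∈ X.O x) (hp : Prime (⟨q, hq⟩ : X.O x)) (a : K) (ha : a ∈ X.O x)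
    (hu : ¬ Un (X.O x) a) : a / q ∈ X.O x := by
  by_cases ha0 : a = 0
  · rw [ha0, zero_div]
    exact (X.O x).zero_mem
  obtain ⟨P, hPx, hPq, hP⟩ := pdiv_of_prime h x q hq hp
  rw [← hP a ha ha0]
  have hle : X.O x ≤ X.O P.η := h.var.spec P.η x hPx
  let i : X.O x →ₐ[k] X.O P.η := Subalgebra.inclusion hle
  let mA := IsLocalRing.maximalIdeal (X.O x)
  let mB := IsLocalRing.maximalIdeal (X.O P.η)
  let I : Ideal (X.O x) := mB.comap i
  have hIp : I.IsPrime := Ideal.comap_isPrime _ _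
  -- the residue field of the divisor
  have hB : Algebra.trdeg k (X.O P.η ⧸ mB) ≤ (2 : ℕ) := by
    have hbot : (⊥ : Ideal (X.O P.η)).IsPrime := Ideal.isPrime_bot
    have hlt : (⊥ : Ideal (X.O P.η)) < mB := by
      rw [bot_lt_iff_ne_bot]
      intro h0
      have h1 : (⟨q, hle hq⟩ : X.O P.η) ∈ mB := by
        rw [IsLocalRing.mem_maximalIdeal, mem_nonunits_iff, un_iff]
        rintro ⟨h2, h3, h4⟩
        have h5 := (ord_eq_zero P.p q h2).2 ⟨(P.mem _).1 h3, (P.mem _).1 h4⟩
        omega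
      rw [h0, Ideal.mem_bot] at h1
      have h2 : q = 0 := congrArg Subtype.val h1
      exact hp.ne_zero (Subtype.ext h2)
    have h3 : Algebra.trdeg k (X.O P.η ⧸ (⊥ : Ideal (X.O P.η))) ≤ (2 + 1 : ℕ) := by
      rw [(AlgEquiv.quotientBot k (X.O P.η)).trdeg_eq]
      have h4 := trdeg_le_of_injective (X.O P.η).val Subtype.val_injective
      rw [h.tr] at h4
      exact h4.trans (by norm_num)
    exact nat_of_lt (trdeg_quot_lt hbot inferInstance hlt
      (lt_of_le_of_lt h3 Cardinal.natCast_lt_aleph0)) h3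
  have hA : Algebra.trdeg k (X.O x ⧸ I) ≤ (2 : ℕ) := by
    refine le_trans ?_ hB
    refine trdeg_le_of_injective (Ideal.quotientMapₐ mB i le_rfl) ?_
    exact Ideal.quotientMap_injective (I := mB) (f := (i : X.O x →+* X.O P.η))
  have hI : I = mA := by
    by_contra hne
    have hlt : I < mA := lt_of_le_of_ne (IsLocalRing.le_maximalIdeal hIp.ne_top) hne
    have h1 := nat_of_lt (n := 1) (trdeg_quot_lt hIp inferInstance hlt
      (lt_of_le_of_lt hA Cardinal.natCast_lt_aleph0)) hA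
    have h2 : (2 : Cardinal) ≤ (1 : ℕ) := le_trans hx h1
    have h3 : (2 : ℕ) ≤ 1 := by exact_mod_cast h2
    omega
  have h1 : (⟨a, ha⟩ : X.O x) ∈ I := by
    rw [hI, IsLocalRing.mem_maximalIdeal, mem_nonunits_iff, un_iff]
    exact hu
  have h2 : (⟨a, hle ha⟩ : X.O P.η) ∈ mB := h1
  rw [IsLocalRing.mem_maximalIdeal, mem_nonunits_iff, un_iff] at h2
  have h3 : 0 ≤ P.p.ord a := (ord_nonneg P.p a ha0).2 ((P.mem _).1 (hle ha))
  refine lt_of_le_of_ne h3 fun h4 => h2 ?_
  have h5 := (ord_eq_zero P.p a ha0).1 h4.symm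
  exact ⟨ha0, (P.mem _).2 h5.1, (P.mem _).2 h5.2⟩

theorem cod_one (h : Hyp X) (p : Place k K)
    (hx : 2 ≤ Algebra.trdeg k (X.kap (cenK h.var h.gen p))) (a : K) :
    a ∈ X.O (cenK h.var h.gen p) ↔ a ∈ p.R := by
  set x := cenK h.var h.gen p with hxdef
  have hdom : Dom X x p := cenK_dom h.var h.gen p
  have := h.ufd x
  obtain ⟨U, hU, hxU⟩ := h.var.chart x
  have hRx : ∀ a ∈ X.sec U, a ∈ X.O x := fun a ha => (mem_sec U a).1 ha x hxU
  -- a nonunit
  obtain ⟨t, ht0, ht⟩ := ord_unif p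
  have hex : ∃ b : K, b ∈ X.O x ∧ b ≠ 0 ∧ ¬ Un (X.O x) b := by
    obtain ⟨s, hs, hs0, hts⟩ := gen_frac h.var h.gen U hU ⟨x, hxU⟩ t
    by_cases hsu : Un (X.O x) s
    · refine ⟨t * s, hRx _ hts, mul_ne_zero ht0 hs0, fun hh => ?_⟩
      have h1 := (ord_eq_zero p _ hh.1).2 ⟨(hdom _ hh.2.1).1, (hdom _ hh.2.2).1⟩
      have h2 := (ord_eq_zero p _ hsu.1).2 ⟨(hdom _ hsu.2.1).1, (hdom _ hsu.2.2).1⟩
      rw [ord_mul p t s ht0 hs0] at h1
      omega
    · exact ⟨s, hRx _ hs, hs0, hsu⟩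
  obtain ⟨b, hb, hb0, hbu⟩ := hex
  obtain ⟨π, hπirr, -⟩ := WfDvdMonoid.exists_irreducible_factor (a := (⟨b, hb⟩ : X.O x))
    (fun hh => hbu ((un_iff hb).1 hh)) (fun hh => hb0 (congrArg Subtype.val hh))
  have hπ : Prime π := hπirr.prime
  obtain ⟨q, hq⟩ := π
  have hq0 : q ≠ 0 := fun hh => hπ.ne_zero (Subtype.ext hh)
  have hqu : ¬ Un (X.O x) q := fun hh => hπ.not_isUnit ((un_iff hq).2 hh)
  have hqp : 0 < p.ord q := by
    have h1 : 0 ≤ p.ord q := (ord_nonneg p q hq0).2 (hdom q hq).1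
    refine lt_of_le_of_ne h1 fun h2 => hqu ?_
    have h3 := (ord_eq_zero p q hq0).1 h2.symm
    exact ⟨hq0, hq, (hdom q hq).2 hq0 h3.2⟩
  have hfac : ∀ a ∈ X.O x, a ≠ 0 → ∃ (n : ℕ) (u : K), Un (X.O x) u ∧ a = q ^ n * u := by
    intro a ha ha0
    obtain ⟨n, c, hc, hac⟩ := WfDvdMonoid.max_power_factor (a₀ := (⟨a, ha⟩ : X.O x))
      (fun hh => ha0 (congrArg Subtype.val hh)) hπirr
    refine ⟨n, (c : K), ?_, congrArg Subtype.val hac⟩
    by_contra hcu
    apply hc
    refine ⟨⟨(c : K) / q, dvd_of_cod_one h x hx q hq hπ c c.2 hcu⟩, Subtype.ext ?_⟩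
    change (c : K) = q * ((c : K) / q)
    field_simp
  refine ⟨fun ha => (hdom a ha).1, fun ha => ?_⟩
  by_cases ha0 : a = 0
  · rw [ha0]
    exact (X.O x).zero_mem
  obtain ⟨s, hs, hs0, has⟩ := gen_frac h.var h.gen U hU ⟨x, hxU⟩ a
  obtain ⟨n, u, hu, hn⟩ := hfac (a * s) (hRx _ has) (mul_ne_zero ha0 hs0)
  obtain ⟨m, v, hv, hm⟩ := hfac s (hRx _ hs) hs0
  have hun : ∀ w : K, Un (X.O x) w → p.ord w = 0 := fun w hw =>
    (ord_eq_zero p w hw.1).2 ⟨(hdom _ hw.2.1).1, (hdom _ hw.2.2).1⟩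
  have hpow : ∀ l : ℕ, p.ord (q ^ l) = l * p.ord q := by
    intro l
    induction l with
    | zero => rw [pow_zero, ord_one]; simp
    | succ l ih =>
      rw [pow_succ, ord_mul p _ _ (pow_ne_zero l hq0) hq0, ih]
      push_cast
      ring
  have h1 : p.ord (a * s) = n * p.ord q := by
    rw [hn, ord_mul p _ _ (pow_ne_zero n hq0) hu.1, hpow, hun u hu, add_zero]
  have h2 : p.ord s = m * p.ord q := by
    rw [hm, ord_mul p _ _ (pow_ne_zero m hq0) hv.1, hpow, hun v hv, add_zero]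
  have h3 : 0 ≤ p.ord a := (ord_nonneg p a ha0).2 ha
  rw [ord_mul p a s ha0 hs0, h2] at h1
  have hmn : m ≤ n := by
    by_contra hlt
    have h4 : (n : ℤ) < m := by exact_mod_cast not_le.1 hlt
    nlinarith
  have h5 : a = q ^ (n - m) * (u * v⁻¹) := by
    have h6 : q ^ m ≠ 0 := pow_ne_zero m hq0
    have hv0 := hv.1
    have h7 : a = a * s / s := by field_simp
    rw [h7, hn, hm]
    have h8 : q ^ n = q ^ (n - m) * q ^ m := by
      rw [← pow_add]
      congr 1
      omega
    rw [h8]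
    field_simp
  rw [h5]
  exact (X.O x).mul_mem ((X.O x).pow_mem hq _) ((X.O x).mul_mem hu.2.1 hv.2.2)

end Pool.Agent.H24.TU
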