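/-
MP_e49dc9_ag, THEOREM U, Theorem II, module TU/CA: CASE A.

h : Hyp X, F an intermediate field with trdeg_F K = 1 such that every place of K over F has a centre x
with trdeg_k kap(x) >= 2. Then there is an effective divisor M, M^-1 not effective, RF F M = 0.
PROOF. trdeg_k F = 2 (Algebra.trdeg_add_eq, trdeg k K = 3), so there is zeta in F transcendental over
k, zeta <> 0. M := the polar divisor of zeta (PO.polar): effective, Sec M 1 zeta and
a zeta in O x iff a / M.eq x in O x for a in O x. RF F M = 0: for every place p over F with centre x: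
zeta in F, so zeta in p.R = X.O x (cod_one, TU/CD1, for down p), so by PO.polar_mem (M.eq x)^-1 in
X.O x, and M.eq x in X.O x: the order of M.eq x at p is 0 (ord_eq_zero; X.O x <= p.R); all terms of
the sum RF vanish (finsum of zeros).
M^-1 is not effective: otherwise (M.eq x)^-1 in X.O x for all x, so zeta in X.O x for all x
(PO.polar_mem). zeta is transcendental over k. Choose an intermediate field F_1 with k <= F_1,
trdeg_(F_1) K = 1 and zeta transcendental over F_1 (extend zeta to a transcendence basis (zeta, u, v)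
of K / k and take F_1 = k(u, v) = IntermediateField.adjoin k {u, v}). PF3.exists_pole over F_1 (finitely
generated: RA.F_fg; char 0) gives a place p of K over F_1 with ord_p zeta < 0; but
zeta in X.O (cenK (down p)) <= p.R: contradiction (ord_nonneg).
STATEMENT 1 (exists_pole_k): zeta transcendental over k has negative order at some place of K over k
(p := down of the place above).
-/
import Pool.Agent.H83.TU.PO
import Pool.Agent.H83.TU.RA
import Pool.Agent.H24.TU.CD1

set_option autoImplicit false

namespace Pool.Agent.H24.TU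

open Pool.Agent.H54.RV Pool.Agent.H83.TU

variable {k K : Type} [Field k] [Field K] [Algebra k K] {X : Mod k K}

open scoped IntermediateField.algebraAdjoinAdjoin in
theorem exists_pole_k [CharZero k] (h : Hyp X) (ζ : K) (hζ : Transcendental k ζ) :
    ∃ p : Place k K, p.ord ζ < 0 := by
  classical
  have h0 : AlgebraicIndepOn k id ({ζ} : Set K) :=
    (algebraicIndependent_singleton_iff (⟨ζ, Set.mem_singleton ζ⟩ : ({ζ} : Set K))).2 hζ
  obtain ⟨s, hζs, hs⟩ := exists_isTranscendenceBasis_superset h0
  have hζs' : ζ ∈ s := hζs (Set.mem_singleton ζ)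
  have h3 : Cardinal.mk s = 3 := by rw [hs.cardinalMk_eq_trdeg, h.tr]
  obtain ⟨t, htd⟩ : ∃ t : Set K, t = s \ {ζ} := ⟨_, rfl⟩
  have hts : t ⊆ s := htd ▸ Set.sdiff_subset
  have hζt : ζ ∉ t := by
    rw [htd]
    exact fun h1 => h1.2 rfl
  have ht : Cardinal.mk t = 2 := by
    have h1 : s = insert ζ t := by
      rw [htd, Set.insert_sdiff_singleton, Set.insert_eq_of_mem hζs']
    have h2 : Cardinal.mk s = Cardinal.mk t + 1 := by
      conv_lhs => rw [h1]
      exact Cardinal.mk_insert hζt
    rw [h3] at h2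
    have h4 : (2 : Cardinal) + 1 = 3 := by norm_num
    rw [← h4] at h2
    exact (Cardinal.add_one_inj.1 h2).symm
  have hi : AlgebraicIndependent k ((↑) : t → K) := hs.1.mono hts
  have h2 : Algebra.trdeg k (Algebra.adjoin k (Set.range ((↑) : t → K))) = 2 := by
    rw [← hi.aevalEquiv.trdeg_eq, MvPolynomial.trdeg_of_isDomain, Cardinal.lift_id, ht]
  have h4 : Algebra.trdeg (Algebra.adjoin k (Set.range ((↑) : t → K)))
      (IntermediateField.adjoin k (Set.range ((↑) : t → K))) = 0 := by
    have h5 : Algebra.IsAlgebraic (Algebra.adjoin k (Set.range ((↑) : t → K)))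
        (IntermediateField.adjoin k (Set.range ((↑) : t → K))) :=
      IsLocalization.isAlgebraic _ (nonZeroDivisors _)
    exact trdeg_eq_zero
  have hF : Algebra.trdeg (IntermediateField.adjoin k (Set.range ((↑) : t → K))) K = 1 := by
    have h5 := trdeg_add_eq k (Algebra.adjoin k (Set.range ((↑) : t → K))) (A := K)
    have h6 := trdeg_add_eq (Algebra.adjoin k (Set.range ((↑) : t → K)))
      (IntermediateField.adjoin k (Set.range ((↑) : t → K))) (A := K)
    rw [h4, zero_add] at h6
    rw [h2, h.tr, ← h6] at h5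
    have h7 : (2 : Cardinal) + 1 = 3 := by norm_num
    have h8 : (2 : Cardinal) < Cardinal.aleph0 := by exact_mod_cast Cardinal.natCast_lt_aleph0 (n := 2)
    rw [← h7] at h5
    exact Cardinal.eq_of_add_eq_add_left h5 h8
  have hT : Transcendental (IntermediateField.adjoin k (Set.range ((↑) : t → K))) ζ := by
    have h5 := hs.1.transcendental_adjoin (s := {x : s | (x : K) ∈ t}) (i := ⟨ζ, hζs'⟩) hζt
    have h6 : ((↑) : s → K) '' {x : s | (x : K) ∈ t} = Set.range ((↑) : t → K) := by
      ext y
      constructor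
      · rintro ⟨x, hx, rfl⟩
        exact ⟨⟨x, hx⟩, rfl⟩
      · rintro ⟨x, rfl⟩
        exact ⟨⟨x, hts x.2⟩, x.2, rfl⟩
    rw [h6] at h5
    exact IntermediateField.transcendental_adjoin_iff.2 h5
  have : CharZero (IntermediateField.adjoin k (Set.range ((↑) : t → K))) :=
    charZero_of_injective_algebraMap (algebraMap k _).injective
  obtain ⟨p, hp⟩ := exists_pole hF (F_fg h.var h.gen _) ζ hT
  exact ⟨down p, hp⟩

theorem caseA [CharZero k] (h : Hyp X) (F : IntermediateField k K)
    (hF : Algebra.trdeg F K = 1)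
    (hc : ∀ p : Place F K, 2 ≤ Algebra.trdeg k (X.kap (cenK h.var h.gen (down p)))) :
    ∃ M : Cart X, Effective M ∧ ¬ Effective M⁻¹ ∧ RF h.var h.gen F M = 0 := by
  -- a transcendental element of `F`
  obtain ⟨ζ, hζF, hζ⟩ : ∃ ζ ∈ F, Transcendental k ζ := by
    by_contra hcon
    have h1 : Algebra.IsAlgebraic k F := ⟨fun a => by
      by_contra h2
      refine hcon ⟨a.1, a.2, fun h3 => h2 ?_⟩
      exact (isAlgebraic_algebraMap_iff (algebraMap F K).injective).1 h3⟩
    have h2 := trdeg_add_eq k F (A := K)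
    rw [trdeg_eq_zero, zero_add, hF, h.tr] at h2
    exact absurd h2 (by norm_num)
  have hζ0 : ζ ≠ 0 := by
    rintro rfl
    exact hζ isAlgebraic_zero
  obtain ⟨M, hM, -, hMx⟩ := polar h ζ hζ0
  refine ⟨M, hM, fun hM' => ?_, ?_⟩
  · obtain ⟨p, hp⟩ := exists_pole_k h ζ hζ
    have h1 : ζ ∈ X.O (cenK h.var h.gen p) := by
      rw [polar_mem M ζ _ (hMx _)]
      exact hM' _
    have h2 := (cenK_dom h.var h.gen p ζ h1).1
    have h3 := (ord_nonneg p ζ hζ0).2 h2
    omega
  · unfold RF
    rw [finsum_congr (g := fun _ => 0), finsum_zero]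
    intro p
    have h1 : ζ ∈ X.O (cenK h.var h.gen (down p)) := by
      rw [cod_one h (down p) (hc p)]
      exact p.mem ⟨ζ, hζF⟩
    have h2 : (M.eq (cenK h.var h.gen (down p)))⁻¹ ∈ X.O (cenK h.var h.gen (down p)) := by
      rw [← polar_mem M ζ _ (hMx _)]
      exact h1
    have h3 : p.ord (M.eq (cenK h.var h.gen (down p))) = 0 := by
      rw [ord_eq_zero p _ (M.ne _)]
      exact ⟨(cenK_dom h.var h.gen (down p) _ (hM _)).1, (cenK_dom h.var h.gen (down p) _ h2).1⟩
    rw [h3, zero_mul]

end Pool.Agent.H24.TU
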