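/-
MP_e49dc9_ag, THEOREM U, Theorem II case A, module TU/RFG: the degree of D on the generic fibre of
K / F is bounded by the growth of the spaces F L(nD).

STATEMENT 1 (frac_sec): D ample: every f in K is a/s with a, s in L(nD) for some n, s <> 0: UF
(Props.lean) for T = {g}, g the generic point (h.gen; X.O g = top), m = m_0.
STATEMENT 2 (lf_one, lf_mul): the F-subspaces span F (secL D n) contain 1 for n = 0 and multiply.
STATEMENT 3 (rf_le): RF D <= gam if dim_F span F (secL D n) <= gam n for all n >= n_0.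
PROOF. D ample gives m >= 1 and s_0 <> 0 with Sec D m s_0 (a point exists: h.var.ne). E_0 :=
prin X s_0 * D^m is effective and RF E_0 = m * RF D (RC.rf_sec). S := {p : Place F K |
p.ord (E_0.eq (cenK (down p))) <> 0} is finite (RA.rf_fin); for p in S the order is > 0 (E_0
effective, cenK_dom). T := the finite set of the centres cenK (down p), p in S. UN for A = D, M = 1,
T: there is m' >= 1 with a section s_1 of m' D which is a unit at all x in T (so s_1 <> 0 if T is
nonempty; if T is empty take T = {any point}). Put N = m m' >= 1, a := s_0^m', b := s_1^m, both in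
secL D N, z := a / b. For every p (x = its centre, e = D.eq x): ord_p z = m' ord_p (s_0 e^m) -
m ord_p (s_1 e^m'), ord_p (s_1 e^m') >= 0 and = 0 if p in S (ord_mul, ord_inv, ord_nonneg,
ord_eq_zero of H54/RV/A1 for down p or p; E_0.eq x = s_0 e^m up to the definition of prin, mul_eq,
pow_eq). So ord_p z > 0 iff p in S, and then ord_p z = m' ord_p (E_0.eq x). Hence the sum over
{p : 0 < ord_p z} of ord_p z * deg p is m' * RF E_0 = N * RF D (finsum over the support).
If z is transcendental over F: PF3.zerosD (with RA.F_fg): this sum is finrank F(z) K =: d, and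
H39.TU.deg_bound for the family L n = span F (secL D n) (frac from STATEMENT 1) with its a := b,
its b := a, and e := a basis of K over F(z) (if d = 0 there is nothing to prove: then
N * RF D = 0) gives d <= gam N. So RF D <= gam. If z is algebraic over F: all ord_p z = 0 (PF3.ord_alg),
so S is empty, RF E_0 = 0 and RF D = 0.
-/
import Pool.Agent.H83.TU.RC
import Pool.Agent.H39.TU.DEG
import Pool.Agent.H39.TU.RAM

set_option autoImplicit false

namespace Pool.Agent.H24.TU

open Pool.Agent.H54.RV Pool.Agent.H83.TU Pool.Agent.H39.TU IntermediateField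

variable {k K : Type} [Field k] [Field K] [Algebra k K] {X : Mod k K}

theorem frac_sec (h : Hyp X) (hUF : UF X) (D : Cart X) (hD : Ample D) (f : K) :
    ∃ n, ∃ a ∈ secL D n, ∃ s ∈ secL D n, s ≠ 0 ∧ f * s = a := by
  obtain ⟨g, hg⟩ := h.gen
  obtain ⟨m₀, hm⟩ := hUF D {g} f hD (by
    intro x hx
    rw [Finset.mem_singleton.1 hx, hg.top]
    exact Algebra.mem_top)
  obtain ⟨s, hs, hsf, hnz⟩ := hm m₀ le_rfl
  refine ⟨m₀, s * f, hsf, s, hs, ?_, mul_comm _ _⟩
  have h1 := (hnz g (Finset.mem_singleton_self g)).1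
  rintro rfl
  exact h1 (zero_mul _)

theorem lf_one (D : Cart X) (F : IntermediateField k K) :
    (1 : K) ∈ Submodule.span F (secL D 0 : Set K) := by
  refine Submodule.subset_span fun y => ?_
  rw [pow_zero, mul_one]
  exact (X.O y).one_mem

theorem lf_mul (D : Cart X) (F : IntermediateField k K) {m n : ℕ} {a b : K}
    (ha : a ∈ Submodule.span F (secL D m : Set K)) (hb : b ∈ Submodule.span F (secL D n : Set K)) :
    a * b ∈ Submodule.span F (secL D (m + n) : Set K) := by
  have hmul : ∀ {f g : K}, f ∈ secL D m → g ∈ secL D n → f * g ∈ secL D (m + n) := by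
    intro f g hf hg y
    have h1 := (X.O y).mul_mem (hf y) (hg y)
    have h2 : f * g * D.eq y ^ (m + n) = f * D.eq y ^ m * (g * D.eq y ^ n) := by
      rw [pow_add]
      ring
    rw [h2]
    exact h1
  induction ha using Submodule.span_induction with
  | mem f hf =>
    induction hb using Submodule.span_induction with
    | mem g hg => exact Submodule.subset_span (hmul hf hg)
    | zero => rw [mul_zero]; exact Submodule.zero_mem _
    | add y y' _ _ h1 h2 => rw [mul_add]; exact Submodule.add_mem _ h1 h2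
    | smul c y _ h1 => rw [mul_smul_comm]; exact Submodule.smul_mem _ c h1
  | zero => rw [zero_mul]; exact Submodule.zero_mem _
  | add y y' _ _ h1 h2 => rw [add_mul]; exact Submodule.add_mem _ h1 h2
  | smul c y _ h1 => rw [smul_mul_assoc]; exact Submodule.smul_mem _ c h1

theorem lf_fin (D : Cart X) (F : IntermediateField k K) (n : ℕ)
    (hfin : Module.Finite k (secL D n)) :
    FiniteDimensional F (Submodule.span F (secL D n : Set K)) := by
  classical
  obtain ⟨t, ht⟩ := (Module.Finite.iff_fg.1 hfin)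
  have h1 : Submodule.span F (secL D n : Set K) = Submodule.span F (t : Set K) := by
    apply le_antisymm
    · rw [Submodule.span_le]
      intro y hy
      rw [← ht] at hy
      exact Submodule.span_le_restrictScalars k F (t : Set K) hy
    · refine Submodule.span_mono ?_
      intro y hy
      rw [← ht]
      exact Submodule.subset_span hy
  rw [h1]
  exact FiniteDimensional.span_finset F t

theorem rf_le [CharZero k] (h : Hyp X) (hGF : GF X) (hUN : UN X) (hUF : UF X) (D : Cart X)
    (hD : Ample D) (F : IntermediateField k K) (hF : Algebra.trdeg F K = 1) (γ n₀ : ℕ)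
    (hγ : ∀ n, n₀ ≤ n → Module.finrank F (Submodule.span F (secL D n : Set K)) ≤ γ * n) :
    RF h.var h.gen F D ≤ γ := by
  classical
  have : CharZero F := charZero_of_injective_algebraMap (algebraMap k F).injective
  obtain ⟨g, hg⟩ := h.gen
  obtain ⟨m, hm, s₀, hs₀, hnz₀, -⟩ := hD g
  have hs0 : s₀ ≠ 0 := fun h1 => hnz₀.1 (by rw [h1, zero_mul])
  obtain ⟨hE, hRE⟩ := rf_sec h.var h.gen F hF D m s₀ hs0 hs₀
  have hfinS := rf_fin h.var h.gen F hF (prin X s₀ hs0 * D ^ m)
  have heq : ∀ x, (prin X s₀ hs0 * D ^ m).eq x = s₀ * D.eq x ^ m := by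
    intro x
    rw [mul_eq, pow_eq]
    rfl
  -- a section which is a unit at the centres
  obtain ⟨m₁, hm₁⟩ := hUF D (insert g (hfinS.toFinset.image fun p => cenK h.var h.gen (down p))) 1 hD
    (fun x _ => (X.O x).one_mem)
  obtain ⟨s₁, hs₁, -, hnz⟩ := hm₁ (max m₁ 1) (le_max_left _ _)
  obtain ⟨m', hm'⟩ : ∃ m', m' = max m₁ 1 := ⟨_, rfl⟩
  have hm'1 : 1 ≤ m' := hm' ▸ le_max_right _ _
  rw [← hm'] at hs₁ hnz
  have hs1 : s₁ ≠ 0 := fun h1 => (hnz g (Finset.mem_insert_self _ _)).1 (by rw [h1, zero_mul])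
  have hdomR : ∀ (p : Place F K) (a : K), a ∈ X.O (cenK h.var h.gen (down p)) → a ∈ p.R :=
    fun p a ha => (cenK_dom h.var h.gen (down p) a ha).1
  -- the orders
  have hA : ∀ p : Place F K, 0 ≤ p.ord (s₀ * D.eq (cenK h.var h.gen (down p)) ^ m) := by
    intro p
    rw [ord_nonneg p _ (mul_ne_zero hs0 (pow_ne_zero _ (D.ne _)))]
    exact hdomR p _ (hs₀ _)
  have hB : ∀ p : Place F K, 0 ≤ p.ord (s₁ * D.eq (cenK h.var h.gen (down p)) ^ m') := by
    intro p
    rw [ord_nonneg p _ (mul_ne_zero hs1 (pow_ne_zero _ (D.ne _)))]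
    exact hdomR p _ (hs₁ _)
  have hB0 : ∀ p : Place F K, p.ord (s₀ * D.eq (cenK h.var h.gen (down p)) ^ m) ≠ 0 →
      p.ord (s₁ * D.eq (cenK h.var h.gen (down p)) ^ m') = 0 := by
    intro p hp
    have h1 : cenK h.var h.gen (down p) ∈
        insert g (hfinS.toFinset.image fun p => cenK h.var h.gen (down p)) := by
      refine Finset.mem_insert_of_mem (Finset.mem_image.2 ⟨p, ?_, rfl⟩)
      rw [Set.Finite.mem_toFinset]
      show p.ord _ ≠ 0
      rw [heq]
      exact hp
    have h2 := hnz _ h1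
    rw [ord_eq_zero p _ h2.1]
    exact ⟨hdomR p _ h2.2.1, hdomR p _ h2.2.2⟩
  obtain ⟨z, hz⟩ : ∃ z, z = s₀ ^ m' / s₁ ^ m := ⟨_, rfl⟩
  have hz0 : z ≠ 0 := by
    rw [hz]
    exact div_ne_zero (pow_ne_zero _ hs0) (pow_ne_zero _ hs1)
  have hordz : ∀ p : Place F K, p.ord z = m' * p.ord (s₀ * D.eq (cenK h.var h.gen (down p)) ^ m) -
      m * p.ord (s₁ * D.eq (cenK h.var h.gen (down p)) ^ m') := by
    intro p
    obtain ⟨e, he⟩ : ∃ e, e = D.eq (cenK h.var h.gen (down p)) := ⟨_, rfl⟩
    have he0 : e ≠ 0 := he ▸ D.ne _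
    rw [← he]
    have h1 : z = (s₀ * e ^ m) ^ m' * ((s₁ * e ^ m') ^ m)⁻¹ := by
      rw [hz]
      field_simp
      ring
    have h2 : s₀ * e ^ m ≠ 0 := mul_ne_zero hs0 (pow_ne_zero _ he0)
    have h3 : s₁ * e ^ m' ≠ 0 := mul_ne_zero hs1 (pow_ne_zero _ he0)
    rw [h1, ord_mul p _ _ (pow_ne_zero _ h2) (inv_ne_zero (pow_ne_zero _ h3)), ord_inv, ord_powN p _ h2,
      ord_powN p _ h3]
    ring
  -- the sum
  have hsum : ∑ᶠ p ∈ {p : Place F K | 0 < p.ord z}, p.ord z * (deg p : ℤ) =
      m' * RF h.var h.gen F (prin X s₀ hs0 * D ^ m) := by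
    rw [finsum_mem_def]
    unfold RF
    rw [mul_finsum]
    · refine finsum_congr fun p => ?_
      rw [Set.indicator_apply, heq]
      by_cases h1 : p.ord (s₀ * D.eq (cenK h.var h.gen (down p)) ^ m) = 0
      · rw [if_neg, h1, zero_mul, mul_zero]
        show ¬ 0 < p.ord z
        rw [hordz, h1, mul_zero, zero_sub]
        have h2 := mul_nonneg (Int.natCast_nonneg m) (hB p)
        omega
      · have h2 : p.ord z = m' * p.ord (s₀ * D.eq (cenK h.var h.gen (down p)) ^ m) := by
          rw [hordz, hB0 p h1, mul_zero, sub_zero]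
        rw [if_pos, h2, mul_assoc]
        show 0 < p.ord z
        rw [h2]
        exact mul_pos (by exact_mod_cast hm'1) (lt_of_le_of_ne (hA p) (Ne.symm h1))
  rw [hRE] at hsum
  have hN : (0 : ℤ) < (m * m' : ℕ) := by exact_mod_cast Nat.mul_pos hm hm'1
  by_cases htr : Transcendental F z
  · rw [(zerosD hF (F_fg h.var h.gen F) z htr).2] at hsum
    have hdeg : Module.finrank F⟮z⟯ K ≤ γ * (m * m') := by
      rcases Nat.eq_zero_or_pos (Module.finrank F⟮z⟯ K) with h1 | h1
      · rw [h1]
        exact Nat.zero_le _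
      · have : Module.Finite F⟮z⟯ K := Module.finite_of_finrank_pos h1
        subst hz
        refine deg_bound (fun n => Submodule.span F (secL D n : Set K)) (lf_one D F)
          (fun ha hb => lf_mul D F ha hb) (fun f => ?_) (fun n => lf_fin D F n (hGF.1 D n)) γ n₀ hγ (m * m')
          (s₁ ^ m) (s₀ ^ m') ?_ ?_ (pow_ne_zero _ hs1) htr
          (Module.finBasis F⟮s₀ ^ m' / s₁ ^ m⟯ K) (Module.finBasis F⟮s₀ ^ m' / s₁ ^ m⟯ K).linearIndependent
        · obtain ⟨n, a, ha, s, hs, hs0, hf⟩ := frac_sec h hUF D hD f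
          exact ⟨n, a, Submodule.subset_span ha, s, Submodule.subset_span hs, hs0, hf⟩
        · rw [mul_comm m m']
          exact mem_pow (fun n => Submodule.span F (secL D n : Set K)) (lf_one D F)
            (fun ha hb => lf_mul D F ha hb) (Submodule.subset_span hs₁) m
        · exact mem_pow (fun n => Submodule.span F (secL D n : Set K)) (lf_one D F)
            (fun ha hb => lf_mul D F ha hb) (Submodule.subset_span hs₀) m'
    have h2 : (m' : ℤ) * (m * RF h.var h.gen F D) ≤ γ * (m * m' : ℕ) := by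
      rw [← hsum]
      exact_mod_cast hdeg
    have h3 : ((m * m' : ℕ) : ℤ) * RF h.var h.gen F D ≤ ((m * m' : ℕ) : ℤ) * γ := by
      calc ((m * m' : ℕ) : ℤ) * RF h.var h.gen F D = (m' : ℤ) * (m * RF h.var h.gen F D) := by
            push_cast
            ring
        _ ≤ _ := h2
        _ = _ := mul_comm _ _
    exact le_of_mul_le_mul_left h3 hN
  · have h1 : {p : Place F K | 0 < p.ord z} = ∅ := by
      ext p
      have h2 := ord_alg z hz0 (not_not.1 htr) p
      simp [h2]
    rw [h1, finsum_mem_empty] at hsum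
    have h3 : ((m * m' : ℕ) : ℤ) * RF h.var h.gen F D = 0 := by
      rw [hsum]
      push_cast
      ring
    rcases mul_eq_zero.1 h3 with h4 | h4
    · omega
    · rw [h4]
      exact Int.natCast_nonneg γ

end Pool.Agent.H24.TU
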