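/-
MP_e49dc9_ag, THEOREM U, module TU/Comp: decomposition of kap (x) K along a basis of kap over
y(X), and consequences for P.map (chg K y).

STATEMENT 1. y : X -> kap. There are an index type i, elements b_i of kap and maps
comp i : kap (x)_k K -> X (x)_k K, additive, with: for every u only finitely many comp i u are
nonzero and u = sum_i (b_i (x) 1) * chg y (comp i u); comp i (chg y g * u) = g * comp i u; and
comp i ((b_j (x) 1) * chg y g) = g if i = j, else 0.
PROOF. View kap as an X-algebra by y (letI := y.toRingHom.toAlgebra), b a basis of kap over X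
(Module.Basis.ofVectorSpace). kap (x)_k K = kap (x)_X (X (x)_k K)
(Algebra.TensorProduct.cancelBaseChange or AlgebraTensorModule.cancelBaseChange) is a free
X (x)_k K - module with basis b_i (x) 1 (Algebra.TensorProduct.basis); comp i = coordinates.
STATEMENT 2. u in P.map (chg K y) iff comp i u in P for all i (P any ideal; apply the properties:
<- by the sum; -> the set {u : all comp i u in P} is an ideal-like set containing chg y p * v).
Stated without comp: STATEMENT 2': u in P.map (chg K y) and u in L'.baseChange kap (L' a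
k-subspace of K) imply that u is in the kap-span of chg y (P cap L'.baseChange X).
STATEMENT 3 (saturation). X = K, P <= dI k K, s not in ptI id y, s u in P.map (chg K y), R = K (x)_k K
noetherian, P prime. Then u in P.map (chg K y).
PROOF. I = dI k K. ptI id y = I.map (chg K y) (for u = sum b_i chg y (u_i): pt id y u = sum b_i
y(ev u_i), and the b_i are independent over y(K)); it is a maximal ideal. For every q, s is a
unit modulo (ptI id y)^q = (I^q).map (chg y), so from s u in (P + I^q).map we get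
u in (P + I^q).map (chg y): multiply with an inverse s' of s modulo (ptI id y)^q. So all
components comp i u are in P + I^q for all q, and the intersection over q of P + I^q is P: Krull
intersection theorem in the noetherian domain R / P for the proper ideal I / P
(Ideal.iInf_pow_eq_bot_of_isDomain). So comp i u in P for all i and u in P.map by STATEMENT 2.
-/
import Pool.Agent.H24.TU.Def

open scoped TensorProduct

namespace Pool.Agent.H24.TU

universe u

variable {k X K κ : Type u} [Field k] [Field X] [Field K] [Field κ]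
    [Algebra k X] [Algebra k K] [Algebra k κ]

/-- The coordinates along a basis of kap over y(X). -/
private theorem comp_aux (K : Type u) [Field K] [Algebra k K] (y : X →ₐ[k] κ) :
    ∃ (ι : Type u) (b : ι → κ) (c : κ → (ι →₀ X)) (comp : (κ ⊗[k] K) →+ (ι →₀ (X ⊗[k] K))),
      (∀ a f i, comp (a ⊗ₜ[k] f) i = c a i ⊗ₜ[k] f) ∧
      (∀ a, ((c a).sum fun i x => b i * y x) = a) ∧
      (∀ x a, c (y x * a) = x • c a) ∧
      (∀ i x, c (b i * y x) = Finsupp.single i x) ∧
      (∀ (φ : ι →₀ X), (φ.sum fun i a => b i * y a) = 0 → φ = 0) := by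
  classical
  let _ : Algebra X κ := y.toRingHom.toAlgebra
  have : IsScalarTower k X κ := IsScalarTower.of_algebraMap_eq fun r => (y.commutes r).symm
  have hsmul : ∀ (x : X) (a : κ), x • a = y x * a := fun _ _ => rfl
  obtain ⟨B, -⟩ : ∃ B : Module.Basis (Module.Basis.ofVectorSpaceIndex X κ) X κ, True :=
    ⟨Module.Basis.ofVectorSpace X κ, trivial⟩
  have hlin : ∀ φ : Module.Basis.ofVectorSpaceIndex X κ →₀ X,
      (φ.sum fun i a => B i * y a) = B.repr.symm φ := by
    intro φ
    rw [Module.Basis.repr_symm_apply, Finsupp.linearCombination_apply]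
    refine Finsupp.sum_congr fun i _ => ?_
    rw [hsmul, mul_comm]
  refine ⟨Module.Basis.ofVectorSpaceIndex X κ, B, fun a => B.repr a,
    ((TensorProduct.finsuppLeft k k X K _).toLinearMap ∘ₗ
      (LinearMap.rTensor K (B.repr.restrictScalars k).toLinearMap)).toAddMonoidHom, ?_, ?_, ?_, ?_,
      ?_⟩
  · intro a f i
    show TensorProduct.finsuppLeft k k X K _
      (LinearMap.rTensor K (B.repr.restrictScalars k).toLinearMap (a ⊗ₜ[k] f)) i = _
    rw [LinearMap.rTensor_tmul, TensorProduct.finsuppLeft_apply_tmul_apply]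
    rfl
  · intro a
    rw [hlin]
    exact B.repr.symm_apply_apply a
  · intro x a
    rw [← hsmul]
    exact map_smul _ _ _
  · intro i x
    rw [mul_comm, ← hsmul]
    show B.repr (x • B i) = _
    rw [map_smul, Module.Basis.repr_self, Finsupp.smul_single, smul_eq_mul, mul_one]
  · intro φ h
    rw [hlin] at h
    exact (LinearEquiv.map_eq_zero_iff _).1 h

private theorem comp_all (K : Type u) [Field K] [Algebra k K] (y : X →ₐ[k] κ) :
    ∃ (ι : Type u) (b : ι → κ) (c : κ → (ι →₀ X)) (comp : (κ ⊗[k] K) →+ (ι →₀ (X ⊗[k] K))),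
      (∀ a f i, comp (a ⊗ₜ[k] f) i = c a i ⊗ₜ[k] f) ∧
      (∀ u, u = (comp u).sum fun i g => (b i ⊗ₜ[k] (1 : K)) * chg K y g) ∧
      (∀ g u i, comp (chg K y g * u) i = g * comp u i) ∧
      (∀ i g, comp ((b i ⊗ₜ[k] (1 : K)) * chg K y g) = Finsupp.single i g) ∧
      (∀ (φ : ι →₀ X), (φ.sum fun i a => b i * y a) = 0 → φ = 0) := by
  classical
  obtain ⟨ι, b, c, comp, h1, h2, h3, h4, h5⟩ := comp_aux (k := k) K y
  refine ⟨ι, b, c, comp, h1, ?_, ?_, ?_, h5⟩
  · intro u
    have hadd : ∀ φ ψ : ι →₀ (X ⊗[k] K),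
        ((φ + ψ).sum fun i g => (b i ⊗ₜ[k] (1 : K)) * chg K y g) =
          (φ.sum fun i g => (b i ⊗ₜ[k] (1 : K)) * chg K y g) +
            (ψ.sum fun i g => (b i ⊗ₜ[k] (1 : K)) * chg K y g) := by
      intro φ ψ
      refine Finsupp.sum_add_index' (fun i => ?_) (fun i g g' => ?_)
      · rw [map_zero, mul_zero]
      · rw [map_add, mul_add]
    induction u using TensorProduct.induction_on with
    | zero => rw [map_zero, Finsupp.sum_zero_index]
    | add u v hu hv =>
      rw [map_add, hadd, ← hu, ← hv]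
    | tmul a f =>
      have hc : comp (a ⊗ₜ[k] f) = (c a).mapRange (fun x => x ⊗ₜ[k] f)
          (TensorProduct.zero_tmul _ _) := by
        ext i
        rw [h1, Finsupp.mapRange_apply]
      rw [hc, Finsupp.sum_mapRange_index (fun i => by rw [map_zero, mul_zero])]
      have h6 : (fun (i : ι) (x : X) => (b i ⊗ₜ[k] (1 : K)) * chg K y (x ⊗ₜ[k] f)) =
          fun i x => (b i * y x) ⊗ₜ[k] f := by
        funext i x
        rw [chg_tmul, Algebra.TensorProduct.tmul_mul_tmul, one_mul]
      rw [h6, Finsupp.sum, ← TensorProduct.sum_tmul]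
      conv_lhs => rw [← h2 a]
      rfl
  · intro g u i
    induction u using TensorProduct.induction_on with
    | zero => simp
    | add u v hu hv =>
      rw [mul_add, map_add, map_add, Finsupp.add_apply, Finsupp.add_apply, hu, hv, mul_add]
    | tmul a f =>
      induction g using TensorProduct.induction_on with
      | zero => simp
      | add g g' hg hg' =>
        rw [map_add, add_mul, map_add, Finsupp.add_apply, hg, hg', add_mul]
      | tmul x h =>
        rw [chg_tmul, Algebra.TensorProduct.tmul_mul_tmul, h1, h1, h3,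
          Algebra.TensorProduct.tmul_mul_tmul, Finsupp.smul_apply, smul_eq_mul]
  · intro i g
    induction g using TensorProduct.induction_on with
    | zero => simp
    | add g g' hg hg' =>
      rw [map_add, mul_add, map_add, hg, hg', Finsupp.single_add]
    | tmul x f =>
      rw [chg_tmul, Algebra.TensorProduct.tmul_mul_tmul, one_mul]
      ext j
      rw [h1, h4]
      by_cases hj : i = j
      · subst hj
        rw [Finsupp.single_eq_same, Finsupp.single_eq_same]
      · rw [Finsupp.single_eq_of_ne (Ne.symm hj), Finsupp.single_eq_of_ne (Ne.symm hj),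
          TensorProduct.zero_tmul]

/-- STATEMENT 1. -/
theorem exists_comp (K : Type u) [Field K] [Algebra k K] (y : X →ₐ[k] κ) :
    ∃ (ι : Type u) (b : ι → κ) (comp : (κ ⊗[k] K) → (ι →₀ (X ⊗[k] K))),
      (∀ u v, comp (u + v) = comp u + comp v) ∧
      (∀ u, u = (comp u).sum fun i g => (b i ⊗ₜ[k] (1 : K)) * chg K y g) ∧
      (∀ g u i, comp (chg K y g * u) i = g * comp u i) ∧
      (∀ i g, comp ((b i ⊗ₜ[k] (1 : K)) * chg K y g) = Finsupp.single i g) ∧
      (∀ (φ : ι →₀ X), (φ.sum fun i a => b i * y a) = 0 → φ = 0) := by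
  obtain ⟨ι, b, c, comp, -, h2, h3, h4, h5⟩ := comp_all (k := k) K y
  exact ⟨ι, b, comp, map_add comp, h2, h3, h4, h5⟩

private theorem comp_mem_P {y : X →ₐ[k] κ} {ι : Type u}
    {comp : (κ ⊗[k] K) →+ (ι →₀ (X ⊗[k] K))}
    (h3 : ∀ g u i, comp (chg K y g * u) i = g * comp u i) {P : Ideal (X ⊗[k] K)} {u : κ ⊗[k] K}
    (hu : u ∈ P.map (chg K y)) : ∀ v i, comp (v * u) i ∈ P := by
  induction hu using Submodule.span_induction with
  | mem x hx =>
    obtain ⟨g, hg, rfl⟩ := hx
    intro v i
    rw [mul_comm, h3]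
    exact Ideal.mul_mem_right _ _ hg
  | zero =>
    intro v i
    rw [mul_zero, map_zero]
    exact P.zero_mem
  | add x y _ _ hx hy =>
    intro v i
    rw [mul_add, map_add]
    exact P.add_mem (hx v i) (hy v i)
  | smul a x _ hx =>
    intro v i
    rw [smul_eq_mul, ← mul_assoc]
    exact hx _ i

private theorem comp_mem_L {ι : Type u} {c : κ → (ι →₀ X)}
    {comp : (κ ⊗[k] K) →+ (ι →₀ (X ⊗[k] K))}
    (h1 : ∀ a f i, comp (a ⊗ₜ[k] f) i = c a i ⊗ₜ[k] f) {L' : Submodule k K} {u : κ ⊗[k] K}
    (hu : u ∈ L'.baseChange κ) : ∀ (a : κ) i, comp (a • u) i ∈ L'.baseChange X := by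
  rw [Submodule.baseChange_eq_span] at hu
  induction hu using Submodule.span_induction with
  | mem x hx =>
    obtain ⟨f, hf, rfl⟩ := hx
    intro a i
    have h : a • ((TensorProduct.mk k κ K 1) f) = a ⊗ₜ[k] f := by
      rw [TensorProduct.mk_apply, TensorProduct.smul_tmul', smul_eq_mul, mul_one]
    rw [h, h1]
    exact Submodule.tmul_mem_baseChange_of_mem _ hf
  | zero =>
    intro a i
    rw [smul_zero, map_zero]
    exact Submodule.zero_mem _
  | add x y _ _ hx hy =>
    intro a i
    rw [smul_add, map_add]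
    exact Submodule.add_mem _ (hx a i) (hy a i)
  | smul a' x _ hx =>
    intro a i
    rw [smul_smul]
    exact hx _ i

private theorem mem_map_of_comp {y : X →ₐ[k] κ} {ι : Type u} {b : ι → κ}
    {comp : (κ ⊗[k] K) →+ (ι →₀ (X ⊗[k] K))}
    (h2 : ∀ u, u = (comp u).sum fun i g => (b i ⊗ₜ[k] (1 : K)) * chg K y g)
    {P : Ideal (X ⊗[k] K)} {u : κ ⊗[k] K} (hu : ∀ i, comp u i ∈ P) : u ∈ P.map (chg K y) := by
  rw [h2 u]
  exact Ideal.sum_mem _ fun i _ => Ideal.mul_mem_left _ _ (Ideal.mem_map_of_mem _ (hu i))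

/-- STATEMENT 2'. -/
theorem mem_span_inter (y : X →ₐ[k] κ) (P : Ideal (X ⊗[k] K)) (L' : Submodule k K)
    {u : κ ⊗[k] K} (hu : u ∈ P.map (chg K y)) (hL : u ∈ L'.baseChange κ) :
    u ∈ Submodule.span κ (chg K y '' {g | g ∈ P ∧ g ∈ L'.baseChange X}) := by
  obtain ⟨ι, b, c, comp, h1, h2, h3, h4, h5⟩ := comp_all (k := k) K y
  have hP : ∀ i, comp u i ∈ P := fun i => by
    have h := comp_mem_P h3 hu 1 i
    rwa [one_mul] at h
  have hL' : ∀ i, comp u i ∈ L'.baseChange X := fun i => by
    have h := comp_mem_L h1 hL 1 i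
    rwa [one_smul] at h
  rw [h2 u]
  refine Submodule.sum_mem _ fun i _ => ?_
  have h6 : (b i ⊗ₜ[k] (1 : K)) * chg K y (comp u i) = b i • chg K y (comp u i) := by
    rw [Algebra.smul_def]
    rfl
  show (b i ⊗ₜ[k] (1 : K)) * chg K y (comp u i) ∈ _
  rw [h6]
  exact Submodule.smul_mem _ _ (Submodule.subset_span ⟨_, ⟨hP i, hL' i⟩, rfl⟩)

/-- STATEMENT 3. -/
theorem saturated [Algebra.EssFiniteType k K] (y : K →ₐ[k] κ) {P : Ideal (K ⊗[k] K)}
    (hP : P.IsPrime) (hPI : P ≤ dI k K) {s u : κ ⊗[k] K}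
    (hs : s ∉ ptI (AlgHom.id k κ) y) (h : s * u ∈ P.map (chg K y)) :
    u ∈ P.map (chg K y) := by
  obtain ⟨ι, b, c, comp, h1, h2, h3, h4, h5⟩ := comp_all (k := k) K y
  -- the maximal ideal of the point
  have hptI : ∀ v, v ∈ ptI (AlgHom.id k κ) y → v ∈ (dI k K).map (chg K y) := by
    intro v hv
    refine mem_map_of_comp h2 fun i => ?_
    have hchg : ∀ g : K ⊗[k] K, pt (AlgHom.id k κ) y (chg K y g) =
        y (pt (AlgHom.id k K) (AlgHom.id k K) g) := by
      intro g
      induction g using TensorProduct.induction_on with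
      | zero => simp
      | add g g' hg hg' => simp only [map_add, hg, hg']
      | tmul x f => simp
    have h6 := h5 ((comp v).mapRange (fun g => pt (AlgHom.id k K) (AlgHom.id k K) g)
      (map_zero _)) (by
        rw [Finsupp.sum_mapRange_index (fun i => by rw [map_zero, mul_zero])]
        have h7 := mem_ptI.1 hv
        rw [h2 v, Finsupp.sum, map_sum] at h7
        rw [Finsupp.sum, ← h7]
        refine Finset.sum_congr rfl fun i _ => ?_
        rw [map_mul, hchg, pt_tmul, map_one, mul_one]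
        rfl)
    have h7 := DFunLike.congr_fun h6 i
    rw [Finsupp.mapRange_apply] at h7
    exact mem_ptI.2 h7
  have hmax : (ptI (AlgHom.id k κ) y).IsMaximal := by
    refine RingHom.ker_isMaximal_of_surjective _ fun a => ⟨a ⊗ₜ[k] 1, ?_⟩
    show pt (AlgHom.id k κ) y _ = a
    rw [pt_tmul, map_one, mul_one]
    rfl
  -- s is a unit modulo the powers
  have hunit : ∀ q : ℕ, u ∈ (P ⊔ (dI k K) ^ q).map (chg K y) := by
    intro q
    have h6 : ptI (AlgHom.id k κ) y ⊔ Ideal.span {s} = ⊤ :=
      hmax.1.2 _ (SetLike.lt_iff_le_and_exists.2 ⟨le_sup_left, s,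
        Ideal.mem_sup_right (Ideal.mem_span_singleton_self s), hs⟩)
    have h7 : (1 : κ ⊗[k] K) ∈ (ptI (AlgHom.id k κ) y) ^ q ⊔ Ideal.span {s} := by
      rw [Ideal.pow_sup_eq_top h6]
      exact Submodule.mem_top
    obtain ⟨w, hw, w', hw', hww⟩ := Submodule.mem_sup.1 h7
    obtain ⟨t, rfl⟩ := Ideal.mem_span_singleton.1 hw'
    have h8 : u = u * w + t * (s * u) := by
      linear_combination (-u) * hww
    rw [h8]
    refine Ideal.add_mem _ (Ideal.mul_mem_left _ _ ?_) (Ideal.mul_mem_left _ _ ?_)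
    · have h9 : (ptI (AlgHom.id k κ) y) ^ q ≤ ((dI k K) ^ q).map (chg K y) := by
        rw [Ideal.map_pow]
        exact Ideal.pow_right_mono hptI q
      exact Ideal.map_mono le_sup_right (h9 hw)
    · exact Ideal.map_mono le_sup_left h
  refine mem_map_of_comp h2 fun i => ?_
  have hall : ∀ q : ℕ, comp u i ∈ P ⊔ (dI k K) ^ q := by
    intro q
    have h := comp_mem_P h3 (hunit q) 1 i
    rwa [one_mul] at h
  -- Krull
  have : IsNoetherianRing (K ⊗[k] K) := Algebra.EssFiniteType.isNoetherianRing K (K ⊗[k] K)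
  have : IsDomain ((K ⊗[k] K) ⧸ P) := Ideal.Quotient.isDomain P
  have hne : (dI k K).map (Ideal.Quotient.mk P) ≠ ⊤ := by
    intro htop
    have h6 : (1 : (K ⊗[k] K) ⧸ P) ∈ (dI k K).map (Ideal.Quotient.mk P) := by
      rw [htop]
      exact Submodule.mem_top
    obtain ⟨a, ha, ha1⟩ := (Ideal.mem_map_iff_of_surjective _ Ideal.Quotient.mk_surjective).1 h6
    rw [← map_one (Ideal.Quotient.mk P)] at ha1
    have h7 := hPI (Ideal.Quotient.eq.1 ha1)
    have h8 : (1 : K ⊗[k] K) ∈ dI k K := by
      have h9 := Ideal.sub_mem _ ha h7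
      rwa [sub_sub_cancel] at h9
    exact (inferInstance : (dI k K).IsPrime).ne_top ((Ideal.eq_top_iff_one _).2 h8)
  have hK := Ideal.iInf_pow_eq_bot_of_isDomain (I := (dI k K).map (Ideal.Quotient.mk P)) hne
  have hmem : Ideal.Quotient.mk P (comp u i) ∈
      ⨅ q : ℕ, ((dI k K).map (Ideal.Quotient.mk P)) ^ q := by
    rw [Submodule.mem_iInf]
    intro q
    obtain ⟨a, ha, a', ha', haa⟩ := Submodule.mem_sup.1 (hall q)
    rw [← haa, map_add, Ideal.Quotient.eq_zero_iff_mem.2 ha, zero_add, ← Ideal.map_pow]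
    exact Ideal.mem_map_of_mem _ ha'
  rw [hK] at hmem
  exact Ideal.Quotient.eq_zero_iff_mem.1 ((Submodule.mem_bot _).1 hmem)

end Pool.Agent.H24.TU
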