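/-
MP_e49dc9_ag, THEOREM U, module TU/Min: minimal primes (commutative algebra).

STATEMENT 1. A commutative ring, M a prime, a an ideal, p an element lying in every minimal prime
of a that is contained in M. Then s p^n is in a for some s not in M and some n.
PROOF. Otherwise the multiplicative set {s p^n} (s not in M) is disjoint from a; there is a prime
Q containing a and disjoint from it (Ideal.exists_le_prime_disjoint), Q <= M, p not in Q; Q contains
a minimal prime of a (Ideal.exists_minimalPrimes_le): contradiction.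
STATEMENT 2 (going down). y : K -> kap, P a prime of K (x)_k K (or X (x)_k K), Q a minimal prime of
P.map (chg K y). Then Q.comap (chg K y) = P.
PROOF. kap (x)_k K is flat over X (x)_k K via chg K y (base change of the field extension y; view
kap as an X-algebra; kap (x)_k K = kap (x)_X (X (x)_k K)), so going down holds
(Algebra.HasGoingDown.of_flat, RingTheory/Ideal/GoingDown.lean). P <= Q.comap; by going down there is
a prime Q' <= Q with Q'.comap = P; then P.map <= Q', so Q' = Q by minimality.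
(Alternatively by hand with the components of TU/Comp.)
-/
import Pool.Agent.H24.TU.Def

open scoped TensorProduct

namespace Pool.Agent.H24.TU

universe u

theorem exists_mul_pow_mem {A : Type*} [CommRing A] (M : Ideal A) (hM : M.IsPrime) (a : Ideal A)
    (p : A) (h : ∀ Q ∈ a.minimalPrimes, Q ≤ M → p ∈ Q) : ∃ s ∉ M, ∃ n : ℕ, s * p ^ n ∈ a := by
  by_contra hcon
  push Not at hcon
  have hdis : Disjoint (a : Set A) (M.primeCompl ⊔ Submonoid.powers p : Submonoid A) := by
    rw [Set.disjoint_left]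
    intro x hx hxS
    obtain ⟨s, hs, z, hz, rfl⟩ := Submonoid.mem_sup.1 hxS
    obtain ⟨n, rfl⟩ := Submonoid.mem_powers_iff _ _ |>.1 hz
    exact hcon s hs n hx
  obtain ⟨Q, hQ, haQ, hQS⟩ := Ideal.exists_le_prime_disjoint a _ hdis
  obtain ⟨Q', hQ', hle⟩ := Ideal.exists_minimalPrimes_le haQ
  have hQM : Q ≤ M := by
    intro x hx
    by_contra hxM
    exact Set.disjoint_left.1 hQS hx (Submonoid.mem_sup_left hxM)
  have hp : p ∈ Q := hle (h Q' hQ' (hle.trans hQM))
  exact Set.disjoint_left.1 hQS hp (Submonoid.mem_sup_right (Submonoid.mem_powers p))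

/-- The base change of a field extension is flat. -/
theorem flat_chg {k X K κ : Type u} [Field k] [Field X] [Field K] [Field κ]
    [Algebra k X] [Algebra k K] [Algebra k κ] (y : X →ₐ[k] κ) :
    @Module.Flat (X ⊗[k] K) (κ ⊗[k] K) _ _ (chg K y).toRingHom.toAlgebra.toModule := by
  let iX : Algebra X κ := y.toRingHom.toAlgebra
  have hst : IsScalarTower k X κ := IsScalarTower.of_algebraMap_eq fun x => (y.commutes x).symm
  let iR : Algebra (X ⊗[k] K) (κ ⊗[k] K) := (chg K y).toRingHom.toAlgebra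
  have hmap : ∀ r : X ⊗[k] K, algebraMap (X ⊗[k] K) (κ ⊗[k] K) r = chg K y r := fun _ => rfl
  have hXmap : ∀ r : X, algebraMap X κ r = y r := fun _ => rfl
  -- the equivalence
  let e1 : (X ⊗[k] K) ⊗[X] κ ≃ₐ[X] κ ⊗[X] (X ⊗[k] K) := Algebra.TensorProduct.comm X (X ⊗[k] K) κ
  let e2 : κ ⊗[X] (X ⊗[k] K) ≃ₐ[X] κ ⊗[k] K := Algebra.TensorProduct.cancelBaseChange k X X κ K
  have he : ∀ (r : X ⊗[k] K) (b : κ), e2 (e1 (r ⊗ₜ[X] b)) = chg K y r * (b ⊗ₜ[k] (1 : K)) := by
    intro r b
    induction r using TensorProduct.induction_on with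
    | zero => simp
    | add r₁ r₂ h₁ h₂ => rw [TensorProduct.add_tmul, map_add, map_add, h₁, h₂, map_add, add_mul]
    | tmul x f =>
      show e2 (b ⊗ₜ[X] (x ⊗ₜ[k] f)) = _
      rw [chg_tmul, Algebra.TensorProduct.tmul_mul_tmul, mul_one]
      have h1 : e2 (b ⊗ₜ[X] (x ⊗ₜ[k] f)) = (x • b) ⊗ₜ[k] f :=
        Algebra.TensorProduct.cancelBaseChange_tmul k X X κ K b x f
      rw [h1, Algebra.smul_def, hXmap]
  let e : (X ⊗[k] K) ⊗[X] κ ≃ₗ[X ⊗[k] K] κ ⊗[k] K :=
    { toFun := fun t => e2 (e1 t)
      invFun := fun t => e1.symm (e2.symm t)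
      left_inv := fun t => by simp
      right_inv := fun t => by simp
      map_add' := fun s t => by simp
      map_smul' := fun r t => by
        simp only [RingHom.id_apply]
        rw [Algebra.smul_def r (e2 (e1 t)), hmap]
        induction t using TensorProduct.induction_on with
        | zero => simp
        | add t₁ t₂ h₁ h₂ => rw [smul_add, map_add, map_add, h₁, h₂, map_add, map_add, mul_add]
        | tmul s b =>
          rw [TensorProduct.smul_tmul', he, he, smul_eq_mul, map_mul, mul_assoc] }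
  exact Module.Flat.of_linearEquiv e.symm

theorem comap_minimal {k X K κ : Type u} [Field k] [Field X] [Field K] [Field κ]
    [Algebra k X] [Algebra k K] [Algebra k κ] (y : X →ₐ[k] κ) {P : Ideal (X ⊗[k] K)}
    (hP : P.IsPrime) {Q : Ideal (κ ⊗[k] K)} (hQ : Q ∈ (P.map (chg K y)).minimalPrimes) :
    Q.comap (chg K y) = P := by
  let iR : Algebra (X ⊗[k] K) (κ ⊗[k] K) := (chg K y).toRingHom.toAlgebra
  have hflat : Module.Flat (X ⊗[k] K) (κ ⊗[k] K) := flat_chg y
  have hgd : Algebra.HasGoingDown (X ⊗[k] K) (κ ⊗[k] K) := inferInstance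
  have hQp : Q.IsPrime := hQ.1.1
  have hle : P ≤ Q.under (X ⊗[k] K) := Ideal.map_le_iff_le_comap.1 hQ.1.2
  have hover : Q.LiesOver (Q.under (X ⊗[k] K)) := ⟨rfl⟩
  have hup : (Q.under (X ⊗[k] K)).IsPrime := Ideal.IsPrime.under _ Q
  obtain ⟨P', hP'Q, hP'p, hP'o⟩ := Ideal.exists_ideal_le_liesOver_of_le (p := P)
    (q := Q.under (X ⊗[k] K)) Q hle
  have hP'c : P'.comap (chg K y) = P := hP'o.over.symm
  have hmap : P.map (chg K y) ≤ P' := by
    rw [Ideal.map_le_iff_le_comap, hP'c]
  have hQP' : Q ≤ P' := hQ.2 ⟨hP'p, hmap⟩ hP'Q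
  rw [le_antisymm hQP' hP'Q, hP'c]


end Pool.Agent.H24.TU
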