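/-
MP_e49dc9_ag, THEOREM U, module TU/Red: tensor products of fields over a field of characteristic
zero are reduced.

STATEMENT 1: X a field of characteristic 0, A, B fields over X: A (x)_X B is reduced.
PROOF. B has a transcendence basis b over X; E := X(b) = IntermediateField.adjoin X (range b) is a
localisation of the polynomial ring X[b] (hc.1.aevalEquiv), so A (x)_X E is a localisation of
A (x)_X X[b] = A[b], a domain; let D be its fraction field. B / E is algebraic and separable
(char 0). A (x)_X B = (A (x)_X E) (x)_E B embeds in D (x)_E B (B is flat over E). So it is enough that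
D (x)_E B is reduced for B / E algebraic: D (x)_E B is the union of the D (x)_E B' with B' / E
finite (IsReduced.tensorProduct_of_flat_of_forall_fg or: every element lies in some D (x) B', and
D (x) B' -> D (x) B is injective); B' / E is finite separable, so formally unramified, so
D (x)_E B' is formally unramified and of finite type over the field D, so reduced
(Algebra.FormallyUnramified.isReduced_of_field). (Alternative for the last step: B' = E[T]/(f), f
separable, D[T]/(f) reduced as f is squarefree in D[T].)
STATEMENT 2: X, K over k, char k = 0, y : X -> kap a k-homomorphism of fields, P a prime of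
X (x)_k K. Then P.map (chg K y) is a radical ideal of kap (x)_k K.
PROOF. (kap (x)_k K) / P.map (chg K y) = kap (x)_X ((X (x)_k K) / P), and (X (x)_k K)/P embeds in its
fraction field B, so the ring embeds (kap flat over X) in kap (x)_X B, reduced by STATEMENT 1.
(View kap as an X-algebra by y.toAlgebra.) If it is convenient, use directly the ring homomorphism
kap (x)_k K -> kap (x)_X B, a (x) f -> a (x) [1 (x) f], and show that its kernel is P.map (chg K y).
-/
import Pool.Agent.H24.TU.Def

open scoped TensorProduct

namespace Pool.Agent.H24.TU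

universe u

private theorem red_alg {E D B : Type*} [Field E] [CharZero E] [Field D] [Field B] [Algebra E D]
    [Algebra E B] [Algebra.IsAlgebraic E B] : IsReduced (D ⊗[E] B) := by
  apply IsReduced.tensorProduct_of_flat_of_forall_fg
  intro B' hB'
  have h1 : Algebra.FiniteType E B' := (Subalgebra.fg_iff_finiteType B').1 hB'
  have h2 : IsField B' := Subalgebra.isField_of_algebraic B'
  have h3 : Algebra.FormallyUnramified E B' := by
    have h4 : Algebra.IsAlgebraic E B' :=
      Algebra.IsAlgebraic.of_injective B'.val Subtype.val_injective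
    let : Field B' := h2.toField
    have h5 : Algebra.IsSeparable E B' := inferInstance
    exact Algebra.FormallyUnramified.of_isSeparable E B'
  exact Algebra.FormallyUnramified.isReduced_of_field D (D ⊗[E] B')

private theorem dom_pure {X A : Type*} [Field X] [Field A] [Algebra X A] (ι : Type*) :
    IsDomain (A ⊗[X] FractionRing (MvPolynomial ι X)) := by
  have hdom : IsDomain (A ⊗[X] MvPolynomial ι X) :=
    (MvPolynomial.algebraTensorAlgEquiv X A (σ := ι)).toMulEquiv.isDomain _
  let i1 : Algebra (A ⊗[X] MvPolynomial ι X) (A ⊗[X] FractionRing (MvPolynomial ι X)) :=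
    (Algebra.TensorProduct.map (AlgHom.id A A) (IsScalarTower.toAlgHom X (MvPolynomial ι X)
      (FractionRing (MvPolynomial ι X)))).toRingHom.toAlgebra
  have i2 : IsScalarTower A (A ⊗[X] MvPolynomial ι X) (A ⊗[X] FractionRing (MvPolynomial ι X)) :=
    ⟨fun a s t => by
      rw [Algebra.smul_def, Algebra.smul_def]
      change (Algebra.TensorProduct.map (AlgHom.id A A) (IsScalarTower.toAlgHom X
        (MvPolynomial ι X) (FractionRing (MvPolynomial ι X)))) (a • s) * t = a •
        ((Algebra.TensorProduct.map (AlgHom.id A A) (IsScalarTower.toAlgHom X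
        (MvPolynomial ι X) (FractionRing (MvPolynomial ι X)))) s * t)
      rw [map_smul, smul_mul_assoc]⟩
  have hloc := IsLocalization.tensorProduct_tensorProduct_right (R := X) (S := A)
    (nonZeroDivisors (MvPolynomial ι X)) (FractionRing (MvPolynomial ι X)) (by
      refine RingHom.ext fun p => ?_
      change (Algebra.TensorProduct.map (AlgHom.id A A) (IsScalarTower.toAlgHom X
        (MvPolynomial ι X) (FractionRing (MvPolynomial ι X)))) (1 ⊗ₜ p) = 1 ⊗ₜ _
      rw [Algebra.TensorProduct.map_tmul]
      rfl)
  refine IsLocalization.isDomain_of_le_nonZeroDivisors (A ⊗[X] FractionRing (MvPolynomial ι X))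
    (M := (nonZeroDivisors (MvPolynomial ι X)).map
      (Algebra.TensorProduct.includeRight (R := X) (A := A))) ?_
  rintro _ ⟨p, hp, rfl⟩
  rw [mem_nonZeroDivisors_iff_ne_zero]
  intro h
  have hinj := Algebra.TensorProduct.includeRight_injective (R := X) (A := A)
    (B := MvPolynomial ι X) (RingHom.injective _)
  have hp0 : p ≠ 0 := nonZeroDivisors.ne_zero hp
  apply hp0
  apply hinj
  rw [map_zero]
  exact h

theorem isReduced_tensor {X A B : Type u} [Field X] [CharZero X] [Field A] [Field B]
    [Algebra X A] [Algebra X B] : IsReduced (A ⊗[X] B) := by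
  obtain ⟨ι, c, hc⟩ := exists_isTranscendenceBasis' X B
  let E := FractionRing (MvPolynomial ι X)
  let φ : E →ₐ[X] B := (IntermediateField.val _).comp (hc.1.aevalEquivField.toAlgHom)
  let : Algebra E B := φ.toRingHom.toAlgebra
  have i1 : IsScalarTower X E B := IsScalarTower.of_algebraMap_eq fun x => (φ.commutes x).symm
  have i2 : CharZero E := charZero_of_injective_algebraMap (algebraMap X E).injective
  have i3 : Algebra.IsAlgebraic E B := by
    have h1 : Algebra.IsAlgebraic (IntermediateField.adjoin X (Set.range c)) B :=
      hc.isAlgebraic_field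
    exact Algebra.IsAlgebraic.of_ringHom_of_comp_eq (R := E) (A := B)
      (S := IntermediateField.adjoin X (Set.range c)) (B := B)
      (hc.1.aevalEquivField : E →+* _) (RingHom.id B) (AlgEquiv.surjective _)
      Function.injective_id rfl
  have i4 : IsDomain (E ⊗[X] A) := by
    have := dom_pure (X := X) (A := A) ι
    exact (Algebra.TensorProduct.comm X E A).toMulEquiv.isDomain _
  let D := FractionRing (E ⊗[X] A)
  have i5 : IsReduced (D ⊗[E] B) := red_alg
  have i6 : IsReduced (B ⊗[E] D) :=
    isReduced_of_injective (Algebra.TensorProduct.comm E B D) (AlgEquiv.injective _)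
  have i7 : IsReduced (B ⊗[E] (E ⊗[X] A)) := by
    refine isReduced_of_injective (Algebra.TensorProduct.map (AlgHom.id E B)
      (IsScalarTower.toAlgHom E (E ⊗[X] A) D)) ?_
    exact Module.Flat.lTensor_preserves_injective_linearMap _ (IsFractionRing.injective _ _)
  have i8 : IsReduced (B ⊗[X] A) :=
    isReduced_of_injective (Algebra.TensorProduct.cancelBaseChange X E E B A).symm
      (AlgEquiv.injective _)
  exact isReduced_of_injective (Algebra.TensorProduct.comm X A B) (AlgEquiv.injective _)

theorem map_isRadical {k X K κ : Type u} [Field k] [CharZero k] [Field X] [Field K] [Field κ]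
    [Algebra k X] [Algebra k K] [Algebra k κ] (y : X →ₐ[k] κ) {P : Ideal (X ⊗[k] K)}
    (hP : P.IsPrime) : (P.map (chg K y)).IsRadical := by
  let : Algebra X κ := y.toRingHom.toAlgebra
  have i1 : IsScalarTower k X κ := IsScalarTower.of_algebraMap_eq fun x => (y.commutes x).symm
  have i2 : CharZero X := charZero_of_injective_algebraMap (algebraMap k X).injective
  let q : (X ⊗[k] K) →ₐ[X] ((X ⊗[k] K) ⧸ P) := Ideal.Quotient.mkₐ X P
  let i : ((X ⊗[k] K) ⧸ P) →ₐ[X] FractionRing ((X ⊗[k] K) ⧸ P) :=
    IsScalarTower.toAlgHom X ((X ⊗[k] K) ⧸ P) (FractionRing ((X ⊗[k] K) ⧸ P))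
  have hi : Function.Injective i := IsFractionRing.injective _ _
  have hred : IsReduced (κ ⊗[X] FractionRing ((X ⊗[k] K) ⧸ P)) := isReduced_tensor
  have hred2 : IsReduced (κ ⊗[X] ((X ⊗[k] K) ⧸ P)) := by
    refine isReduced_of_injective (Algebra.TensorProduct.map (AlgHom.id X κ) i) ?_
    exact Module.Flat.lTensor_preserves_injective_linearMap _ hi
  have hker := Algebra.TensorProduct.lTensor_ker (A := κ) q (Ideal.Quotient.mkₐ_surjective X P)
  have hkq : RingHom.ker q = P := Ideal.Quotient.mkₐ_ker X P
  rw [hkq] at hker
  let e := Algebra.TensorProduct.cancelBaseChange k X X κ K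
  have he : ∀ r : X ⊗[k] K, e.symm (chg K y r) =
      (Algebra.TensorProduct.includeRight : (X ⊗[k] K) →ₐ[X] κ ⊗[X] (X ⊗[k] K)) r := by
    intro r
    induction r using TensorProduct.induction_on with
    | zero => simp
    | add a b ha hb => rw [map_add, map_add, ha, hb, map_add]
    | tmul x f =>
      rw [chg_tmul, Algebra.TensorProduct.cancelBaseChange_symm_tmul,
        Algebra.TensorProduct.includeRight_apply]
      have h1 : y x = x • (1 : κ) := by
        rw [Algebra.smul_def, mul_one]
        rfl
      rw [h1, TensorProduct.smul_tmul, TensorProduct.smul_tmul', smul_eq_mul, mul_one]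
  have hdown : ∀ x, x ∈ P.map (chg K y) →
      Algebra.TensorProduct.map (AlgHom.id X κ) q (e.symm x) = 0 := by
    have h1 : P.map (chg K y) ≤ RingHom.ker
        ((Algebra.TensorProduct.map (AlgHom.id X κ) q).toRingHom.comp
          (e.symm : κ ⊗[k] K →+* κ ⊗[X] (X ⊗[k] K))) := by
      rw [Ideal.map_le_iff_le_comap]
      intro r hr
      rw [Ideal.mem_comap, RingHom.mem_ker]
      change Algebra.TensorProduct.map (AlgHom.id X κ) q (e.symm (chg K y r)) = 0
      rw [he r, Algebra.TensorProduct.includeRight_apply, Algebra.TensorProduct.map_tmul]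
      have h2 : q r = 0 := Ideal.Quotient.eq_zero_iff_mem.2 hr
      rw [h2, TensorProduct.tmul_zero]
    intro x hx
    exact h1 hx
  have hup : ∀ x, Algebra.TensorProduct.map (AlgHom.id X κ) q (e.symm x) = 0 →
      x ∈ P.map (chg K y) := by
    intro x hx
    have h1 : e.symm x ∈ P.map
        (Algebra.TensorProduct.includeRight : (X ⊗[k] K) →ₐ[X] κ ⊗[X] (X ⊗[k] K)) := by
      rw [← hker]
      exact hx
    have h2 : P.map (Algebra.TensorProduct.includeRight : (X ⊗[k] K) →ₐ[X] κ ⊗[X] (X ⊗[k] K)) ≤
        (P.map (chg K y)).comap (e : κ ⊗[X] (X ⊗[k] K) →+* κ ⊗[k] K) := by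
      rw [Ideal.map_le_iff_le_comap]
      intro r hr
      rw [Ideal.mem_comap, Ideal.mem_comap, ← he r]
      change e (e.symm (chg K y r)) ∈ _
      rw [AlgEquiv.apply_symm_apply]
      exact Ideal.mem_map_of_mem _ hr
    have h3 := h2 h1
    rw [Ideal.mem_comap] at h3
    change e (e.symm x) ∈ _ at h3
    rwa [AlgEquiv.apply_symm_apply] at h3
  rintro x ⟨n, hn⟩
  apply hup
  have h4 := hdown _ hn
  rw [map_pow, map_pow] at h4
  exact eq_zero_of_pow_eq_zero h4

end Pool.Agent.H24.TU
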