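/-
MP_e49dc9_ag, THEOREM U, module TU/Res: chains generated by a subspace and lengths (pure algebra).

O a commutative X-algebra, mm an ideal. Step V A B: B = A + (w) for some w in V with mm w in A.
Res V A B: a finite chain of steps from A to B.
STATEMENT 1 (res_mul): Res V A B, w V <= V', w A <= Cc (as sets) imply Res V' Cc (Cc + w B):
map a step A -> A + (v) to Cc + wA' -> Cc + wA' + (w v) (mm w v in w A'); at the start Cc + w A = Cc.
STATEMENT 2 (res_unit): u a unit, u V <= V': Res V A B -> Res V' A B: (u v) and (v) generate the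
same ideal, mm u v <= A.
STATEMENT 3 (res_pow): M_n graded family, u in M_1 a unit, W in M_1 a FINITE set, J = (W),
Res (M_c) J top. Then Res (M_(N+c)) (J^N) top for all N.
PROOF. Induction on N: N = 0: J^0 = top, empty chain. Step: Res (M_(N+1+c)) (J^(N+1)) (J^N) and
Res (M_(N+1+c)) (J^N) top (from the induction hypothesis by res_unit). For the first: J^N is
generated by the finite set W^N of products w_1 .. w_N, which lie in M_N for N >= 1 (for N = 0 the
product is 1: then the claim is Res (M_(1+c)) J top: res_unit from hc). Let p run through the finite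
set of products p_1, .., p_l: Res (M_c) J top gives by res_mul with w = p, Cc = J^(N+1) + (p_1, ..,
p_(i-1)) >= p J: Res (M_(N+c)) Cc (Cc + (p_i)); then res_unit. Concatenate.
STATEMENT 4 (res_length): O local with maximal ideal mm, Res V A top, U a finite dimensional
X-subspace of O all of whose nonzero elements are units, Z a finite dimensional X-subspace with
V U <= Z. Then finrank U * length(O/A) <= finrank Z.
PROOF. Show (finrank U) * length(O/A) + finrank (Z cap A) <= finrank Z in ENat by induction along
the chain from the end top (length 0, Z cap top = Z). Step B = A + (w), mm w <= A: if w in A then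
B = A. If w not in A: length(O/A) = length(O/B) + length(B/A), B/A = O w / .. is a simple module
(it is isomorphic to O/mm), so length(O/A) = length(O/B) + 1; and w U <= Z cap B, w U cap A = 0 and
u -> w u is injective on U: if w u in A, u <> 0 then u is a unit, so w in A. So
finrank (Z cap B) >= finrank (Z cap A) + finrank U.
(Module.length of the submodule quotient; Module.length_eq_add_of_exact.)
-/
import Mathlib

open scoped Pointwise

namespace Pool.Agent.H24.TU

section

variable {X O : Type*} [Field X] [CommRing O] [Algebra X O]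

/-- One step of a chain: B = A + (w), w in V, mm w in A. -/
def StepV (mm : Ideal O) (V : Submodule X O) (A B : Ideal O) : Prop :=
  ∃ w ∈ V, (∀ a ∈ mm, a * w ∈ A) ∧ B = A ⊔ Ideal.span {w}

/-- A finite chain of steps. -/
def ResV (mm : Ideal O) (V : Submodule X O) (A B : Ideal O) : Prop :=
  Relation.ReflTransGen (StepV mm V) A B

theorem res_mul {mm : Ideal O} {V V' : Submodule X O} {A B Cc : Ideal O} (h : ResV mm V A B)
    (w : O) (hw : ∀ v ∈ V, w * v ∈ V') (hA : ∀ a ∈ A, w * a ∈ Cc) :
    ResV mm V' Cc (Cc ⊔ Ideal.span {w} * B) := by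
  induction h with
  | refl =>
    have h1 : Ideal.span {w} * A ≤ Cc := by
      rw [Ideal.span_singleton_mul_le_iff]
      exact hA
    rw [sup_eq_left.2 h1]
    exact Relation.ReflTransGen.refl
  | tail _ hbc ih =>
    rename_i b c _
    obtain ⟨v, hv, hmv, hc⟩ := hbc
    refine Relation.ReflTransGen.tail ih ⟨w * v, hw v hv, ?_, ?_⟩
    · intro a ha
      refine Ideal.mem_sup_right ?_
      have : a * (w * v) = w * (a * v) := by ring
      rw [this]
      exact Ideal.mul_mem_mul (Ideal.mem_span_singleton_self w) (hmv a ha)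
    · rw [hc, Ideal.mul_sup, Ideal.span_singleton_mul_span_singleton, sup_assoc]

theorem res_unit {mm : Ideal O} {V V' : Submodule X O} {A B : Ideal O} (h : ResV mm V A B)
    (u : O) (hu : IsUnit u) (hV : ∀ v ∈ V, u * v ∈ V') : ResV mm V' A B := by
  have key : ∀ P Q : Ideal O, StepV mm V P Q → StepV mm V' P Q := ?_
  · unfold ResV at h ⊢
    induction h with
    | refl => exact Relation.ReflTransGen.refl
    | tail _ hbc ih => exact Relation.ReflTransGen.tail ih (key _ _ hbc)
  rintro P Q ⟨v, hv, hmv, hQ⟩
  refine ⟨u * v, hV v hv, ?_, ?_⟩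
  · intro a ha
    have : a * (u * v) = u * (a * v) := by ring
    rw [this]
    exact Ideal.mul_mem_left _ _ (hmv a ha)
  · rw [hQ, Ideal.span_singleton_mul_left_unit hu]

private theorem res_gens (M : ℕ → Submodule X O)
    (hmul : ∀ {m n : ℕ} {a b : O}, a ∈ M m → b ∈ M n → a * b ∈ M (m + n))
    (W : Set O) (hfin : W.Finite) (hW : ∀ w ∈ W, w ∈ M 1) (N : ℕ) :
    ∃ F : Set O, F.Finite ∧ (∀ p ∈ F, p ∈ M (N + 1)) ∧ (Ideal.span W) ^ (N + 1) = Ideal.span F := by
  induction N with
  | zero => exact ⟨W, hfin, by simpa using hW, by simp⟩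
  | succ N ih =>
    obtain ⟨F, hF, hFM, hFe⟩ := ih
    refine ⟨F * W, hF.mul hfin, ?_, ?_⟩
    · rintro p ⟨a, ha, b, hb, rfl⟩
      exact hmul (hFM a ha) (hW b hb)
    · rw [pow_succ, hFe, Ideal.span_mul_span']

private theorem res_fin {mm J D : Ideal O} {VM V' : Submodule X O}
    (hc : ResV mm VM J ⊤) (S : Set O) (hS : S.Finite) (hSV : ∀ p ∈ S, ∀ v ∈ VM, p * v ∈ V')
    (hSD : ∀ p ∈ S, ∀ a ∈ J, p * a ∈ D) : ResV mm V' D (D ⊔ Ideal.span S) := by
  induction S, hS using Set.Finite.induction_on with
  | empty =>
    rw [Ideal.span_empty, sup_bot_eq]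
    exact Relation.ReflTransGen.refl
  | insert _ _ ih =>
    rename_i p S _ _
    have h1 := ih (fun q hq => hSV q (Set.mem_insert_of_mem _ hq))
      (fun q hq => hSD q (Set.mem_insert_of_mem _ hq))
    have h2 : ResV mm V' (D ⊔ Ideal.span S) ((D ⊔ Ideal.span S) ⊔ Ideal.span {p} * ⊤) :=
      res_mul hc p (hSV p (Set.mem_insert _ _))
        (fun a ha => Ideal.mem_sup_left (hSD p (Set.mem_insert _ _) a ha))
    have h3 : (D ⊔ Ideal.span S) ⊔ Ideal.span {p} * ⊤ = D ⊔ Ideal.span (insert p S) := by
      rw [Ideal.mul_top, Ideal.span_insert, sup_assoc, sup_comm (Ideal.span S)]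
    rw [h3] at h2
    exact h1.trans h2

theorem res_pow {mm : Ideal O} (M : ℕ → Submodule X O)
    (hmul : ∀ {m n : ℕ} {a b : O}, a ∈ M m → b ∈ M n → a * b ∈ M (m + n))
    (W : Set O) (hfin : W.Finite) (hW : ∀ w ∈ W, w ∈ M 1) (u : O) (hu : u ∈ M 1)
    (huu : IsUnit u) (c : ℕ) (hc : ResV mm (M c) (Ideal.span W) ⊤) (N : ℕ) :
    ResV mm (M (N + c)) ((Ideal.span W) ^ N) ⊤ := by
  have hstep : ∀ N : ℕ, ResV mm (M (N + 1 + c)) ((Ideal.span W) ^ (N + 1))
      ((Ideal.span W) ^ N) := by
    intro N
    rcases N with _ | N
    · simp only [zero_add, pow_one, pow_zero, Ideal.one_eq_top]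
      exact res_unit hc u huu (fun v hv => hmul hu hv)
    · obtain ⟨F, hF, hFM, hFe⟩ := res_gens M hmul W hfin hW N
      have h1 : ResV mm (M (N + 1 + c)) ((Ideal.span W) ^ (N + 1 + 1))
          ((Ideal.span W) ^ (N + 1 + 1) ⊔ Ideal.span F) := by
        refine res_fin hc F hF (fun p hp v hv => hmul (hFM p hp) hv) ?_
        intro p hp a ha
        rw [pow_succ]
        refine Ideal.mul_mem_mul ?_ ha
        rw [hFe]
        exact Ideal.subset_span hp
      rw [← hFe, sup_eq_right.2 (Ideal.pow_le_pow_right (by omega))] at h1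
      refine res_unit h1 u huu (fun v hv => ?_)
      have h2 := hmul hu hv
      have h3 : 1 + (N + 1 + c) = N + 1 + 1 + c := by omega
      rwa [h3] at h2
  induction N with
  | zero =>
    simp only [pow_zero, Ideal.one_eq_top]
    exact Relation.ReflTransGen.refl
  | succ N ih =>
    refine (hstep N).trans (res_unit ih u huu (fun v hv => ?_))
    have h2 := hmul hu hv
    have h3 : 1 + (N + c) = N + 1 + c := by omega
    rwa [h3] at h2

private theorem res_len_step [IsLocalRing O] {A : Ideal O} {w : O}
    (hmw : ∀ a ∈ IsLocalRing.maximalIdeal O, a * w ∈ A) :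
    Module.length O (O ⧸ A) ≤ Module.length O (O ⧸ (A ⊔ Ideal.span {w})) + 1 := by
  set C := A ⊔ Ideal.span {w} with hC
  have hAC : A ≤ C := le_sup_left
  let g : (O ⧸ A) →ₗ[O] (O ⧸ C) := Submodule.factor hAC
  have hg : Function.Surjective g := Submodule.factor_surjective hAC
  have h1 := Module.length_eq_add_of_exact (LinearMap.ker g).subtype g
    (Submodule.subtype_injective _) hg (LinearMap.exact_subtype_ker_map g)
  have h2 : Module.length O (LinearMap.ker g) ≤ 1 := by
    let f0 : O →ₗ[O] (O ⧸ A) := (Submodule.mkQ A).comp (LinearMap.toSpanSingleton O O w)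
    have hf0 : ∀ a, f0 a = Submodule.Quotient.mk (a * w) := by
      intro a
      simp [f0, LinearMap.toSpanSingleton_apply]
    let f1 : (O ⧸ IsLocalRing.maximalIdeal O) →ₗ[O] (O ⧸ A) :=
      Submodule.liftQ _ f0 (by
        intro a ha
        rw [LinearMap.mem_ker, hf0, Submodule.Quotient.mk_eq_zero]
        exact hmw a ha)
    have hf1 : ∀ x, g (f1 x) = 0 := by
      intro x
      obtain ⟨a, rfl⟩ := Submodule.Quotient.mk_surjective _ x
      have : f1 (Submodule.Quotient.mk a) = Submodule.Quotient.mk (a * w) := by
        rw [← hf0]; rfl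
      rw [this]
      change Submodule.Quotient.mk (a * w) = (0 : O ⧸ C)
      rw [Submodule.Quotient.mk_eq_zero]
      exact Ideal.mem_sup_right (Ideal.mul_mem_left _ _ (Ideal.mem_span_singleton_self w))
    let f2 : (O ⧸ IsLocalRing.maximalIdeal O) →ₗ[O] (LinearMap.ker g) :=
      LinearMap.codRestrict (LinearMap.ker g) f1 (fun x => by
        rw [LinearMap.mem_ker]; exact hf1 x)
    have hf2 : Function.Surjective f2 := by
      rintro ⟨y, hy⟩
      obtain ⟨b, rfl⟩ := Submodule.Quotient.mk_surjective _ y
      rw [LinearMap.mem_ker] at hy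
      change Submodule.Quotient.mk b = (0 : O ⧸ C) at hy
      rw [Submodule.Quotient.mk_eq_zero, hC, Submodule.mem_sup] at hy
      obtain ⟨a, ha, z, hz, hb⟩ := hy
      obtain ⟨r, rfl⟩ := Ideal.mem_span_singleton'.1 hz
      refine ⟨Submodule.Quotient.mk r, ?_⟩
      apply Subtype.ext
      change f1 (Submodule.Quotient.mk r) = Submodule.Quotient.mk b
      have h5 : f1 (Submodule.Quotient.mk r) = Submodule.Quotient.mk (r * w) := by
        rw [← hf0]; rfl
      rw [h5, Submodule.Quotient.eq, ← hb]
      have h6 : r * w - (a + r * w) = -a := by ring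
      rw [h6]
      exact A.neg_mem ha
    have : IsSimpleModule O (O ⧸ IsLocalRing.maximalIdeal O) := by
      rw [isSimpleModule_iff_isCoatom]
      exact (inferInstance : (IsLocalRing.maximalIdeal O).IsMaximal).out
    calc Module.length O (LinearMap.ker g)
        ≤ Module.length O (O ⧸ IsLocalRing.maximalIdeal O) :=
          Module.length_le_of_surjective f2 hf2
      _ = 1 := Module.length_eq_one O _
  rw [h1, add_comm]
  gcongr

theorem res_length [IsLocalRing O] {V U Z : Submodule X O} {A : Ideal O}
    (h : ResV (IsLocalRing.maximalIdeal O) V A ⊤) [Module.Finite X U] [Module.Finite X Z]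
    (hU : ∀ a ∈ U, a ≠ 0 → IsUnit a) (hVU : ∀ v ∈ V, ∀ a ∈ U, v * a ∈ Z) :
    (Module.finrank X U : ℕ∞) * Module.length O (O ⧸ A) ≤ (Module.finrank X Z : ℕ∞) := by
  have key : (Module.finrank X U : ℕ∞) * Module.length O (O ⧸ A) +
      (Module.finrank X (Z ⊓ A.restrictScalars X : Submodule X O) : ℕ∞) ≤
        (Module.finrank X Z : ℕ∞) := by
    unfold ResV at h
    induction h using Relation.ReflTransGen.head_induction_on with
    | refl =>
      have h0 : Module.length O (O ⧸ (⊤ : Ideal O)) = 0 := by
        rw [Module.length_eq_zero_iff]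
        exact Ideal.Quotient.subsingleton_iff.2 rfl
      rw [h0, mul_zero, zero_add]
      exact_mod_cast Submodule.finrank_mono (s := Z ⊓ (⊤ : Ideal O).restrictScalars X) (t := Z)
        inf_le_left
    | head hAC _ ih =>
      rename_i A C _
      obtain ⟨w, hwV, hmw, hC⟩ := hAC
      by_cases hwA : w ∈ A
      · have hCA : C = A := by
          rw [hC]
          exact sup_eq_left.2 ((Ideal.span_singleton_le_iff_mem _).2 hwA)
        rw [hCA] at ih
        exact ih
      have hlen : Module.length O (O ⧸ A) ≤ Module.length O (O ⧸ C) + 1 := by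
        rw [hC]
        exact res_len_step hmw
      have hfin : Module.finrank X (Z ⊓ A.restrictScalars X : Submodule X O) +
          Module.finrank X U ≤ Module.finrank X (Z ⊓ C.restrictScalars X : Submodule X O) := by
        have : Module.Finite X (Z ⊓ C.restrictScalars X : Submodule X O) :=
          Submodule.finiteDimensional_of_le (inf_le_left : Z ⊓ C.restrictScalars X ≤ Z)
        have : Module.Finite X (Z ⊓ A.restrictScalars X : Submodule X O) :=
          Submodule.finiteDimensional_of_le (inf_le_left : Z ⊓ A.restrictScalars X ≤ Z)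
        rw [← Module.finrank_prod]
        let f0 : ((Z ⊓ A.restrictScalars X : Submodule X O) × U) →ₗ[X] O :=
          LinearMap.coprod (Submodule.subtype _)
            ((LinearMap.mulLeft X w).comp (Submodule.subtype U))
        have hf0 : ∀ p, f0 p = (p.1 : O) + w * (p.2 : O) := by
          intro p
          simp [f0, LinearMap.coprod_apply]
        let f : ((Z ⊓ A.restrictScalars X : Submodule X O) × U) →ₗ[X]
            (Z ⊓ C.restrictScalars X : Submodule X O) :=
          LinearMap.codRestrict _ f0 (by
            intro p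
            rw [hf0]
            refine ⟨Z.add_mem p.1.2.1 (hVU w hwV _ p.2.2), ?_⟩
            rw [SetLike.mem_coe, Submodule.restrictScalars_mem, hC]
            refine Ideal.add_mem _ (Ideal.mem_sup_left p.1.2.2) (Ideal.mem_sup_right ?_)
            exact Ideal.mul_mem_right _ _ (Ideal.mem_span_singleton_self w))
        refine LinearMap.finrank_le_finrank_of_injective (f := f) ?_
        rw [← LinearMap.ker_eq_bot, LinearMap.ker_eq_bot']
        intro p hp
        have h7 : (p.1 : O) + w * (p.2 : O) = 0 := by
          rw [← hf0]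
          exact congrArg Subtype.val hp
        have h8 : (p.2 : O) = 0 := by
          by_contra hne
          obtain ⟨v, hv⟩ := hU _ p.2.2 hne
          apply hwA
          have h9 : w * (p.2 : O) ∈ A := by
            have h10 : w * (p.2 : O) = -(p.1 : O) := by
              linear_combination h7
            rw [h10]
            exact A.neg_mem p.1.2.2
          have h11 : w = (w * (p.2 : O)) * ((v⁻¹ : Oˣ) : O) := by
            rw [← hv, mul_assoc, Units.mul_inv, mul_one]
          rw [h11]
          exact A.mul_mem_right _ h9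
        have h12 : (p.1 : O) = 0 := by
          rw [h8, mul_zero, add_zero] at h7
          exact h7
        exact Prod.ext (Subtype.ext h12) (Subtype.ext h8)
      calc (Module.finrank X U : ℕ∞) * Module.length O (O ⧸ A) +
            (Module.finrank X (Z ⊓ A.restrictScalars X : Submodule X O) : ℕ∞)
          ≤ (Module.finrank X U : ℕ∞) * (Module.length O (O ⧸ C) + 1) +
            (Module.finrank X (Z ⊓ A.restrictScalars X : Submodule X O) : ℕ∞) := by
              gcongr
        _ = (Module.finrank X U : ℕ∞) * Module.length O (O ⧸ C) +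
            ((Module.finrank X (Z ⊓ A.restrictScalars X : Submodule X O) +
              Module.finrank X U : ℕ) : ℕ∞) := by
              push_cast
              ring
        _ ≤ (Module.finrank X U : ℕ∞) * Module.length O (O ⧸ C) +
            (Module.finrank X (Z ⊓ C.restrictScalars X : Submodule X O) : ℕ∞) := by
              gcongr
        _ ≤ _ := ih
  exact le_trans le_self_add key

end

end Pool.Agent.H24.TU
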