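/-
MP_e49dc9_ag, THEOREM U, algebra layer: the Taylor map at the diagonal point of K (x) K
(definitions only).
-/
import Pool.Agent.H24.TU.Def

open scoped TensorProduct

namespace Pool.Agent.H24.TU

universe u

variable {k K : Type u} [Field k] [Field K] [Algebra k K]

/-- Evaluation at the diagonal: a (x) f -> a f. -/
noncomputable def ev (k K : Type u) [Field k] [Field K] [Algebra k K] : (K ⊗[k] K) →ₐ[k] K :=
  pt (AlgHom.id k K) (AlgHom.id k K)

@[simp] theorem ev_tmul (a f : K) : ev k K (a ⊗ₜ[k] f) = a * f := by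
  simp [ev]

theorem mem_dI {g : K ⊗[k] K} : g ∈ dI k K ↔ ev k K g = 0 := mem_ptI

/-- D^a = d_0^(a 0) d_1^(a 1) d_2^(a 2) on the functions (K-linear for the coefficients). -/
noncomputable def Dp (C : Coord k K) (a : Fin 3 →₀ ℕ) : (K ⊗[k] K) →ₗ[K] (K ⊗[k] K) :=
  ((dK K (C.d 0)).toLinearMap ^ (a 0)) ∘ₗ ((dK K (C.d 1)).toLinearMap ^ (a 1)) ∘ₗ
    ((dK K (C.d 2)).toLinearMap ^ (a 2))

/-- a! -/
def fac3 (a : Fin 3 →₀ ℕ) : ℕ := (a 0).factorial * (a 1).factorial * (a 2).factorial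

/-- The Taylor series at the diagonal point: coefficient (D^a g)(diagonal) / a!. -/
noncomputable def tay (C : Coord k K) (g : K ⊗[k] K) : MvPowerSeries (Fin 3) K :=
  fun a => ((fac3 a : ℕ) : K)⁻¹ * ev k K (Dp C a g)

theorem coeff_tay (C : Coord k K) (g : K ⊗[k] K) (a : Fin 3 →₀ ℕ) :
    MvPowerSeries.coeff a (tay C g) = ((fac3 a : ℕ) : K)⁻¹ * ev k K (Dp C a g) := rfl

open Classical in
/-- The leading exponent: the least element (degree first, then lexicographic) of the support of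
the Taylor series. -/
noncomputable def nu (C : Coord k K) (g : K ⊗[k] K) : Fin 3 →₀ ℕ :=
  if h : {a : DegLex (Fin 3 →₀ ℕ) |
      MvPowerSeries.coeff (ofDegLex a) (tay C g) ≠ 0}.Nonempty then
    ofDegLex (WellFounded.min (wellFounded_lt (α := DegLex (Fin 3 →₀ ℕ))) _ h)
  else 0

end Pool.Agent.H24.TU
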