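/-
MP_e49dc9_ag, THEOREM U, module TU/Trans: TRANSITIVITY (I.9').

STATEMENT 1. y : K -> kap, f in kap (x) L' (L' a finite dimensional k-subspace of K) of order at
least m at the point ptI id y. Then f is in the kap-span of chg y f', f' in K (x) L' with
ord_I(f') >= m (I = dI k K).
PROOF. (b_i) a k-basis of L'; f = sum alpha_i (x) b_i. For a word D = delta_1 .. delta_l of
derivations of K with l < m: OrdGE says (unfold along the word) pt id y (dK delta_1 ( .. f)) = 0,
i.e. sum alpha_i y(D b_i) = 0. Let Phi be the set of all vectors (D b_i)_i, D a word of length < m.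
span_functionals (TU/LA): alpha is in the kap-span of y(beta), beta in K^h with
sum beta_i D b_i = 0 for all D; these beta are exactly those with OrdGE (dI) m (sum beta_i (x) b_i).
(Prove by induction on m: OrdGE Q m g iff for every list of derivations of length < m the
iterated dK is in Q.)
STATEMENT 2 (transitivity). x, y : K -> kap two points, P = ptI x y <= dI k K, trdeg_K (R/P) = 1,
(*1) for K, 0 <> g in M_1 with ord_P(g) >= j, and every f in M_1 with ord_I(f) >= j has
ord_P(f) >= 2. THEN P.map (chg x) <= P.map (chg y).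
PROOF. Let Ik = ptI id y (in kap (x) K); comap (chg x) Ik = P, comap (chg y) Ik = dI k K. Let Q be a
minimal prime of P.map (chg y) with Q <= Ik; comap (chg y) Q = P (comap_minimal, TU/Min).
g_x := chg x g is in kap (x) L_1 and OrdGE Ik j g_x (ordGE_comap, TU/OrdB, since comap (chg x) Ik = P).
STATEMENT 1: g_x is in the kap-span of chg y f', f' in M_1, ord_I f' >= j; so OrdGE P 2 f', so
OrdGE Q 2 (chg y f') (ordGE_comap), so OrdGE Q 2 g_x (OrdGE_add, OrdGE_mul_left). Hence
Q0 := comap (chg x) Q has OrdGE Q0 2 g: g in Q0 and dK delta g in Q0 for all delta. Q0 is prime and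
Q0 <= comap (chg x) Ik = P. If Q0 <> P then 2 <= trdeg (R/Q0) (two_le_trdeg, TU/TrD): contradiction
to (*1). So Q0 = P, i.e. chg x (P) in Q. For p in P: chg x p lies in all minimal primes Q <= Ik of
P.map (chg y), so (exists_mul_pow_mem, TU/Min) s (chg x p)^n in P.map (chg y) with s not in Ik;
saturated (TU/Comp) gives (chg x p)^n in P.map (chg y), map_isRadical (TU/Red) gives chg x p in
P.map (chg y).
-/
import Pool.Agent.H24.TU.OrdB
import Pool.Agent.H24.TU.LA
import Pool.Agent.H24.TU.Min
import Pool.Agent.H24.TU.Comp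
import Pool.Agent.H24.TU.Red
import Pool.Agent.H24.TU.TrD

open scoped TensorProduct

namespace Pool.Agent.H24.TU

universe u

variable {k K κ : Type u} [Field k] [Field K] [Field κ] [Algebra k K] [Algebra k κ]

private theorem tr_words {X : Type u} [Field X] [Algebra k X] (Q : Ideal (X ⊗[k] K)) :
    ∀ (m : ℕ) (g : X ⊗[k] K), OrdGE Q m g ↔
      ∀ l : List (Derivation k K K), l.length < m → l.foldl (fun g δ => dK X δ g) g ∈ Q
  | 0, g => by simp [OrdGE]
  | m + 1, g => by
    show (g ∈ Q ∧ ∀ δ : Derivation k K K, OrdGE Q m (dK X δ g)) ↔ _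
    constructor
    · rintro ⟨h1, h2⟩ l hl
      cases l with
      | nil => exact h1
      | cons δ l => exact (tr_words Q m (dK X δ g)).1 (h2 δ) l (by simpa using hl)
    · intro h
      refine ⟨h [] (by simp), fun δ => (tr_words Q m _).2 fun l hl => ?_⟩
      exact h (δ :: l) (by simpa using hl)

private theorem tr_word_sum {X : Type u} [Field X] [Algebra k X] {ι : Type*} [Fintype ι]
    (α : ι → X) : ∀ (l : List (Derivation k K K)) (b : ι → K),
      l.foldl (fun g δ => dK X δ g) (∑ i, α i ⊗ₜ[k] b i) =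
        ∑ i, α i ⊗ₜ[k] (l.foldl (fun f δ => δ f) (b i))
  | [], b => rfl
  | δ :: l, b => by
    have h : dK X δ (∑ i, α i ⊗ₜ[k] b i) = ∑ i, α i ⊗ₜ[k] δ (b i) := by
      rw [map_sum]
      exact Finset.sum_congr rfl fun i _ => dK_tmul _ _ _
    rw [List.foldl_cons, h, tr_word_sum α l (fun i => δ (b i))]
    rfl

private theorem tr_repr {X : Type u} [Field X] [Algebra k X] {ι : Type*} [Fintype ι] (b : ι → K)
    (L' : Submodule k K) (hb : L' = Submodule.span k (Set.range b)) {u : X ⊗[k] K}
    (hu : u ∈ L'.baseChange X) : ∃ α : ι → X, u = ∑ i, α i ⊗ₜ[k] b i := by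
  rw [hb, Submodule.baseChange_span, ← Set.range_comp] at hu
  obtain ⟨c, hc⟩ := (Submodule.mem_span_range_iff_exists_fun X).1 hu
  refine ⟨c, ?_⟩
  rw [← hc]
  refine Finset.sum_congr rfl fun i _ => ?_
  simp [TensorProduct.smul_tmul']

private theorem tr_sum_mem {X : Type u} [Field X] [Algebra k X] {ι : Type*} [Fintype ι] (b : ι → K)
    (L' : Submodule k K) (hb : ∀ i, b i ∈ L') (α : ι → X) :
    ∑ i, α i ⊗ₜ[k] b i ∈ L'.baseChange X :=
  Submodule.sum_mem _ fun i _ => Submodule.tmul_mem_baseChange_of_mem _ (hb i)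

private theorem tr_smul {X : Type u} [Field X] [Algebra k X] (c : X) (v : X ⊗[k] K) :
    c • v = (c ⊗ₜ[k] (1 : K)) * v := by
  rw [Algebra.smul_def, Algebra.TensorProduct.algebraMap_apply]
  rfl

private theorem tr_chg {X X' : Type u} [Field X] [Algebra k X] [Field X'] [Algebra k X']
    (φ : X →ₐ[k] X') (L' : Submodule k K) {u : X ⊗[k] K} (hu : u ∈ L'.baseChange X) :
    chg K φ u ∈ L'.baseChange X' := by
  rw [Submodule.baseChange_eq_span] at hu
  induction hu using Submodule.span_induction with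
  | mem v hv =>
    obtain ⟨f, hf, rfl⟩ := hv
    show chg K φ ((1 : X) ⊗ₜ[k] f) ∈ _
    rw [chg_tmul]
    exact Submodule.tmul_mem_baseChange_of_mem _ hf
  | zero => rw [map_zero]; exact Submodule.zero_mem _
  | add a b _ _ ha hb => rw [map_add]; exact Submodule.add_mem _ ha hb
  | smul c v _ hv =>
    have h : chg K φ (c • v) = φ c • chg K φ v := by
      rw [tr_smul, map_mul, chg_tmul, tr_smul]
    rw [h]
    exact Submodule.smul_mem _ _ hv

theorem span_ord (y : K →ₐ[k] κ) (L' : Submodule k K) (hL : FiniteDimensional k L') {m : ℕ}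
    {f : κ ⊗[k] K} (hf : f ∈ L'.baseChange κ) (h : OrdGE (ptI (AlgHom.id k κ) y) m f) :
    f ∈ Submodule.span κ (chg K y '' {f' | f' ∈ L'.baseChange K ∧ OrdGE (dI k K) m f'}) := by
  classical
  let b := Module.finBasis k L'
  have hb : L' = Submodule.span k (Set.range fun i => (b i : K)) := by
    have h1 := congrArg (Submodule.map L'.subtype) b.span_eq
    rw [Submodule.map_subtype_top, Submodule.map_span, ← Set.range_comp] at h1
    exact h1.symm
  obtain ⟨α, rfl⟩ := tr_repr _ L' hb hf
  rw [tr_words] at h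
  have h1 := span_functionals y.toRingHom
    {φ | ∃ l : List (Derivation k K K), l.length < m ∧
      φ = fun i => l.foldl (fun f δ => δ f) (b i : K)} α (by
      rintro _ ⟨l, hl, rfl⟩
      have h2 := h l hl
      rw [tr_word_sum, mem_ptI, map_sum] at h2
      rw [← h2]
      refine Finset.sum_congr rfl fun i _ => ?_
      rw [pt_tmul]
      rfl)
  let T : (Fin (Module.finrank k L') → κ) →ₗ[κ] κ ⊗[k] K :=
    Fintype.linearCombination κ (fun i => (1 : κ) ⊗ₜ[k] (b i : K))
  have hT : ∀ γ : Fin (Module.finrank k L') → κ, T γ = ∑ i, γ i ⊗ₜ[k] (b i : K) := by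
    intro γ
    show ∑ i, γ i • ((1 : κ) ⊗ₜ[k] (b i : K)) = _
    refine Finset.sum_congr rfl fun i _ => ?_
    simp [TensorProduct.smul_tmul']
  have h2 := Submodule.mem_map_of_mem (f := T) h1
  rw [Submodule.map_span, hT] at h2
  refine Submodule.span_mono ?_ h2
  rintro _ ⟨_, ⟨β, hβ, rfl⟩, rfl⟩
  refine ⟨∑ i, β i ⊗ₜ[k] (b i : K), ⟨?_, ?_⟩, ?_⟩
  · exact tr_sum_mem _ L' (fun i => (b i).2) β
  · rw [tr_words]
    intro l hl
    rw [tr_word_sum]
    show _ ∈ ptI _ _
    rw [mem_ptI, map_sum, ← hβ _ ⟨l, hl, rfl⟩]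
    refine Finset.sum_congr rfl fun i _ => ?_
    rw [pt_tmul]
    rfl
  · rw [hT, map_sum]
    refine Finset.sum_congr rfl fun i _ => ?_
    rw [chg_tmul]
    rfl

private theorem tr_comap_x (x y : K →ₐ[k] κ) :
    (ptI (AlgHom.id k κ) y).comap (chg K x) = ptI x y := by
  have h : ∀ u : K ⊗[k] K, pt (AlgHom.id k κ) y (chg K x u) = pt x y u := by
    intro u
    induction u using TensorProduct.induction_on with
    | zero => simp
    | add a b ha hb => simp only [map_add, ha, hb]
    | tmul a f => simp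
  ext u
  rw [Ideal.mem_comap, mem_ptI, mem_ptI, h]

private theorem tr_comap_y (y : K →ₐ[k] κ) :
    (ptI (AlgHom.id k κ) y).comap (chg K y) = dI k K := by
  have h : ∀ u : K ⊗[k] K, pt (AlgHom.id k κ) y (chg K y u) =
      y (pt (AlgHom.id k K) (AlgHom.id k K) u) := by
    intro u
    induction u using TensorProduct.induction_on with
    | zero => simp
    | add a b ha hb => simp only [map_add, ha, hb]
    | tmul a f => simp
  ext u
  unfold dI
  rw [Ideal.mem_comap, mem_ptI, mem_ptI, h, map_eq_zero]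

theorem transitivity [CharZero k] [Algebra.EssFiniteType k K] (S : GSys k K)
    (hstar : StarOne k K K (S.L 1)) (x y : K →ₐ[k] κ) (hPI : ptI x y ≤ dI k K)
    (htr : Algebra.trdeg K ((K ⊗[k] K) ⧸ ptI x y) = 1) {j : ℕ} {g : K ⊗[k] K}
    (hg : g ∈ S.M K 1) (hg0 : g ≠ 0) (hj : OrdGE (ptI x y) j g)
    (h8 : ∀ f ∈ S.M K 1, OrdGE (dI k K) j f → OrdGE (ptI x y) 2 f) :
    (ptI x y).map (chg K x) ≤ (ptI x y).map (chg K y) := by
  have hP : (ptI x y).IsPrime := inferInstance
  have key : ∀ Q ∈ ((ptI x y).map (chg K y)).minimalPrimes, Q ≤ ptI (AlgHom.id k κ) y →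
      Q.comap (chg K x) = ptI x y := by
    intro Q hQ hQI
    have hQp : Q.IsPrime := hQ.1.1
    have hc : Q.comap (chg K y) = ptI x y := comap_minimal y hP hQ
    have h1 : OrdGE (ptI (AlgHom.id k κ) y) j (chg K x g) := by
      rw [← ordGE_comap, tr_comap_x]
      exact hj
    have h2 := span_ord y (S.L 1) (S.fin 1) (tr_chg x (S.L 1) hg) h1
    have h3 : OrdGE Q 2 (chg K x g) := by
      generalize chg K x g = w at h2
      induction h2 using Submodule.span_induction with
      | mem v hv =>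
        obtain ⟨f', ⟨hf1, hf2⟩, rfl⟩ := hv
        rw [← ordGE_comap, hc]
        exact h8 f' hf1 hf2
      | zero => exact OrdGE_zero 2
      | add a b _ _ ha hb => exact OrdGE_add ha hb
      | smul c v _ hv =>
        rw [tr_smul]
        exact OrdGE_mul_left _ hv
    rw [← ordGE_comap] at h3
    have hle : Q.comap (chg K x) ≤ ptI x y := by
      rw [← tr_comap_x x y]
      exact Ideal.comap_mono hQI
    by_contra hne
    have hlt : Q.comap (chg K x) < ptI x y := lt_of_le_of_ne hle hne
    have hQ0 : (Q.comap (chg K x)).IsPrime := Ideal.IsPrime.comap _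
    obtain ⟨δ, hδ⟩ := hstar g hg hg0 (Q.comap (chg K x)) hQ0
      (two_le_trdeg hP hQ0 hlt htr) h3.1
    exact hδ (h3.2 δ).1
  rw [Ideal.map_le_iff_le_comap]
  intro p hp
  rw [Ideal.mem_comap]
  obtain ⟨s, hs, n, hn⟩ := exists_mul_pow_mem (ptI (AlgHom.id k κ) y) inferInstance
    ((ptI x y).map (chg K y)) (chg K x p) (by
      intro Q hQ hQI
      have h1 : p ∈ Q.comap (chg K x) := by rw [key Q hQ hQI]; exact hp
      exact h1)
  exact map_isRadical y hP ⟨n, saturated y hP hPI hs hn⟩

end Pool.Agent.H24.TU
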